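import Mathlib

/-!
Module SC15-B-AS: Mathlib's `WeierstrassCurve.addSubMap`
(AlgebraicGeometry/EllipticCurve/Affine/AddSubMap.lean) really computes
`(x(P+Q) x(P-Q) : x(P+Q) + x(P-Q) : 1)` from `(x(P) x(Q) : x(P) + x(Q) : 1)`.
-/

open scoped Classical

namespace SC15.EC

open WeierstrassCurve WeierstrassCurve.Affine

variable {F : Type} [Field F] (W : WeierstrassCurve.Affine F)

private theorem AS_eval (v : Fin 3 → F) :
    (MvPolynomial.eval v (W.addSubMap 0) =
      v 0 ^ 2 - W.b₄ * v 0 * v 2 - W.b₆ * v 1 * v 2 - W.b₈ * v 2 ^ 2) ∧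
    (MvPolynomial.eval v (W.addSubMap 1) =
      2 * v 1 * v 0 + W.b₂ * v 0 * v 2 + W.b₄ * v 1 * v 2 + W.b₆ * v 2 ^ 2) ∧
    (MvPolynomial.eval v (W.addSubMap 2) = v 1 ^ 2 - 4 * v 0 * v 2) := by
  refine ⟨?_, ?_, ?_⟩ <;> simp [addSubMap]

private theorem AS_same [hW : W.IsElliptic] (P : W.Point) : ∃ l : F, l ≠ 0 ∧ ∀ i,
      MvPolynomial.eval (P.sym2x P) (W.addSubMap i) = l * (P + P).sym2x (P - P) i := by
  obtain ⟨f0, f1, f2⟩ := AS_eval W (P.sym2x P)
  rw [sub_self]
  rcases P with _ | ⟨x, y, h⟩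
  · refine ⟨1, one_ne_zero, ?_⟩
    intro i
    have e : (Point.zero : W.Point) = 0 := rfl
    rw [e] at f0 f1 f2 ⊢
    rw [add_zero, Point.sym2x_zero_zero] at *
    fin_cases i
    · simp [f0]
    · simp [f1]
    · simp [f2]
  · have he := (W.equation_iff x y).mp h.1
    rw [Point.sym2x_some_some] at f0 f1 f2
    simp only [Matrix.cons_val_zero, Matrix.cons_val_one, Matrix.cons_val] at f0 f1 f2
    have hpsi : MvPolynomial.eval ![x * x, x + x, 1] (W.addSubMap 1) =
        (2 * y + W.a₁ * x + W.a₃) ^ 2 := by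
      rw [f1]
      simp only [b₂, b₄, b₆]
      linear_combination (-4) * he
    have h2 : MvPolynomial.eval ![x * x, x + x, 1] (W.addSubMap 2) = 0 := by
      rw [f2]; ring
    by_cases hy : y = W.negY x y
    · rw [Point.add_self_of_Y_eq hy, Point.sym2x_some_some, Point.sym2x_zero_zero]
      have h1 : MvPolynomial.eval ![x * x, x + x, 1] (W.addSubMap 1) = 0 := by
        rw [hpsi]
        have : 2 * y + W.a₁ * x + W.a₃ = 0 := by
          simp only [negY] at hy
          linear_combination hy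
        rw [this]; ring
      refine ⟨MvPolynomial.eval ![x * x, x + x, 1] (W.addSubMap 0), ?_, ?_⟩
      · intro h0
        have hne : (![x * x, x + x, 1] : Fin 3 → F) ≠ 0 := by
          intro h3
          have := congrFun h3 2
          simp at this
        apply addSubMap_ne_zero W hne
        funext i
        fin_cases i
        · exact h0
        · exact h1
        · exact h2
      · intro i
        fin_cases i
        · simp
        · simpa using h1
        · simpa using h2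
    · rw [Point.add_self_of_Y_ne hy, Point.sym2x_some_some, Point.sym2x_some_zero]
      have hne : 2 * y + W.a₁ * x + W.a₃ ≠ 0 := by
        intro h0
        apply hy
        simp only [negY]
        linear_combination h0
      refine ⟨(2 * y + W.a₁ * x + W.a₃) ^ 2, pow_ne_zero _ hne, ?_⟩
      intro i
      fin_cases i
      · change MvPolynomial.eval ![x * x, x + x, 1] (W.addSubMap 0) =
          (2 * y + W.a₁ * x + W.a₃) ^ 2 * W.addX x x (W.slope x x y y)
        have hsl : W.slope x x y y * (2 * y + W.a₁ * x + W.a₃) =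
            3 * x ^ 2 + 2 * W.a₂ * x + W.a₄ - W.a₁ * y := by
          rw [slope_of_Y_ne rfl hy]
          have e : y - W.negY x y = 2 * y + W.a₁ * x + W.a₃ := by simp only [negY]; ring
          rw [e]
          exact div_mul_cancel₀ _ hne
        rw [f0]
        simp only [addX, b₄, b₆, b₈]
        generalize W.slope x x y y = l at hsl
        have e3 : (2 * y + W.a₁ * x + W.a₃) ^ 2 * (l ^ 2 + W.a₁ * l - W.a₂ - x - x) =
            (l * (2 * y + W.a₁ * x + W.a₃)) ^ 2 +
              W.a₁ * (l * (2 * y + W.a₁ * x + W.a₃)) * (2 * y + W.a₁ * x + W.a₃) -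
              (W.a₂ + x + x) * (2 * y + W.a₁ * x + W.a₃) ^ 2 := by ring
        rw [e3, hsl]
        linear_combination (W.a₁ ^ 2 + 4 * W.a₂ + 8 * x) * he
      · change MvPolynomial.eval ![x * x, x + x, 1] (W.addSubMap 1) =
          (2 * y + W.a₁ * x + W.a₃) ^ 2 * 1
        rw [mul_one]
        exact hpsi
      · change MvPolynomial.eval ![x * x, x + x, 1] (W.addSubMap 2) =
          (2 * y + W.a₁ * x + W.a₃) ^ 2 * 0
        rw [mul_zero]
        exact h2

theorem addSub_eq {F : Type} [Field F] (W : WeierstrassCurve.Affine F) [hW : W.IsElliptic]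
    (P Q : W.Point) : ∃ l : F, l ≠ 0 ∧ ∀ i,
      MvPolynomial.eval (P.sym2x Q) (W.addSubMap i) = l * (P + Q).sym2x (P - Q) i := by
  have hneg : ∀ P Q : W.Point, (∃ l : F, l ≠ 0 ∧ ∀ i,
      MvPolynomial.eval (P.sym2x Q) (W.addSubMap i) = l * (P + Q).sym2x (P - Q) i) →
      (∃ l : F, l ≠ 0 ∧ ∀ i,
      MvPolynomial.eval (P.sym2x (-Q)) (W.addSubMap i) = l * (P + -Q).sym2x (P - -Q) i) := by
    intro P Q h
    rw [Point.sym2x_neg_right, sub_neg_eq_add, ← sub_eq_add_neg, Point.sym2x_comm (P - Q)]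
    exact h
  by_cases hPQ : P = Q
  · rw [← hPQ]; exact AS_same W P
  by_cases hPQ' : Q = -P
  · rw [hPQ']
    exact hneg P P (AS_same W P)
  rcases P with _ | ⟨x1, y1, h1⟩
  · have e : (Point.zero : W.Point) = 0 := rfl
    rw [e] at hPQ hPQ' ⊢
    rcases Q with _ | ⟨x2, y2, h2⟩
    · exact absurd rfl hPQ
    · obtain ⟨f0, f1, f2⟩ := AS_eval W ![x2, 1, 0]
      refine ⟨1, one_ne_zero, ?_⟩
      intro i
      rw [zero_add, zero_sub, Point.sym2x_neg_right, Point.sym2x_zero_some, Point.sym2x_some_some]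
      fin_cases i
      · simp only [Fin.zero_eta, f0]
        simp
        ring
      · simp only [Fin.mk_one, f1]
        simp
        ring
      · simp only [Fin.reduceFinMk, f2]
        simp
  rcases Q with _ | ⟨x2, y2, h2⟩
  · have e : (Point.zero : W.Point) = 0 := rfl
    rw [e] at hPQ hPQ' ⊢
    obtain ⟨f0, f1, f2⟩ := AS_eval W ![x1, 1, 0]
    refine ⟨1, one_ne_zero, ?_⟩
    intro i
    rw [add_zero, sub_zero, Point.sym2x_some_zero, Point.sym2x_some_some]
    fin_cases i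
    · simp only [Fin.zero_eta, f0]
      simp
      ring
    · simp only [Fin.mk_one, f1]
      simp
      ring
    · simp only [Fin.reduceFinMk, f2]
      simp
  have hx : x1 ≠ x2 := by
    intro hx
    rcases (Point.X_eq_iff (h₁ := h1) (h₂ := h2)).mp hx with h | h
    · exact hPQ h
    · apply hPQ'
      rw [h, neg_neg]
  have he1 := (W.equation_iff x1 y1).mp h1.1
  have he2 := (W.equation_iff x2 y2).mp h2.1
  have hd : x1 - x2 ≠ 0 := sub_ne_zero.mpr hx
  rw [sub_eq_add_neg, Point.neg_some, Point.add_of_X_ne hx, Point.add_of_X_ne hx,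
    Point.sym2x_some_some, Point.sym2x_some_some]
  obtain ⟨f0, f1, f2⟩ := AS_eval W ![x1 * x2, x1 + x2, 1]
  simp only [Matrix.cons_val_zero, Matrix.cons_val_one, Matrix.cons_val] at f0 f1 f2
  have hl : W.slope x1 x2 y1 y2 * (x1 - x2) = y1 - y2 := by
    rw [slope_of_X_ne hx]
    exact div_mul_cancel₀ _ hd
  have hm : W.slope x1 x2 y1 (W.negY x2 y2) * (x1 - x2) = y1 + y2 + W.a₁ * x2 + W.a₃ := by
    rw [slope_of_X_ne hx, div_mul_cancel₀ _ hd]
    simp only [negY]
    ring
  refine ⟨(x1 - x2) ^ 2, pow_ne_zero _ hd, ?_⟩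
  generalize W.slope x1 x2 y1 y2 = l at hl
  generalize W.slope x1 x2 y1 (W.negY x2 y2) = m at hm
  have hlm : l * m * (x1 - x2) =
      x1 ^ 2 + x1 * x2 + x2 ^ 2 + W.a₂ * (x1 + x2) + W.a₄ - W.a₁ * y1 := by
    apply mul_right_cancel₀ hd
    have : l * m * (x1 - x2) * (x1 - x2) = (l * (x1 - x2)) * (m * (x1 - x2)) := by ring
    rw [this, hl, hm]
    linear_combination he1 - he2
  intro i
  fin_cases i
  · change MvPolynomial.eval ![x1 * x2, x1 + x2, 1] (W.addSubMap 0) =
      (x1 - x2) ^ 2 * (W.addX x1 x2 l * W.addX x1 x2 m)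
    rw [f0]
    have e : (x1 - x2) ^ 2 * (W.addX x1 x2 l * W.addX x1 x2 m) =
        (l * m * (x1 - x2)) ^ 2 + W.a₁ * (l * m * (x1 - x2)) * (l * (x1 - x2) + m * (x1 - x2)) +
        W.a₁ ^ 2 * (l * m * (x1 - x2)) * (x1 - x2) -
        (W.a₂ + x1 + x2) * ((l * (x1 - x2)) ^ 2 + (m * (x1 - x2)) ^ 2 +
          W.a₁ * (l * (x1 - x2) + m * (x1 - x2)) * (x1 - x2)) +
        (W.a₂ + x1 + x2) ^ 2 * (x1 - x2) ^ 2 := by
      simp only [addX]; ring
    rw [e, hl, hm, hlm]
    simp only [b₄, b₆, b₈]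
    linear_combination (W.a₁ ^ 2 + 2 * (W.a₂ + x1 + x2)) * he1 + 2 * (W.a₂ + x1 + x2) * he2
  · change MvPolynomial.eval ![x1 * x2, x1 + x2, 1] (W.addSubMap 1) =
      (x1 - x2) ^ 2 * (W.addX x1 x2 l + W.addX x1 x2 m)
    rw [f1]
    have e : (x1 - x2) ^ 2 * (W.addX x1 x2 l + W.addX x1 x2 m) =
        (l * (x1 - x2)) ^ 2 + (m * (x1 - x2)) ^ 2 +
          W.a₁ * (l * (x1 - x2) + m * (x1 - x2)) * (x1 - x2) -
          2 * (W.a₂ + x1 + x2) * (x1 - x2) ^ 2 := by
      simp only [addX]; ring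
    rw [e, hl, hm]
    simp only [b₂, b₄, b₆]
    linear_combination (-2) * he1 + (-2) * he2
  · change MvPolynomial.eval ![x1 * x2, x1 + x2, 1] (W.addSubMap 2) = (x1 - x2) ^ 2 * 1
    rw [f2]
    ring

end SC15.EC
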