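import Mathlib
import Pool.Agent.SC15.Defs
import Pool.Agent.Helper54.InvDiff

/-!
Project SC15, part B: the curve `E_b : y^2 + x y + b y = x^3`, its points over extension fields,
its function field `FF b = k(X)[Y]` with the generic point `(gX, gY)`.
-/

open Polynomial
open scoped Classical

namespace SC15.EC

/-- `E_b : y^2 + x y + b y = x^3` -/
def Eb {A : Type} [CommRing A] (b : A) : WeierstrassCurve A := ⟨1, 0, b, 0, 0⟩

variable {k : Type} [Field k]

/-- the group of points of `E_b` over an extension field `M` of `k` -/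
abbrev Pt (b : k) (M : Type) [Field M] [Algebra k M] : Type :=
  ((Eb b).baseChange M).toAffine.Point

lemma eqn_iff {b : k} {M : Type} [Field M] [Algebra k M] {x y : M} :
    ((Eb b).baseChange M).toAffine.Equation x y ↔ y ^ 2 + x * y + algebraMap k M b * y = x ^ 3 := by
  rw [WeierstrassCurve.Affine.equation_iff]
  simp [Eb, WeierstrassCurve.baseChange]

/-- the condition that `E_b` is an elliptic curve -/
def Ell (b : k) : Prop := b ≠ 0 ∧ 27 * b ≠ 1

lemma delta_eq (b : k) : (Eb b).Δ = b ^ 3 * (1 - 27 * b) := by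
  simp only [Eb, WeierstrassCurve.Δ, WeierstrassCurve.b₂, WeierstrassCurve.b₄,
    WeierstrassCurve.b₆, WeierstrassCurve.b₈]
  ring

lemma isElliptic {b : k} (hb : Ell b) : (Eb b).IsElliptic := by
  rw [WeierstrassCurve.isElliptic_iff, delta_eq, isUnit_iff_ne_zero]
  exact mul_ne_zero (pow_ne_zero _ hb.1) (sub_ne_zero.mpr (fun h => hb.2 h.symm))

lemma nonsing {b : k} (hb : Ell b) {M : Type} [Field M] [Algebra k M] {x y : M}
    (h : y ^ 2 + x * y + algebraMap k M b * y = x ^ 3) :
    ((Eb b).baseChange M).toAffine.Nonsingular x y := by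
  haveI := isElliptic hb
  haveI : ((Eb b).baseChange M).toAffine.IsElliptic :=
    inferInstanceAs ((Eb b).map (algebraMap k M)).IsElliptic
  exact WeierstrassCurve.Affine.equation_iff_nonsingular.mp (eqn_iff.mpr h)

/-- a point given by its coordinates -/
noncomputable def pt {b : k} (hb : Ell b) {M : Type} [Field M] [Algebra k M] (x y : M)
    (h : y ^ 2 + x * y + algebraMap k M b * y = x ^ 3) : Pt b M :=
  .some x y (nonsing hb h)

/-- the map on points induced by a homomorphism of fields -/
noncomputable abbrev pmap (b : k) {M M' : Type} [Field M] [Algebra k M] [Field M'] [Algebra k M']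
    (f : M →ₐ[k] M') : Pt b M →+ Pt b M' :=
  WeierstrassCurve.Affine.Point.map (W' := Eb b) f

/-- the polynomial `Y^2 + (X + b) Y - X^3` over `k(X)` -/
noncomputable def poly (b : k) : (RatFunc k)[X] :=
  X ^ 2 + C (RatFunc.X + RatFunc.C b) * X - C (RatFunc.X ^ 3)

lemma poly_natDegree (b : k) : (poly b).natDegree = 2 := by
  unfold poly
  compute_degree!

lemma poly_monic (b : k) : (poly b).Monic := by
  unfold poly
  monicity!

lemma disc_intDegree (h2 : (2 : k) ≠ 0) (b : k) :
    (4 * RatFunc.X ^ 3 + (RatFunc.X + RatFunc.C b) ^ 2 : RatFunc k) ≠ 0 ∧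
      (4 * RatFunc.X ^ 3 + (RatFunc.X + RatFunc.C b) ^ 2 : RatFunc k).intDegree = 3 := by
  have e : (4 * RatFunc.X ^ 3 + (RatFunc.X + RatFunc.C b) ^ 2 : RatFunc k)
      = algebraMap k[X] (RatFunc k) (C 4 * X ^ 3 + (X + C b) ^ 2) := by
    simp only [map_add, map_mul, map_pow, RatFunc.algebraMap_X, RatFunc.algebraMap_C]
    congr 2
    exact (map_ofNat RatFunc.C 4).symm
  have h4 : (4 : k) ≠ 0 := by
    have : (4 : k) = 2 * 2 := by norm_num
    rw [this]; exact mul_ne_zero h2 h2
  have hd : (C 4 * X ^ 3 + (X + C b) ^ 2 : k[X]).natDegree = 3 := by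
    compute_degree!
  have h0 : (C 4 * X ^ 3 + (X + C b) ^ 2 : k[X]) ≠ 0 := by
    intro h
    rw [h] at hd
    simp at hd
  rw [e]
  refine ⟨fun h => h0 ?_, ?_⟩
  · exact (FaithfulSMul.algebraMap_injective k[X] (RatFunc k)) (by rw [h, map_zero])
  rw [RatFunc.intDegree_polynomial, hd]
  rfl

/-- `4 X^3 + (X + b)^2` is not a square in `k(X)`, not even up to a factor from `k`: it has odd
degree. -/
lemma not_sq (h2 : (2 : k) ≠ 0) (b c : k) (w : RatFunc k)
    (h : w ^ 2 * (4 * RatFunc.X ^ 3 + (RatFunc.X + RatFunc.C b) ^ 2) = RatFunc.C c) : w = 0 := by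
  by_contra hw
  obtain ⟨h0, h1⟩ := disc_intDegree h2 b
  have := congrArg RatFunc.intDegree h
  rw [RatFunc.intDegree_mul (pow_ne_zero _ hw) h0, h1, RatFunc.intDegree_C, pow_two,
    RatFunc.intDegree_mul hw hw] at this
  omega

lemma not_sq' (h2 : (2 : k) ≠ 0) (b : k) (w : RatFunc k) :
    w ^ 2 ≠ 4 * RatFunc.X ^ 3 + (RatFunc.X + RatFunc.C b) ^ 2 := by
  intro h
  obtain ⟨h0, h1⟩ := disc_intDegree h2 b
  have hw : w ≠ 0 := by
    rintro rfl
    rw [← h] at h0
    simp at h0
  have := congrArg RatFunc.intDegree h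
  rw [h1, pow_two, RatFunc.intDegree_mul hw hw] at this
  omega

lemma poly_irreducible (h2 : (2 : k) ≠ 0) (b : k) : Irreducible (poly b) := by
  rw [Polynomial.Monic.irreducible_iff_roots_eq_zero_of_degree_le_three (poly_monic b)
    (poly_natDegree b).ge (by rw [poly_natDegree]; norm_num)]
  rw [Multiset.eq_zero_iff_forall_notMem]
  intro r hr
  have hr' := (mem_roots'.mp hr).2
  simp only [poly, IsRoot.def, eval_sub, eval_add, eval_pow, eval_X, eval_mul, eval_C] at hr'
  refine not_sq' h2 b (2 * r + RatFunc.X + RatFunc.C b) ?_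
  linear_combination 4 * hr'

/-- the characteristic of `k` is not two -/
class Odd (k : Type) [Field k] : Prop where
  two : (2 : k) ≠ 0

instance [Odd k] (b : k) : Fact (Irreducible (poly b)) := ⟨poly_irreducible Odd.two b⟩

/-- the function field of `E_b` -/
def FF (b : k) : Type := AdjoinRoot (poly b)

noncomputable instance (b : k) [Odd k] : Field (FF b) :=
  inferInstanceAs (Field (AdjoinRoot (poly b)))

noncomputable instance (b : k) [Odd k] : Algebra (RatFunc k) (FF b) :=
  inferInstanceAs (Algebra (RatFunc k) (AdjoinRoot (poly b)))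

noncomputable instance (b : k) [Odd k] : Algebra k (FF b) :=
  inferInstanceAs (Algebra k (AdjoinRoot (poly b)))

instance (b : k) [Odd k] : IsScalarTower k (RatFunc k) (FF b) :=
  inferInstanceAs (IsScalarTower k (RatFunc k) (AdjoinRoot (poly b)))

variable [Odd k]

/-- the `x`-coordinate of the generic point -/
noncomputable def gX (b : k) : FF b := algebraMap (RatFunc k) (FF b) RatFunc.X

/-- the `y`-coordinate of the generic point -/
noncomputable def gY (b : k) : FF b := AdjoinRoot.root (poly b)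

lemma g_eqn (b : k) : gY b ^ 2 + gX b * gY b + algebraMap k (FF b) b * gY b = gX b ^ 3 := by
  have h : eval₂ (AdjoinRoot.of (poly b)) (AdjoinRoot.root (poly b))
      (X ^ 2 + C (RatFunc.X + RatFunc.C b) * X - C (RatFunc.X ^ 3)) = 0 :=
    AdjoinRoot.eval₂_root (poly b)
  simp only [eval₂_sub, eval₂_add, eval₂_pow, eval₂_X, eval₂_mul, eval₂_C, map_add,
    map_pow] at h
  have h' : AdjoinRoot.root (poly b) ^ 2 + AdjoinRoot.of (poly b) RatFunc.X *
      AdjoinRoot.root (poly b) + AdjoinRoot.of (poly b) (RatFunc.C b) * AdjoinRoot.root (poly b)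
      = (AdjoinRoot.of (poly b) RatFunc.X) ^ 3 := by linear_combination h
  exact h'

/-- the generic point -/
noncomputable def gP {b : k} (hb : Ell b) : Pt b (FF b) := pt hb (gX b) (gY b) (g_eqn b)

end SC15.EC
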