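import Mathlib
import Pool.Agent.SC15.B.Core

/-!
Module SC15-B-FF (0.6 h): basic facts on the function field `FF b = k(X)[Y]/(Y^2+(X+b)Y-X^3)`
(`AdjoinRoot (poly b)` over `RatFunc k`, all definitions in `B/Core.lean`).

Plan.
* `ff_repr`: `AdjoinRoot.powerBasis` (or `AdjoinRoot.mk_surjective` and division `modByMonic` by the
  monic polynomial `poly b` of degree 2): every element is `r + s Y` with `r s : RatFunc k`.
* `ff_unique`: `r + s Y = 0` implies `s = 0` and `r = 0` (otherwise `poly b` of degree 2, irreducible,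
  would divide a polynomial of degree `<= 1`; `AdjoinRoot.mk_eq_zero`, `degree` argument).
* `gX_transcendental`: `RatFunc.X` is transcendental over `k` (`RatFunc.transcendental_X` or
  `RatFunc.algebraMap_injective`), and `RatFunc k → FF b` is injective.
* `ff_lift`: `x` transcendental gives `RatFunc k →ₐ[k] M`, `X ↦ x` (`RatFunc.liftAlgHom` or
  `IsFractionRing.liftAlgHom` of `Polynomial.aeval x : k[X] →ₐ[k] M`, injective by transcendence);
  then `AdjoinRoot.lift` (or `AdjoinRoot.liftAlgHom`) with `y` a root.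
* `ff_rat`: for `ρ : FF b →ₐ[k] M` and `r = num / denom` use `RatFunc.num_div_denom` and
  `ρ (algebraMap (RatFunc k) (FF b) (algebraMap k[X] _ A)) = aeval (ρ (gX b)) A` (both sides are
  `k`-algebra homs from `k[X]` agreeing on `X`: `Polynomial.algHom_ext`).
* `exists_tau`: `ff_lift` with `x = gX b`, `y = - gY b - gX b - b`; `τ` fixes `RatFunc k` by `ff_rat`;
  if `τ (r + s Y) = r + s Y` then `s (2 Y + X + b) = 0`; `2 Y + X + b <> 0` by `ff_unique` (`2 <> 0`).
-/

open Polynomial
open scoped Classical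

namespace SC15.EC

variable {k : Type} [Field k] [Odd k]

private theorem ff_alg_of (b : k) (r : RatFunc k) :
    algebraMap (RatFunc k) (FF b) r = (AdjoinRoot.of (poly b) r : AdjoinRoot (poly b)) := rfl

private theorem ff_lin (b : k) (r s : RatFunc k) :
    (AdjoinRoot.mk (poly b) (C s * X + C r) : FF b) =
      algebraMap (RatFunc k) (FF b) r + algebraMap (RatFunc k) (FF b) s * gY b := by
  have h : AdjoinRoot.mk (poly b) (C s * X + C r) =
      AdjoinRoot.of (poly b) r + AdjoinRoot.of (poly b) s * AdjoinRoot.root (poly b) := by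
    rw [map_add, map_mul, AdjoinRoot.mk_C, AdjoinRoot.mk_C, AdjoinRoot.mk_X, add_comm]
  exact h

private theorem ff_poly (b : k) (A : k[X]) :
    algebraMap (RatFunc k) (FF b) (algebraMap k[X] (RatFunc k) A) = aeval (gX b) A := by
  rw [← RatFunc.aeval_X_left_eq_algebraMap, gX, Polynomial.aeval_algebraMap_apply]

theorem ff_repr (b : k) (f : FF b) : ∃ r s : RatFunc k,
    f = algebraMap (RatFunc k) (FF b) r + algebraMap (RatFunc k) (FF b) s * gY b := by
  obtain ⟨g, hg⟩ := AdjoinRoot.mk_surjective (f : AdjoinRoot (poly b))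
  have h1 : AdjoinRoot.mk (poly b) g = AdjoinRoot.mk (poly b) (g %ₘ poly b) := by
    conv_lhs => rw [← Polynomial.modByMonic_add_div g (poly b)]
    rw [map_add, map_mul, AdjoinRoot.mk_self, zero_mul, add_zero]
  have h2 : (g %ₘ poly b).natDegree ≤ 1 := by
    have h3 := Polynomial.natDegree_modByMonic_lt g (poly_monic b) (by
      intro h
      have := poly_natDegree b
      rw [h] at this
      simp at this)
    rw [poly_natDegree] at h3
    omega
  obtain ⟨s, r, h4⟩ := Polynomial.exists_eq_X_add_C_of_natDegree_le_one h2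
  refine ⟨r, s, ?_⟩
  rw [← ff_lin, ← h4]
  exact hg.symm.trans h1

theorem ff_unique (b : k) (r s : RatFunc k)
    (h : algebraMap (RatFunc k) (FF b) r + algebraMap (RatFunc k) (FF b) s * gY b = 0) :
    r = 0 ∧ s = 0 := by
  rw [← ff_lin] at h
  have h1 : AdjoinRoot.mk (poly b) (C s * X + C r) = 0 := h
  rw [AdjoinRoot.mk_eq_zero] at h1
  have h2 : (C s * X + C r : (RatFunc k)[X]) = 0 := by
    by_contra h3
    have h4 := Polynomial.natDegree_le_of_dvd h1 h3
    rw [poly_natDegree] at h4
    have h5 : (C s * X + C r : (RatFunc k)[X]).natDegree ≤ 1 := Polynomial.natDegree_linear_le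
    omega
  have h6 := congrArg (fun p => Polynomial.coeff p 0) h2
  have h7 := congrArg (fun p => Polynomial.coeff p 1) h2
  simp at h6 h7
  exact ⟨h6, h7⟩

theorem gX_transcendental (b : k) : Transcendental k (gX b) := by
  rw [transcendental_iff]
  intro p hp
  rw [← ff_poly] at hp
  have h1 : algebraMap k[X] (RatFunc k) p = 0 :=
    (map_eq_zero (algebraMap (RatFunc k) (FF b))).1 hp
  exact RatFunc.algebraMap_injective k (h1.trans (map_zero _).symm)

theorem ff_lift {b : k} {M : Type} [Field M] [Algebra k M] (x y : M) (hx : Transcendental k x)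
    (h : y ^ 2 + x * y + algebraMap k M b * y = x ^ 3) :
    ∃ ρ : FF b →ₐ[k] M, ρ (gX b) = x ∧ ρ (gY b) = y := by
  have hinj : Function.Injective (aeval x : k[X] →ₐ[k] M) :=
    transcendental_iff_injective.1 hx
  let i : RatFunc k →ₐ[k] M := RatFunc.liftAlgHom (aeval x : k[X] →ₐ[k] M)
    (nonZeroDivisors_le_comap_nonZeroDivisors_of_injective _ hinj)
  have hi : ∀ A : k[X], i (algebraMap k[X] (RatFunc k) A) = aeval x A := by
    intro A
    have h1 := RatFunc.liftAlgHom_apply_div (aeval x : k[X] →ₐ[k] M)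
      (nonZeroDivisors_le_comap_nonZeroDivisors_of_injective _ hinj) A 1
    rw [map_one, div_one, map_one, div_one] at h1
    exact h1
  have hiX : i RatFunc.X = x := by
    rw [← RatFunc.algebraMap_X, hi, aeval_X]
  have hiC : i (RatFunc.C b) = algebraMap k M b := by
    rw [← RatFunc.algebraMap_C, hi, aeval_C]
  have he : (poly b).eval₂ (i : RatFunc k →+* M) y = 0 := by
    simp only [poly, eval₂_sub, eval₂_add, eval₂_pow, eval₂_X, eval₂_mul, eval₂_C, map_add,
      map_pow]
    have e1 : (i : RatFunc k →+* M) RatFunc.X = x := hiX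
    have e2 : (i : RatFunc k →+* M) (RatFunc.C b) = algebraMap k M b := hiC
    rw [e1, e2]
    linear_combination h
  refine ⟨(AdjoinRoot.liftAlgHom (poly b) i y he : AdjoinRoot (poly b) →ₐ[k] M), ?_, ?_⟩
  · have h2 : (AdjoinRoot.liftAlgHom (poly b) i y he) (AdjoinRoot.of (poly b) RatFunc.X) = x := by
      rw [AdjoinRoot.liftAlgHom_of, hiX]
    exact h2
  · exact AdjoinRoot.liftAlgHom_root (poly b) i y he

theorem ff_rat {b : k} {M : Type} [Field M] [Algebra k M] (ρ : FF b →ₐ[k] M) (r : RatFunc k) :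
    ρ (algebraMap (RatFunc k) (FF b) r) = aeval (ρ (gX b)) r.num / aeval (ρ (gX b)) r.denom := by
  have h1 : ∀ A : k[X], ρ (algebraMap (RatFunc k) (FF b) (algebraMap k[X] (RatFunc k) A)) =
      aeval (ρ (gX b)) A := by
    intro A
    rw [ff_poly, ← Polynomial.aeval_algHom_apply]
  conv_lhs => rw [← RatFunc.num_div_denom r]
  rw [map_div₀, map_div₀, h1, h1]

theorem exists_tau (b : k) : ∃ τ : FF b →ₐ[k] FF b, τ (gX b) = gX b ∧
    τ (gY b) = - gY b - gX b - algebraMap k (FF b) b ∧
    (∀ r : RatFunc k, τ (algebraMap (RatFunc k) (FF b) r) = algebraMap (RatFunc k) (FF b) r) ∧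
    (∀ f : FF b, τ f = f → ∃ r : RatFunc k, f = algebraMap (RatFunc k) (FF b) r) := by
  obtain ⟨τ, h1, h2⟩ := ff_lift (b := b) (gX b) (- gY b - gX b - algebraMap k (FF b) b)
    (gX_transcendental b) (by
      have h := g_eqn b
      linear_combination h)
  have h3 : ∀ r : RatFunc k,
      τ (algebraMap (RatFunc k) (FF b) r) = algebraMap (RatFunc k) (FF b) r := by
    intro r
    have e1 := ff_rat τ r
    have e2 := ff_rat (AlgHom.id k (FF b)) r
    rw [h1] at e1
    rw [e1]
    exact e2.symm
  refine ⟨τ, h1, h2, h3, ?_⟩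
  intro f hf
  obtain ⟨r, s, rfl⟩ := ff_repr b f
  rw [map_add, map_mul, h3, h3, h2] at hf
  have h4 : algebraMap (RatFunc k) (FF b) s *
      (gX b + algebraMap k (FF b) b + 2 * gY b) = 0 := by linear_combination -hf
  rcases mul_eq_zero.1 h4 with h5 | h5
  · exact ⟨r, by rw [h5, zero_mul, add_zero]⟩
  · exfalso
    have h6 := ff_unique b (RatFunc.X + RatFunc.C b) 2 (by
      rw [map_add, map_ofNat, ← h5]
      congr 2)
    have h7 : (RatFunc.C (2 : k) : RatFunc k) = 0 := by
      rw [map_ofNat]
      exact h6.2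
    rw [map_eq_zero] at h7
    exact Odd.two h7

end SC15.EC
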