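import Mathlib
import Pool.Agent.SC15.B.FFApi

/-!
Module SC15-B-DER (0.4 h): the derivation `d/dX` of the function field `FF b` over `k`.

Plan: copy the proof of `exists_derivation` in `Pool/Agent/Helper54/FunField.lean` (on main), with
`k` in place of `ℚ`: `k[X] → RatFunc k` is formally etale (localisation), `RatFunc k → FF b` is
formally etale since it is separable algebraic (`Algebra.FormallyEtale.of_isSeparable`), then
`KaehlerDifferential.tensorKaehlerEquivOfFormallyEtale` and `KaehlerDifferential.polynomialEquiv`.
Separability: every element of `FF b` is a root of a separable polynomial of degree `<= 2`: the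
extension is generated by `gY b` (`ff_repr`), whose minimal polynomial is `poly b`; it is separable
because it is irreducible (`poly_irreducible`) and its derivative `2 Y + X + b` is not zero
(`Irreducible.separable_iff_derivative_ne_zero` or `Polynomial.separable_iff_derivative_ne_zero`);
then `IntermediateField.isSeparable_adjoin_simple_iff_isSeparable` and
`IntermediateField.adjoin (RatFunc k) {gY b} = ⊤`, or directly `AdjoinRoot`-lemmas.
(Alternative without Kaehler differentials: define `D (r + s Y)` by hand.)
-/

open Polynomial
open scoped Classical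

namespace SC15.EC

variable {k : Type} [Field k] [Odd k]

private theorem der_sep_gY (b : k) : IsSeparable (RatFunc k) (gY b) := by
  have h0 : aeval (gY b) (poly b) = 0 := AdjoinRoot.eval₂_root (poly b)
  have hsep : (poly b).Separable := by
    rw [separable_iff_derivative_ne_zero (poly_irreducible Odd.two b)]
    intro h
    have h1 : (derivative (poly b)).coeff 1 = 2 := by
      unfold poly
      rw [derivative_sub, derivative_add, derivative_X_pow, derivative_C_mul_X, derivative_C,
        sub_zero, coeff_add, coeff_C_ne_zero one_ne_zero, add_zero, coeff_C_mul]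
      norm_num
    rw [h, coeff_zero] at h1
    have h2 : (algebraMap k (RatFunc k)) 2 = 0 := by
      rw [map_ofNat]
      exact h1.symm
    exact Odd.two ((FaithfulSMul.algebraMap_injective k (RatFunc k)) (by rw [h2, map_zero]))
  exact hsep.of_dvd (minpoly.dvd _ _ h0)

private theorem der_sep (b : k) : Algebra.IsSeparable (RatFunc k) (FF b) := by
  have h1 : Algebra.IsSeparable (RatFunc k)
      (IntermediateField.adjoin (RatFunc k) {gY b}) :=
    (IntermediateField.isSeparable_adjoin_simple_iff_isSeparable (RatFunc k) (FF b)).2
      (der_sep_gY b)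
  have h2 : IntermediateField.adjoin (RatFunc k) {gY b} = ⊤ :=
    IntermediateField.adjoin_root_eq_top (poly b)
  rw [h2] at h1
  exact AlgEquiv.Algebra.isSeparable IntermediateField.topEquiv

theorem exists_der (b : k) : ∃ D : Derivation k (FF b) (FF b), D (gX b) = 1 := by
  let _ : Algebra k[X] (FF b) :=
    ((algebraMap (RatFunc k) (FF b)).comp (algebraMap k[X] (RatFunc k))).toAlgebra
  have : IsScalarTower k[X] (RatFunc k) (FF b) := IsScalarTower.of_algebraMap_eq (fun x => rfl)
  have : IsScalarTower k k[X] (FF b) := by
    refine IsScalarTower.of_algebraMap_eq (fun x => ?_)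
    rw [IsScalarTower.algebraMap_apply k (RatFunc k) (FF b),
      IsScalarTower.algebraMap_apply k k[X] (RatFunc k)]
    rfl
  have h1 : Algebra.FormallyEtale k[X] (RatFunc k) :=
    Algebra.FormallyEtale.of_isLocalization (nonZeroDivisors k[X])
  have := der_sep b
  have h2 : Algebra.FormallyEtale (RatFunc k) (FF b) :=
    Algebra.FormallyEtale.of_isSeparable _ _
  have h3 : Algebra.FormallyEtale k[X] (FF b) := Algebra.FormallyEtale.comp k[X] (RatFunc k) (FF b)
  let e := KaehlerDifferential.tensorKaehlerEquivOfFormallyEtale k k[X] (FF b)
  let g : Ω[k[X]⁄k] →ₗ[k[X]] (FF b) :=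
    (Algebra.linearMap k[X] (FF b)).comp (KaehlerDifferential.polynomialEquiv k).toLinearMap
  let L : TensorProduct k[X] (FF b) (Ω[k[X]⁄k]) →ₗ[FF b] (FF b) := g.liftBaseChange (FF b)
  refine ⟨(L.comp e.symm.toLinearMap).compDer (KaehlerDifferential.D k (FF b)), ?_⟩
  have h4 := KaehlerDifferential.tensorKaehlerEquivOfFormallyEtale_symm_D_algebraMap k k[X] (FF b)
    (X : k[X])
  have h5 : gX b = algebraMap k[X] (FF b) X := by
    change algebraMap (RatFunc k) (FF b) RatFunc.X =
      algebraMap (RatFunc k) (FF b) (algebraMap k[X] (RatFunc k) X)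
    rw [RatFunc.algebraMap_X]
  rw [h5]
  change L (e.symm (KaehlerDifferential.D k (FF b) (algebraMap k[X] (FF b) X))) = 1
  rw [h4]
  simp [L, g]

end SC15.EC
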