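import Mathlib
import Pool.Agent.SC15.Defs

/-!
Project SC15, part B, formal side: points of the formal curve `v + u v + b v^2 = u^3`
(coordinates `u = x / y`, `v = 1 / y` of `y^2 + x y + b y = x^3`) with values in the maximal
ideal `(t)` of `A[[t]]`, the chord construction and the invariant differential.
-/

namespace SC15.FG

open PowerSeries

variable {A : Type*} [CommRing A]

/-- inverse of a power series with constant coefficient `1` -/
noncomputable def inv1 (f : A⟦X⟧) : A⟦X⟧ := invOfUnit f 1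

lemma mul_inv1 {f : A⟦X⟧} (h : constantCoeff f = 1) : f * inv1 f = 1 :=
  mul_invOfUnit f 1 (by simpa using h)

lemma constantCoeff_inv1 (f : A⟦X⟧) : constantCoeff (inv1 f) = 1 := by
  simp [inv1]

/-- points of the formal curve -/
@[ext] structure Gp (b : A) where
  u : A⟦X⟧
  v : A⟦X⟧
  hu : constantCoeff u = 0
  hv : constantCoeff v = 0
  eq : v + u * v + C b * v ^ 2 = u ^ 3

/-- the slope of the chord through two points -/
noncomputable def lam {b : A} (P Q : Gp b) : A⟦X⟧ :=
  (P.u ^ 2 + P.u * Q.u + Q.u ^ 2 - Q.v) * inv1 (1 + P.u + C b * (P.v + Q.v))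

lemma lam_spec {b : A} (P Q : Gp b) :
    lam P Q * (1 + P.u + C b * (P.v + Q.v)) = P.u ^ 2 + P.u * Q.u + Q.u ^ 2 - Q.v := by
  have h : (1 + P.u + C b * (P.v + Q.v)) * inv1 (1 + P.u + C b * (P.v + Q.v)) = 1 :=
    mul_inv1 (by simp [P.hu, P.hv, Q.hv])
  unfold lam
  linear_combination (P.u ^ 2 + P.u * Q.u + Q.u ^ 2 - Q.v) * h

lemma constantCoeff_lam {b : A} (P Q : Gp b) : constantCoeff (lam P Q) = 0 := by
  simp [lam, P.hu, Q.hu, Q.hv]

lemma lam_chord {b : A} (P Q : Gp b) : P.v - Q.v = lam P Q * (P.u - Q.u) := by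
  have h : (1 + P.u + C b * (P.v + Q.v)) * inv1 (1 + P.u + C b * (P.v + Q.v)) = 1 :=
    mul_inv1 (by simp [P.hu, P.hv, Q.hv])
  have h1 := lam_spec P Q
  have h2 : (P.v - Q.v) * (1 + P.u + C b * (P.v + Q.v)) =
      lam P Q * (P.u - Q.u) * (1 + P.u + C b * (P.v + Q.v)) := by
    linear_combination P.eq - Q.eq - (P.u - Q.u) * h1
  calc P.v - Q.v = (P.v - Q.v) * (1 + P.u + C b * (P.v + Q.v)) *
        inv1 (1 + P.u + C b * (P.v + Q.v)) := by rw [mul_assoc, h, mul_one]
    _ = _ := by rw [h2, mul_assoc, h, mul_one]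

/-- the third point on the chord -/
noncomputable def third {b : A} (P Q : Gp b) : Gp b where
  u := lam P Q + C b * lam P Q ^ 2 - P.u - Q.u
  v := lam P Q * (lam P Q + C b * lam P Q ^ 2 - P.u - Q.u - P.u) + P.v
  hu := by simp [constantCoeff_lam, P.hu, Q.hu]
  hv := by simp [constantCoeff_lam, P.hv]
  eq := by
    have h1 := lam_spec P Q
    have h2 := lam_chord P Q
    have h3 := P.eq
    linear_combination h3 + (lam P Q + C b * lam P Q ^ 2 - P.u - Q.u - P.u) * h1
      + (lam P Q + C b * lam P Q ^ 2 - P.u - Q.u - P.u) * (1 + C b * lam P Q) * h2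

/-- the inverse of a point -/
noncomputable def neg {b : A} (P : Gp b) : Gp b where
  u := - P.u * inv1 (1 + P.u + C b * P.v)
  v := - P.v * inv1 (1 + P.u + C b * P.v)
  hu := by simp [P.hu]
  hv := by simp [P.hv]
  eq := by
    have h : (1 + P.u + C b * P.v) * inv1 (1 + P.u + C b * P.v) = 1 :=
      mul_inv1 (by simp [P.hu, P.hv])
    have h3 := P.eq
    linear_combination (- inv1 (1 + P.u + C b * P.v) ^ 3) * h3
      + (inv1 (1 + P.u + C b * P.v) ^ 2 * P.v + P.v * inv1 (1 + P.u + C b * P.v)) * h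

/-- the sum of two points -/
noncomputable def add {b : A} (P Q : Gp b) : Gp b := neg (third P Q)

/-- the zero point -/
noncomputable def zero (b : A) : Gp b where
  u := 0
  v := 0
  hu := by simp
  hv := by simp
  eq := by ring

/-- natural multiples -/
noncomputable def nsm {b : A} : ℕ → Gp b → Gp b
  | 0, _ => zero b
  | n + 1, P => add (nsm n P) P

/-- integral multiples -/
noncomputable def zsm {b : A} (n : ℤ) (P : Gp b) : Gp b :=
  if 0 ≤ n then nsm n.toNat P else neg (nsm (-n).toNat P)

/-- the invariant differential -/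
noncomputable def dlt {b : A} (P : Gp b) : A⟦X⟧ :=
  d⁄dX A P.u * inv1 (1 + P.u + 2 * C b * P.v)

/-- change of rings -/
noncomputable def map {A' : Type*} [CommRing A'] (f : A →+* A') {b : A} (P : Gp b) : Gp (f b) where
  u := PowerSeries.map f P.u
  v := PowerSeries.map f P.v
  hu := by
    rw [← coeff_zero_eq_constantCoeff_apply, coeff_map, coeff_zero_eq_constantCoeff_apply,
      P.hu, map_zero]
  hv := by
    rw [← coeff_zero_eq_constantCoeff_apply, coeff_map, coeff_zero_eq_constantCoeff_apply,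
      P.hv, map_zero]
  eq := by
    have := congrArg (PowerSeries.map f) P.eq
    simpa using this

end SC15.FG
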