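import Mathlib
import Pool.Agent.SC15.B.FGDefs

/-!
Module SC15-B-FGS (0.7 h): the canonical points `(t^m, V(t^m))` of the formal curve; functoriality.

Plan.
 * `map_inv1`, `map_add`, `map_neg`, `map_zsm`: `PowerSeries.map f` is a ring hom; the inverse of a
   series with constant coefficient 1 is unique, so `map f (inv1 g) = inv1 (map f g)` (multiply by `map f g`),
   if `constantCoeff g = 1`. For `lam`, `third` use `lam_spec`-type uniqueness or `map_inv1`.
 * `exists_V`: `V = X^3 i · Cat(- b X^3 i^2)` where `i = inv1 (1 + X)` and `Cat` is Mathlib's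
   `PowerSeries.catalanSeries` (over ℕ, `catalanSeries_one_add_X_mul_self_sq`), mapped to `A` and
   substituted (`PowerSeries.subst`, `HasSubst.of_constantCoeff_zero'`). With `x = - b X^3 i^2`:
   `V (1 + X) + b V^2 = X^3 (C - x C^2) = X^3`. (Or any other construction.)
 * `u_inj`: same `u` gives `(v1 - v2)(1 + u + b (v1 + v2)) = 0`, the second factor is a unit.
 * `gt b m hm` has `u = X^m`, `v = expand m hm (genV b)`; equation by applying the algebra hom `expand`.
 * `map_gt`: by `u_inj`.
 * `dlt_gt`: `D (X^m) = m X^(m-1)` (`derivative_pow`), and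
   `inv1 (1 + X^m + 2 C b V(X^m)) = expand m (inv1 (1 + X + 2 C b V))`.
 * `gt_frob`: `A` of characteristic `p`, `b^(p^n) = b`: the pair `(X^q, V^q)`, `q = p^n`, satisfies the
   equation (apply `iterateFrobenius` / `add_pow_char_pow` to the equation of `V`), so `V^q = V(X^q)` by
   the argument of `u_inj`.
-/

namespace SC15.FG

open PowerSeries

variable {A : Type*} [CommRing A]

private theorem fgs_inv1_unique {g h : A⟦X⟧} (hg : constantCoeff g = 1) (h1 : g * h = 1) :
    inv1 g = h := by
  calc inv1 g = inv1 g * (g * h) := by rw [h1, mul_one]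
    _ = (g * inv1 g) * h := by ring
    _ = h := by rw [mul_inv1 hg, one_mul]

private theorem fgs_cc_map {A' : Type*} [CommRing A'] (f : A →+* A') (g : A⟦X⟧) :
    constantCoeff (PowerSeries.map f g) = f (constantCoeff g) := by
  rw [← coeff_zero_eq_constantCoeff_apply, coeff_map, coeff_zero_eq_constantCoeff_apply]

theorem map_inv1 {A' : Type*} [CommRing A'] (f : A →+* A') (g : A⟦X⟧) (hg : constantCoeff g = 1) :
    PowerSeries.map f (inv1 g) = inv1 (PowerSeries.map f g) := by
  symm
  apply fgs_inv1_unique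
  · rw [fgs_cc_map, hg, _root_.map_one]
  · rw [← _root_.map_mul, mul_inv1 hg, _root_.map_one]

private theorem fgs_map_neg {A' : Type*} [CommRing A'] (f : A →+* A') {b : A} (P : Gp b) :
    map f (neg P) = neg (map f P) := by
  have h1 : PowerSeries.map f (inv1 (1 + P.u + C b * P.v)) =
      inv1 (1 + (map f P).u + C (f b) * (map f P).v) := by
    rw [map_inv1 f _ (by simp [P.hu, P.hv])]
    simp only [map, _root_.map_add, _root_.map_mul, _root_.map_one, PowerSeries.map_C]
  ext1
  · change PowerSeries.map f (-P.u * inv1 (1 + P.u + C b * P.v)) = _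
    rw [_root_.map_mul, _root_.map_neg, h1]
    rfl
  · change PowerSeries.map f (-P.v * inv1 (1 + P.u + C b * P.v)) = _
    rw [_root_.map_mul, _root_.map_neg, h1]
    rfl

theorem map_add {A' : Type*} [CommRing A'] (f : A →+* A') {b : A} (P Q : Gp b) :
    map f (add P Q) = add (map f P) (map f Q) := by
  have h1 : map f (third P Q) = third (map f P) (map f Q) := by
    have h2 : PowerSeries.map f (lam P Q) = lam (map f P) (map f Q) := by
      unfold lam
      rw [_root_.map_mul, map_inv1 f _ (by simp [P.hu, P.hv, Q.hv])]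
      simp only [map, _root_.map_add, _root_.map_sub, _root_.map_mul, _root_.map_pow,
        _root_.map_one, PowerSeries.map_C]
    ext1
    · change PowerSeries.map f (lam P Q + C b * lam P Q ^ 2 - P.u - Q.u) = _
      simp only [_root_.map_add, _root_.map_sub, _root_.map_mul, _root_.map_pow,
        PowerSeries.map_C, h2]
      rfl
    · change PowerSeries.map f (lam P Q * (lam P Q + C b * lam P Q ^ 2 - P.u - Q.u - P.u) + P.v) = _
      simp only [_root_.map_add, _root_.map_sub, _root_.map_mul, _root_.map_pow,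
        PowerSeries.map_C, h2]
      rfl
  unfold add
  rw [← h1]
  exact fgs_map_neg f (third P Q)

theorem map_neg {A' : Type*} [CommRing A'] (f : A →+* A') {b : A} (P : Gp b) :
    map f (neg P) = neg (map f P) := by
  exact fgs_map_neg f P

theorem map_zsm {A' : Type*} [CommRing A'] (f : A →+* A') {b : A} (n : ℤ) (P : Gp b) :
    map f (zsm n P) = zsm n (map f P) := by
  have h0 : map f (zero b) = zero (f b) := by
    ext1
    · change PowerSeries.map f 0 = 0
      rw [_root_.map_zero]
    · change PowerSeries.map f 0 = 0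
      rw [_root_.map_zero]
  have h1 : ∀ k : ℕ, map f (nsm k P) = nsm k (map f P) := by
    intro k
    induction k with
    | zero => exact h0
    | succ k ih =>
      change map f (add (nsm k P) P) = add (nsm k (map f P)) (map f P)
      rw [map_add, ih]
  unfold zsm
  split_ifs
  · exact h1 _
  · rw [map_neg, h1]

theorem exists_V (b : A) : ∃ V : A⟦X⟧, constantCoeff V = 0 ∧ V + X * V + C b * V ^ 2 = X ^ 3 := by
  have h1 : (1 + X : A⟦X⟧) * inv1 (1 + X) = 1 := mul_inv1 (by simp)
  set i : A⟦X⟧ := inv1 (1 + X) with hi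
  set x : A⟦X⟧ := -(C b * X ^ 3 * i ^ 2) with hx
  have hx0 : constantCoeff x = 0 := by
    rw [hx]
    simp
  have hs : HasSubst x := HasSubst.of_constantCoeff_zero' hx0
  set Cat : A⟦X⟧ := PowerSeries.map (Nat.castRingHom A) catalanSeries with hCat
  have h2 : Cat ^ 2 * X + 1 = Cat := by
    have := congrArg (PowerSeries.map (Nat.castRingHom A)) catalanSeries_sq_mul_X_add_one
    rwa [_root_.map_add, _root_.map_mul, _root_.map_pow, PowerSeries.map_X, _root_.map_one] at this
  have h3 : (substAlgHom hs Cat) ^ 2 * x + 1 = substAlgHom hs Cat := by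
    have := congrArg (substAlgHom hs) h2
    rwa [_root_.map_add, _root_.map_mul, _root_.map_pow, substAlgHom_X, _root_.map_one] at this
  refine ⟨X ^ 3 * i * substAlgHom hs Cat, by simp, ?_⟩
  have h4 : ∀ c : A⟦X⟧, c ^ 2 * x + 1 = c →
      X ^ 3 * i * c + X * (X ^ 3 * i * c) + C b * (X ^ 3 * i * c) ^ 2 = X ^ 3 := by
    intro c hc
    rw [hx] at hc
    linear_combination (X ^ 3 * c) * h1 - X ^ 3 * hc
  exact h4 _ h3

theorem v_unique {b : A} {u v v' : A⟦X⟧} (hu : constantCoeff u = 0) (hv : constantCoeff v = 0)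
    (hv' : constantCoeff v' = 0) (h : v + u * v + C b * v ^ 2 = v' + u * v' + C b * v' ^ 2) :
    v = v' := by
  have h1 : (1 + u + C b * (v + v')) * inv1 (1 + u + C b * (v + v')) = 1 :=
    mul_inv1 (by simp [hu, hv, hv'])
  have h2 : (v - v') * (1 + u + C b * (v + v')) = 0 := by linear_combination h
  have h3 : v - v' = 0 := by
    calc v - v' = (v - v') * (1 + u + C b * (v + v')) * inv1 (1 + u + C b * (v + v')) := by
          rw [mul_assoc, h1, mul_one]
      _ = 0 := by rw [h2, zero_mul]
  exact sub_eq_zero.1 h3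

theorem u_inj {b : A} {P Q : Gp b} (h : P.u = Q.u) : P = Q := by
  refine Gp.ext h (v_unique (b := b) P.hu P.hv Q.hv ?_)
  have h1 := P.eq
  have h2 := Q.eq
  rw [← h] at h2
  rw [h1, h2]

/-- the series `V` with `V + t V + b V^2 = t^3` -/
noncomputable def genV (b : A) : A⟦X⟧ := Classical.choose (exists_V b)

theorem genV_spec (b : A) : constantCoeff (genV b) = 0 ∧
    genV b + X * genV b + C b * genV b ^ 2 = X ^ 3 := Classical.choose_spec (exists_V b)

theorem exists_gt (b : A) (m : ℕ) (hm : m ≠ 0) :
    ∃ P : Gp b, P.u = X ^ m ∧ P.v = expand m hm (genV b) := by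
  refine ⟨⟨X ^ m, expand m hm (genV b), by simp [hm], ?_, ?_⟩, rfl, rfl⟩
  · rw [constantCoeff_expand, (genV_spec b).1]
  · have := congrArg (expand m hm) (genV_spec b).2
    rw [_root_.map_add, _root_.map_add, _root_.map_mul, _root_.map_mul, _root_.map_pow,
      _root_.map_pow, expand_X, expand_C] at this
    exact this

/-- the point `(t^m, V(t^m))` -/
noncomputable def gt (b : A) (m : ℕ) (hm : m ≠ 0) : Gp b := Classical.choose (exists_gt b m hm)

theorem gt_spec (b : A) (m : ℕ) (hm : m ≠ 0) :
    (gt b m hm).u = X ^ m ∧ (gt b m hm).v = expand m hm (genV b) :=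
  Classical.choose_spec (exists_gt b m hm)

theorem map_gt {A' : Type*} [CommRing A'] (f : A →+* A') (b : A) (m : ℕ) (hm : m ≠ 0) :
    map f (gt b m hm) = gt (f b) m hm := by
  apply u_inj
  rw [(gt_spec (f b) m hm).1]
  change PowerSeries.map f (gt b m hm).u = X ^ m
  rw [(gt_spec b m hm).1, _root_.map_pow, PowerSeries.map_X]

/-- the series `1/(1 + t + 2 b V(t))` -/
noncomputable def LL (b : A) : A⟦X⟧ := inv1 (1 + X + 2 * C b * genV b)

theorem dlt_gt (b : A) (m : ℕ) (hm : m ≠ 0) :
    dlt (gt b m hm) = (m : A⟦X⟧) * X ^ (m - 1) * expand m hm (LL b) := by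
  have h1 : inv1 (1 + X ^ m + 2 * C b * expand m hm (genV b)) = expand m hm (LL b) := by
    have h2 : expand m hm (1 + X + 2 * C b * genV b) =
        1 + X ^ m + 2 * C b * expand m hm (genV b) := by
      simp only [_root_.map_add, _root_.map_mul, _root_.map_one, expand_X, expand_C, _root_.map_ofNat]
    rw [← h2]
    have h3 : constantCoeff (1 + X + 2 * C b * genV b) = 1 := by
      simp [(genV_spec b).1]
    apply fgs_inv1_unique
    · rw [constantCoeff_expand, h3]
    · unfold LL
      rw [← _root_.map_mul, mul_inv1 h3, _root_.map_one]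
  unfold dlt
  rw [(gt_spec b m hm).1, (gt_spec b m hm).2, h1, derivative_pow, derivative_X, mul_one]

theorem gt_frob (p : ℕ) [Fact p.Prime] [CharP A p] (n : ℕ) (b : A) (hb : b ^ (p ^ n) = b) :
    (gt b (p ^ n) (pow_ne_zero _ (Fact.out : p.Prime).ne_zero)).v = genV b ^ (p ^ n) := by
  have hp0 : p ^ n ≠ 0 := pow_ne_zero _ (Fact.out : p.Prime).ne_zero
  have hch : CharP A⟦X⟧ p := charP_of_injective_ringHom (C_injective (R := A)) p
  have hP := (gt b (p ^ n) hp0).eq
  rw [(gt_spec b (p ^ n) hp0).1] at hP
  refine v_unique (b := b) (u := X ^ (p ^ n))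
    (by rw [_root_.map_pow, constantCoeff_X, zero_pow hp0]) (gt b (p ^ n) hp0).hv ?_ ?_
  · rw [_root_.map_pow, (genV_spec b).1, zero_pow hp0]
  · rw [hP]
    have h1 : (genV b + X * genV b + C b * genV b ^ 2) ^ (p ^ n) = (X ^ 3) ^ (p ^ n) := by
      rw [(genV_spec b).2]
    rw [add_pow_char_pow, add_pow_char_pow, mul_pow, mul_pow, ← _root_.map_pow, hb] at h1
    rw [← pow_mul, mul_comm (p ^ n) 3, pow_mul, ← h1]
    ring

end SC15.FG
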