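import Mathlib
import Pool.Agent.SC15.B.FGSer

/-!
Module SC15-B-FGX (0.6 h): points congruent to zero mod `p` have a divisible differential.

`(u, v)` a point over `W` with `u = p w`. Claim: `p^(j+1)` divides the coefficient of `t^(p^j - 1)` in
`dlt P = D u / (1 + u + 2 b v)`.
Plan. `u` has constant coefficient 0, so `HasSubst u`. Substituting `X ↦ u` in the equation of `V` gives
a second solution `V(u)`, so `v = (genV b).subst u` (`v_unique`), and
`inv1 (1 + u + 2 b v) = (LL b).subst u`. Hence `dlt P = ∑_n l_n u^n D u`, `l_n = coeff n (LL b)`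
(`PowerSeries.coeff_subst'`: the coefficient of `X^e` of `(LL b).subst u` is the finite sum of
`l_n coeff e (u^n)`); since `u^n` has order `>= n`, only `n <= N` matter in the coefficient of `X^N`:
`coeff N (dlt P) = ∑_{n <= N} l_n coeff N (u^n D u)`.
For each `n`: `(n+1) u^n D u = D (u^(n+1))` (`derivative_pow`), so
`(n+1) coeff N (u^n D u) = (N+1) coeff (N+1) (u^(n+1)) = (N+1) p^(n+1) coeff (N+1) (w^(n+1))`.
With `N + 1 = p^j`, `n + 1 = p^e m`, `p ∤ m`: `m` is a unit of `W` (`L.unit`: `L.π m <> 0` because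
`L.ker` and a Bezout relation `m x = 1 - p y`), `W` has no `p`-torsion (`L.tf`), and
`e + 1 <= n + 1 = p^e m`, so `p^(j+n+1-e)`, hence `p^(j+1)`, divides `coeff N (u^n D u)`.
-/

namespace SC15.FG

open PowerSeries

private theorem cart_tf {p : ℕ} {W k : Type*} [CommRing W] [Field k] (L : SC15.Lift p W k)
    (e : ℕ) (z : W) (h : (p : W) ^ e * z = 0) : z = 0 := by
  induction e with
  | zero => simpa using h
  | succ e ih =>
    apply ih
    apply L.tf
    rw [← mul_assoc, ← pow_succ']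
    exact h

private theorem cart_unit {p : ℕ} [Fact p.Prime] {W k : Type*} [CommRing W] [Field k]
    (L : SC15.Lift p W k) (m : ℕ) (hm : ¬ p ∣ m) : IsUnit (m : W) := by
  apply L.unit
  intro h0
  have hp : L.π (p : W) = 0 := (L.ker _).2 dvd_rfl
  have hc : IsCoprime (m : ℤ) (p : ℤ) := by
    rw [Nat.isCoprime_iff_coprime]
    exact ((Fact.out : p.Prime).coprime_iff_not_dvd.2 hm).symm
  obtain ⟨x, y, hxy⟩ := hc
  have h1 := congrArg (fun z : ℤ => L.π ((z : ℤ) : W)) hxy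
  simp only [Int.cast_add, Int.cast_mul, Int.cast_natCast, Int.cast_one, _root_.map_add,
    _root_.map_mul, map_one] at h1
  rw [h0, hp] at h1
  simp at h1

private theorem cart_term {p : ℕ} [Fact p.Prime] {W k : Type*} [CommRing W] [Field k]
    (L : SC15.Lift p W k) (n j : ℕ) (x y : W)
    (h : ((n + 1 : ℕ) : W) * x = (p : W) ^ j * ((p : W) ^ (n + 1) * y)) :
    (p : W) ^ (j + 1) ∣ x := by
  obtain ⟨e, m, hm, hn⟩ := Nat.exists_eq_pow_mul_and_not_dvd (n := n + 1) (Nat.succ_ne_zero n) p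
    (Fact.out : p.Prime).ne_one
  have hm0 : 0 < m := Nat.pos_of_ne_zero fun h0 => hm (by rw [h0]; exact dvd_zero p)
  have he : e + 1 ≤ n + 1 := by
    have h1 : e < p ^ e := Nat.lt_pow_self (Fact.out : p.Prime).one_lt
    have h2 : p ^ e ≤ n + 1 := by
      rw [hn]
      exact Nat.le_mul_of_pos_right _ hm0
    omega
  obtain ⟨t, ht⟩ := Nat.exists_eq_add_of_le he
  obtain ⟨m', hm'⟩ := (cart_unit L m hm).exists_left_inv
  have h3 : (p : W) ^ e * ((m : W) * x - (p : W) ^ (j + 1) * ((p : W) ^ t * y)) = 0 := by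
    have h4 : ((n + 1 : ℕ) : W) = (p : W) ^ e * (m : W) := by
      rw [hn]
      push_cast
      ring
    rw [h4] at h
    have h5 : (p : W) ^ (n + 1) = (p : W) ^ e * (p : W) * (p : W) ^ t := by
      rw [ht]
      ring
    rw [h5] at h
    rw [pow_succ]
    linear_combination h
  have h6 := cart_tf L e _ h3
  rw [sub_eq_zero] at h6
  refine ⟨m' * ((p : W) ^ t * y), ?_⟩
  calc x = m' * m * x := by rw [hm', one_mul]
    _ = m' * ((m : W) * x) := by ring
    _ = _ := by rw [h6]; ring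

private theorem cart_coeff_zero_subst {W : Type*} [CommRing W] {u : W⟦X⟧}
    (hu : constantCoeff u = 0) (f : W⟦X⟧) (hf : constantCoeff f = 0) :
    constantCoeff (substAlgHom (R := W) (HasSubst.of_constantCoeff_zero' hu) f : W⟦X⟧) = 0 := by
  obtain ⟨g, hg⟩ := X_dvd_iff.2 hf
  have h1 : (substAlgHom (R := W) (HasSubst.of_constantCoeff_zero' hu) f : W⟦X⟧) =
      u * (substAlgHom (R := W) (HasSubst.of_constantCoeff_zero' hu) g : W⟦X⟧) := by
    rw [hg, _root_.map_mul, substAlgHom_X]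
  rw [h1]
  have h2 : constantCoeff (u * (substAlgHom (R := W) (HasSubst.of_constantCoeff_zero' hu) g : W⟦X⟧))
      = constantCoeff u * constantCoeff
        (substAlgHom (R := W) (HasSubst.of_constantCoeff_zero' hu) g : W⟦X⟧) := _root_.map_mul _ _ _
  rw [h2, hu, zero_mul]

private theorem cart_hom {W : Type*} [CommRing W] {b : W} (P : Gp b) :
    ∃ φ : W⟦X⟧ →+* W⟦X⟧, φ X = P.u ∧ (∀ r : W, φ (C r) = C r) ∧
      inv1 (1 + P.u + 2 * C b * P.v) = φ (LL b) := by
  let φ : W⟦X⟧ →+* W⟦X⟧ :=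
    ((substAlgHom (R := W) (HasSubst.of_constantCoeff_zero' P.hu) : W⟦X⟧ →ₐ[W] W⟦X⟧) :
      W⟦X⟧ →+* W⟦X⟧)
  have hX : φ X = P.u := substAlgHom_X (HasSubst.of_constantCoeff_zero' P.hu)
  have hC : ∀ r : W, φ (C r) = C r := fun r =>
    (substAlgHom (R := W) (HasSubst.of_constantCoeff_zero' P.hu) : W⟦X⟧ →ₐ[W] W⟦X⟧).commutes r
  refine ⟨φ, hX, hC, ?_⟩
  obtain ⟨hV, h2⟩ := genV_spec b
  have hV' : constantCoeff (φ (genV b)) = 0 := cart_coeff_zero_subst P.hu _ hV
  have h3 : φ (genV b) + P.u * φ (genV b) + C b * φ (genV b) ^ 2 = P.u ^ 3 := by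
    have h4 := congrArg φ h2
    simp only [_root_.map_add, _root_.map_mul, map_pow, hX, hC] at h4
    exact h4
  have h5 : P.v = φ (genV b) := v_unique P.hu P.hv hV' (P.eq.trans h3.symm)
  have h6 : (1 + X + 2 * C b * genV b) * LL b = 1 := by
    unfold LL
    exact mul_inv1 (by simp [hV])
  have h7 : (1 + P.u + 2 * C b * P.v) * φ (LL b) = 1 := by
    have h8 := congrArg φ h6
    simp only [_root_.map_add, _root_.map_mul, map_one, map_ofNat, hX, hC] at h8
    rw [h5]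
    exact h8
  have h9 : (1 + P.u + 2 * C b * P.v) * inv1 (1 + P.u + 2 * C b * P.v) = 1 :=
    mul_inv1 (by simp [P.hu, P.hv])
  calc inv1 (1 + P.u + 2 * C b * P.v) =
      ((1 + P.u + 2 * C b * P.v) * φ (LL b)) * inv1 (1 + P.u + 2 * C b * P.v) := by
        rw [h7, one_mul]
    _ = φ (LL b) * ((1 + P.u + 2 * C b * P.v) * inv1 (1 + P.u + 2 * C b * P.v)) := by ring
    _ = φ (LL b) := by rw [h9, mul_one]

private theorem cart_trunc {W : Type*} [CommRing W] (f : W⟦X⟧) (N : ℕ) :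
    ∃ G : W⟦X⟧, f = ∑ n ∈ Finset.range (N + 1), C (coeff n f) * X ^ n + X ^ (N + 1) * G := by
  have h : (X : W⟦X⟧) ^ (N + 1) ∣ f - ∑ n ∈ Finset.range (N + 1), C (coeff n f) * X ^ n := by
    rw [X_pow_dvd_iff]
    intro m hm
    rw [map_sub, map_sum, sub_eq_zero]
    rw [Finset.sum_eq_single m]
    · rw [coeff_C_mul, coeff_X_pow_self, mul_one]
    · intro n _ hn
      rw [coeff_C_mul, coeff_X_pow, if_neg (Ne.symm hn), mul_zero]
    · intro h
      exact absurd (Finset.mem_range.2 hm) h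
  obtain ⟨G, hG⟩ := h
  exact ⟨G, by rw [← hG]; ring⟩

theorem cartier {p : ℕ} [Fact p.Prime] {W k : Type*} [CommRing W] [Field k]
    (L : SC15.Lift p W k) {b : W} (P : Gp b) (hP : ∀ n, (p : W) ∣ coeff n P.u) (j : ℕ) :
    (p : W) ^ (j + 1) ∣ coeff (p ^ j - 1) (dlt P) := by
  obtain ⟨φ, hX, hC, hi⟩ := cart_hom P
  have hp0 : 0 < p ^ j := pow_pos (Fact.out : p.Prime).pos j
  obtain ⟨N, hN⟩ : ∃ N, p ^ j = N + 1 := ⟨p ^ j - 1, by omega⟩
  have hNN : p ^ j - 1 = N := by omega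
  rw [hNN]
  obtain ⟨G, hG⟩ := cart_trunc (LL b) N
  obtain ⟨w, hw⟩ : ∃ w : W⟦X⟧, P.u = C (p : W) * w := by
    choose c hc using hP
    refine ⟨PowerSeries.mk c, ?_⟩
    ext n
    rw [coeff_C_mul, coeff_mk, hc]
  obtain ⟨z, hz⟩ : (X : W⟦X⟧) ∣ P.u := X_dvd_iff.2 P.hu
  have h1 : dlt P = ∑ n ∈ Finset.range (N + 1), C (coeff n (LL b)) * (P.u ^ n * d⁄dX W P.u) +
      X ^ (N + 1) * (z ^ (N + 1) * φ G * d⁄dX W P.u) := by
    unfold dlt
    rw [hi]
    conv_lhs => rw [hG]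
    rw [_root_.map_add, map_sum, _root_.map_mul, map_pow, hX, mul_add, Finset.mul_sum]
    congr 1
    · refine Finset.sum_congr rfl fun n _ => ?_
      rw [_root_.map_mul, map_pow, hX, hC]
      ring
    · have h2 : P.u ^ (N + 1) = X ^ (N + 1) * z ^ (N + 1) := by
        rw [← mul_pow, ← hz]
      rw [h2]
      ring
  rw [h1, _root_.map_add, map_sum, coeff_X_pow_mul', if_neg (by omega), add_zero]
  refine Finset.dvd_sum fun n _ => ?_
  rw [coeff_C_mul]
  refine Dvd.dvd.mul_left ?_ _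
  apply cart_term L n j _ (coeff (N + 1) (w ^ (n + 1)))
  have h3 : d⁄dX W (P.u ^ (n + 1)) = (n + 1) • (P.u ^ n * d⁄dX W P.u) := by
    rw [Derivation.leibniz_pow, Nat.add_sub_cancel, smul_eq_mul]
  have h4 : coeff N (d⁄dX W (P.u ^ (n + 1))) =
      ((n + 1 : ℕ) : W) * coeff N (P.u ^ n * d⁄dX W P.u) := by
    rw [h3, map_nsmul, nsmul_eq_mul]
  rw [← h4, coeff_derivative, hw, mul_pow, ← map_pow, coeff_C_mul]
  have h5 : ((N : W) + 1) = (p : W) ^ j := by
    have h6 : ((p ^ j : ℕ) : W) = ((N + 1 : ℕ) : W) := by rw [hN]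
    push_cast at h6
    exact h6.symm
  rw [h5]
  ring

end SC15.FG
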