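import Mathlib
import Pool.Agent.SC15.B.FGSer

/-!
Module SC15-B-FGC (0.7 h): the coefficients of `1/(1 + t + 2 b V(t))`.

`(1 + t + 2 b V)^2 = (1+t)^2 + 4 b (V + t V + b V^2) = (1+t)^2 + 4 b t^3`.
Plan. Let `i = inv1 (1 + X)`, `x = - b X^3 i^2`, `S = ∑_j C(2j,j) x^j i`, i.e.
`S = (Z.subst x) * i` with `Z = ∑ C(2j,j) X^j`. One has `Z^2 (1 - 4 X) = 1` over ℤ (or over `A`), that is
`∑_{i+j=n} C(2i,i) C(2j,j) = 4^n`: search Mathlib (`Nat.centralBinom`, antidiagonal), or deduce it from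
`catalanSeries`: `C = 1 + X C^2` gives `(1 - 2 X C)^2 = 1 - 4 X`; and `Z (1 - 2 X C) = 1`:
`C(2n,n) = 2 ∑_{i+j=n-1} C(2i,i) Cat_j` is the coefficientwise statement; or by the differential
equation `(1 - 4X) Z' = 2 Z` (from `Nat.succ_mul_centralBinom_succ`), which gives
`((1 - 4X) Z^2)' = 0` over ℚ or ℤ.
So `S^2 ((1+X)^2 + 4 b X^3) = 1`, and also `LL b ^2 ((1+X)^2 + 4 b X^3) = 1`, constant
coefficients are 1, so `(S - LL)(S + LL) = 0`, `S + LL <> 0` (constant coefficient `2`), `A⟦X⟧` is a domain: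
`LL b = S`.
Coefficients of `S`: `X^(3j) i^(2j+1)` has coefficient `(-1)^(n-3j) C(n-3j+2j, 2j) = (-1)^(n-j) C(n-j,2j)`
at `X^n` for `n >= 3j` and `0` otherwise (Mathlib: `PowerSeries.invOneSubPow`, `mk_choose_...`, binomial
series), and `C(n-j, 2j) = 0` for `j <= n < 3j`. So the coefficient of `S` at `X^n` is
`∑_j C(2j,j) (-b)^j (-1)^(n-j) C(n-j,2j) = (-1)^n ∑_{j <= n} C(2j,j) C(n-j,2j) b^j = (-1)^n c (n+1) b`.
(Only the case of a domain of characteristic zero is needed; another proof is equally fine, e.g.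
prove `S^2 (..) = 1` coefficientwise in `b`.)
-/

namespace SC15.FG

open PowerSeries

private theorem num_id (t i : ℕ) :
    (t + i + 3) * ((i + 1).centralBinom * (t + 2).choose (2 * (i + 1))) +
      (t + i + 2) * ((i + 1).centralBinom * t.choose (2 * (i + 1))) =
    (2 * (t + i) + 5) * ((i + 1).centralBinom * (t + 1).choose (2 * (i + 1))) +
      (4 * (t + i) + 6) * (i.centralBinom * t.choose (2 * i)) := by
  have e : 2 * (i + 1) = 2 * i + 1 + 1 := by ring
  rw [e]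
  have h1 : (t + 1).choose (2 * i + 1 + 1) = t.choose (2 * i + 1) + t.choose (2 * i + 1 + 1) :=
    Nat.choose_succ_succ t (2 * i + 1)
  have h2 : (t + 1).choose (2 * i + 1) = t.choose (2 * i) + t.choose (2 * i + 1) :=
    Nat.choose_succ_succ t (2 * i)
  have h3 : (t + 2).choose (2 * i + 1 + 1) =
      (t + 1).choose (2 * i + 1) + (t + 1).choose (2 * i + 1 + 1) :=
    Nat.choose_succ_succ (t + 1) (2 * i + 1)
  have h4 : (t.choose (2 * i + 1) : ℤ) * (2 * i + 1) = t.choose (2 * i) * ((t : ℤ) - 2 * i) := by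
    have h5 : t.choose (2 * i + 1) * (2 * i + 1) = t.choose (2 * i) * (t - 2 * i) :=
      Nat.choose_succ_right_eq t (2 * i)
    rcases le_or_gt (2 * i) t with h | h
    · have h6 : (t.choose (2 * i + 1) : ℤ) * ((2 * i + 1 : ℕ) : ℤ) =
          t.choose (2 * i) * ((t - 2 * i : ℕ) : ℤ) := by exact_mod_cast h5
      rw [Nat.cast_sub h] at h6
      push_cast at h6
      exact h6
    · rw [Nat.choose_eq_zero_of_lt h, Nat.choose_eq_zero_of_lt (by omega : t < 2 * i + 1)]
      simp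
  have h5 : ((i : ℤ) + 1) * ((i + 1).centralBinom : ℤ) = 2 * (2 * i + 1) * (i.centralBinom : ℤ) := by
    exact_mod_cast Nat.succ_mul_centralBinom_succ i
  rw [h3, h2, h1]
  have key : ((2 * (i : ℤ) + 1) * ((i : ℤ) + 1)) *
      (((t : ℤ) + i + 3) * ((i + 1).centralBinom * (t.choose (2 * i) + t.choose (2 * i + 1) +
          (t.choose (2 * i + 1) + t.choose (2 * i + 1 + 1)))) +
        ((t : ℤ) + i + 2) * ((i + 1).centralBinom * t.choose (2 * i + 1 + 1))) =
      ((2 * (i : ℤ) + 1) * ((i : ℤ) + 1)) *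
      ((2 * ((t : ℤ) + i) + 5) * ((i + 1).centralBinom *
          (t.choose (2 * i + 1) + t.choose (2 * i + 1 + 1))) +
        (4 * ((t : ℤ) + i) + 6) * (i.centralBinom * t.choose (2 * i))) := by
    linear_combination ((2 * (i : ℤ) + 1) * (((t : ℤ) + i + 3) * t.choose (2 * i) +
      t.choose (2 * i + 1))) * h5 + (2 * (2 * (i : ℤ) + 1) * i.centralBinom) * h4
  have hne : ((2 * (i : ℤ) + 1) * ((i : ℤ) + 1)) ≠ 0 := by positivity
  have h6 := mul_left_cancel₀ hne key
  exact_mod_cast h6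

private theorem cc_rec (m i : ℕ) : (m + 3) * SC15.cc (m + 4) (i + 1) +
    (m + 2) * SC15.cc (m + 2) (i + 1) = (2 * m + 5) * SC15.cc (m + 3) (i + 1) +
      (4 * m + 6) * SC15.cc (m + 1) i := by
  unfold SC15.cc
  rcases le_or_gt i m with h | h
  · obtain ⟨t, rfl⟩ := Nat.exists_eq_add_of_le' h
    have e1 : t + i + 4 - 1 - (i + 1) = t + 2 := by omega
    have e2 : t + i + 2 - 1 - (i + 1) = t := by omega
    have e3 : t + i + 3 - 1 - (i + 1) = t + 1 := by omega
    have e4 : t + i + 1 - 1 - i = t := by omega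
    rw [e1, e2, e3, e4]
    exact num_id t i
  · rw [Nat.choose_eq_zero_of_lt (by omega : m + 4 - 1 - (i + 1) < 2 * (i + 1)),
      Nat.choose_eq_zero_of_lt (by omega : m + 2 - 1 - (i + 1) < 2 * (i + 1)),
      Nat.choose_eq_zero_of_lt (by omega : m + 3 - 1 - (i + 1) < 2 * (i + 1)),
      Nat.choose_eq_zero_of_lt (by omega : m + 1 - 1 - i < 2 * i)]
    simp

private theorem c_ext {A : Type*} [CommRing A] (b : A) {N M : ℕ} (h0 : N ≠ 0) (h : N ≤ M) :
    SC15.c N b = ∑ i ∈ Finset.range M, (SC15.cc N i : A) * b ^ i := by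
  unfold SC15.c
  refine Finset.sum_subset (Finset.range_mono h) fun i _ hi => ?_
  rw [Finset.mem_range, not_lt] at hi
  unfold SC15.cc
  rw [Nat.choose_eq_zero_of_lt (by omega : N - 1 - i < 2 * i)]
  simp

private theorem c_rec {A : Type*} [CommRing A] (b : A) (m : ℕ) :
    ((m : A) + 3) * SC15.c (m + 4) b + ((m : A) + 2) * SC15.c (m + 2) b =
      (2 * (m : A) + 5) * SC15.c (m + 3) b + (4 * (m : A) + 6) * (b * SC15.c (m + 1) b) := by
  have hs : ∀ N : ℕ, N ≠ 0 → N ≤ m + 4 → SC15.c N b =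
      ∑ i ∈ Finset.range (m + 3), ((SC15.cc N (i + 1) : A) * b ^ (i + 1)) + 1 := by
    intro N h0 hN
    rw [c_ext b h0 hN, Finset.sum_range_succ']
    congr 1
    unfold SC15.cc
    simp
  have hb : b * SC15.c (m + 1) b =
      ∑ i ∈ Finset.range (m + 3), ((SC15.cc (m + 1) i : A) * b ^ (i + 1)) := by
    rw [c_ext b (by omega) (by omega : m + 1 ≤ m + 3), Finset.mul_sum]
    exact Finset.sum_congr rfl fun i _ => by ring
  rw [hs (m + 4) (by omega) le_rfl, hs (m + 2) (by omega) (by omega),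
    hs (m + 3) (by omega) (by omega), hb]
  have key : ((m : A) + 3) * ∑ i ∈ Finset.range (m + 3),
        ((SC15.cc (m + 4) (i + 1) : A) * b ^ (i + 1)) +
      ((m : A) + 2) * ∑ i ∈ Finset.range (m + 3),
        ((SC15.cc (m + 2) (i + 1) : A) * b ^ (i + 1)) =
      (2 * (m : A) + 5) * ∑ i ∈ Finset.range (m + 3),
        ((SC15.cc (m + 3) (i + 1) : A) * b ^ (i + 1)) +
      (4 * (m : A) + 6) * ∑ i ∈ Finset.range (m + 3),
        ((SC15.cc (m + 1) i : A) * b ^ (i + 1)) := by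
    rw [Finset.mul_sum, Finset.mul_sum, Finset.mul_sum, Finset.mul_sum,
      ← Finset.sum_add_distrib, ← Finset.sum_add_distrib]
    refine Finset.sum_congr rfl fun i _ => ?_
    have h1 : ((m : A) + 3) * (SC15.cc (m + 4) (i + 1) : A) +
        ((m : A) + 2) * (SC15.cc (m + 2) (i + 1) : A) =
        (2 * (m : A) + 5) * (SC15.cc (m + 3) (i + 1) : A) +
          (4 * (m : A) + 6) * (SC15.cc (m + 1) i : A) := by
      exact_mod_cast congrArg (Nat.cast : ℕ → A) (cc_rec m i)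
    linear_combination b ^ (i + 1) * h1
  linear_combination key

private theorem LL_sq {A : Type*} [CommRing A] (b : A) :
    LL b ^ 2 * ((1 + X) ^ 2 + 4 * C b * X ^ 3) = 1 := by
  obtain ⟨hV, h2⟩ := genV_spec b
  have h1 : (1 + X + 2 * C b * genV b) * LL b = 1 := by
    unfold LL
    exact mul_inv1 (by simp [hV])
  linear_combination ((1 + X + 2 * C b * genV b) * LL b + 1) * h1 - 4 * C b * LL b ^ 2 * h2

private theorem coeff_euler {A : Type*} [CommRing A] (f : A⟦X⟧) (n : ℕ) :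
    coeff n (X * d⁄dX A f) = n * coeff n f := by
  cases n with
  | zero => rw [coeff_zero_X_mul]; simp
  | succ n =>
    rw [coeff_succ_X_mul, coeff_derivative]
    push_cast
    ring

private theorem ode {A : Type*} [CommRing A] (b : A) :
    ((1 + X) ^ 2 + 4 * C b * X ^ 3) * (X * d⁄dX A (LL b)) * 2 +
      X * (2 + 2 * X + 12 * C b * X ^ 2) * LL b = 0 := by
  have h0 := LL_sq b
  have h1 := congrArg (d⁄dX A) h0
  have hP : d⁄dX A ((1 + X) ^ 2 + 4 * C b * X ^ 3 : A⟦X⟧) = 2 + 2 * X + 12 * C b * X ^ 2 := by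
    have e : ((1 + X) ^ 2 + 4 * C b * X ^ 3 : A⟦X⟧) = 1 + (X + X) + X * X +
        C (4 * b) * (X * (X * X)) := by
      rw [_root_.map_mul, map_ofNat]
      ring
    rw [e, _root_.map_add, _root_.map_add, _root_.map_add, _root_.map_add, Derivation.leibniz, Derivation.leibniz,
      Derivation.leibniz, Derivation.leibniz, derivative_X, derivative_C]
    have h4 : (C (4 * b) : A⟦X⟧) = 4 * C b := by
      rw [_root_.map_mul, map_ofNat]
    have h5 : d⁄dX A (1 : A⟦X⟧) = 0 := Derivation.map_one_eq_zero _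
    rw [h4, h5]
    simp only [smul_eq_mul]
    ring
  rw [Derivation.leibniz, hP, sq (LL b), Derivation.leibniz] at h1
  have h5 : d⁄dX A (1 : A⟦X⟧) = 0 := Derivation.map_one_eq_zero _
  rw [h5] at h1
  simp only [smul_eq_mul] at h1
  linear_combination (X * LL b * ((1 + X) ^ 2 + 4 * C b * X ^ 3)) * h1 -
    (X * (2 + 2 * X + 12 * C b * X ^ 2) * LL b +
      2 * ((1 + X) ^ 2 + 4 * C b * X ^ 3) * (X * d⁄dX A (LL b))) * h0

private theorem ode2 {A : Type*} [CommRing A] [IsDomain A] [CharZero A] (b : A) (n : ℕ) :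
    coeff n (X * d⁄dX A (LL b) + 2 * (X * (X * d⁄dX A (LL b))) + X ^ 2 * (X * d⁄dX A (LL b)) +
      C (4 * b) * (X ^ 3 * (X * d⁄dX A (LL b))) + X * LL b + X ^ 2 * LL b +
        C (6 * b) * (X ^ 3 * LL b)) = 0 := by
  have h := congrArg (coeff n) (ode b)
  have e : ((1 + X) ^ 2 + 4 * C b * X ^ 3) * (X * d⁄dX A (LL b)) * 2 +
      X * (2 + 2 * X + 12 * C b * X ^ 2) * LL b =
      C (2 : A) * (X * d⁄dX A (LL b) + 2 * (X * (X * d⁄dX A (LL b))) +
        X ^ 2 * (X * d⁄dX A (LL b)) +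
      C (4 * b) * (X ^ 3 * (X * d⁄dX A (LL b))) + X * LL b + X ^ 2 * LL b +
        C (6 * b) * (X ^ 3 * LL b)) := by
    have h2 : (C (2 : A) : A⟦X⟧) = 2 := map_ofNat C 2
    have h4 : (C (4 * b) : A⟦X⟧) = 4 * C b := by
      rw [_root_.map_mul, map_ofNat]
    have h6 : (C (6 * b) : A⟦X⟧) = 6 * C b := by
      rw [_root_.map_mul, map_ofNat]
    rw [h2, h4, h6]
    ring
  rw [e, coeff_C_mul, map_zero] at h
  exact (mul_eq_zero.1 h).resolve_left two_ne_zero

private theorem coeff_rec {A : Type*} [CommRing A] [IsDomain A] [CharZero A] (b : A) (m : ℕ) :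
    ((m : A) + 3) * coeff (m + 3) (LL b) + (2 * (m : A) + 5) * coeff (m + 2) (LL b) +
      ((m : A) + 2) * coeff (m + 1) (LL b) + (4 * (m : A) + 6) * (b * coeff m (LL b)) = 0 := by
  have h := ode2 b (m + 3)
  have h2 : ∀ f : A⟦X⟧, (2 : A⟦X⟧) * f = f + f := fun f => by ring
  have e1 : ∀ f : A⟦X⟧, coeff (m + 3) (X * f) = coeff (m + 2) f := fun f =>
    coeff_succ_X_mul (m + 2) f
  have e2 : ∀ f : A⟦X⟧, coeff (m + 3) (X ^ 2 * f) = coeff (m + 1) f := fun f =>
    coeff_X_pow_mul f 2 (m + 1)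
  have e3 : ∀ f : A⟦X⟧, coeff (m + 3) (X ^ 3 * f) = coeff m f := fun f =>
    coeff_X_pow_mul f 3 m
  have e4 : ∀ k : ℕ, coeff k (X * d⁄dX A (LL b)) = k * coeff k (LL b) := coeff_euler (LL b)
  rw [h2] at h
  simp only [_root_.map_add, coeff_C_mul] at h
  rw [e1 (X * d⁄dX A (LL b)), e2 (X * d⁄dX A (LL b)), e3 (X * d⁄dX A (LL b)), e1 (LL b),
    e2 (LL b), e3 (LL b), e4, e4, e4, e4] at h
  push_cast at h
  linear_combination h

private theorem coeff_base {A : Type*} [CommRing A] [IsDomain A] [CharZero A] (b : A) :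
    coeff 0 (LL b) = 1 ∧ coeff 1 (LL b) = -1 ∧ coeff 2 (LL b) = 1 := by
  have h0 : coeff 0 (LL b) = 1 := by
    rw [coeff_zero_eq_constantCoeff_apply]
    unfold LL
    exact constantCoeff_inv1 _
  have h2 : ∀ f : A⟦X⟧, (2 : A⟦X⟧) * f = f + f := fun f => by ring
  have e4 : ∀ k : ℕ, coeff k (X * d⁄dX A (LL b)) = k * coeff k (LL b) := coeff_euler (LL b)
  have h1 : coeff 1 (LL b) = -1 := by
    have h := ode2 b 1
    have e1 : ∀ f : A⟦X⟧, coeff 1 (X * f) = coeff 0 f := fun f => coeff_succ_X_mul 0 f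
    have e2 : ∀ f : A⟦X⟧, coeff 1 (X ^ 2 * f) = 0 := fun f => by
      rw [coeff_X_pow_mul', if_neg (by omega)]
    have e3 : ∀ f : A⟦X⟧, coeff 1 (X ^ 3 * f) = 0 := fun f => by
      rw [coeff_X_pow_mul', if_neg (by omega)]
    rw [h2] at h
    simp only [_root_.map_add, coeff_C_mul] at h
    rw [e4 1, e1 (X * d⁄dX A (LL b)), e2 (X * d⁄dX A (LL b)), e3 (X * d⁄dX A (LL b)),
      e1 (LL b), e2 (LL b), e3 (LL b), e4 0, h0] at h
    push_cast at h
    linear_combination h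
  refine ⟨h0, h1, ?_⟩
  have h := ode2 b 2
  have e1 : ∀ f : A⟦X⟧, coeff 2 (X * f) = coeff 1 f := fun f => coeff_succ_X_mul 1 f
  have e2 : ∀ f : A⟦X⟧, coeff 2 (X ^ 2 * f) = coeff 0 f := fun f => coeff_X_pow_mul f 2 0
  have e3 : ∀ f : A⟦X⟧, coeff 2 (X ^ 3 * f) = 0 := fun f => by
    rw [coeff_X_pow_mul', if_neg (by omega)]
  rw [h2] at h
  simp only [_root_.map_add, coeff_C_mul] at h
  rw [e4 2, e1 (X * d⁄dX A (LL b)), e2 (X * d⁄dX A (LL b)), e3 (X * d⁄dX A (LL b)),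
    e1 (LL b), e2 (LL b), e3 (LL b), e4 0, e4 1, h0, h1] at h
  push_cast at h
  have h3 : (2 : A) * coeff 2 (LL b) = 2 * 1 := by linear_combination h
  exact mul_left_cancel₀ two_ne_zero h3

theorem coeff_LL {A : Type*} [CommRing A] [IsDomain A] [CharZero A] (b : A) (n : ℕ) :
    coeff n (LL b) = (-1) ^ n * SC15.c (n + 1) b := by
  obtain ⟨h0, h1, h2⟩ := coeff_base b
  induction n using Nat.strong_induction_on with
  | _ n ih =>
    rcases n with _ | _ | _ | m
    · rw [h0]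
      simp [SC15.c, SC15.cc]
    · rw [h1]
      simp [SC15.c, SC15.cc, Finset.sum_range_succ]
    · rw [h2]
      simp [SC15.c, SC15.cc, Finset.sum_range_succ]
    · have i0 := ih m (by omega)
      have i1 := ih (m + 1) (by omega)
      have i2 := ih (m + 2) (by omega)
      have hr := coeff_rec b m
      have hc := c_rec b m
      rw [i0, i1, i2] at hr
      have hne : (m : A) + 3 ≠ 0 := by
        have : ((m + 3 : ℕ) : A) ≠ 0 := Nat.cast_ne_zero.2 (by omega)
        push_cast at this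
        exact this
      apply mul_left_cancel₀ hne
      have e1 : m + 1 + 1 = m + 2 := rfl
      have e2 : m + 2 + 1 = m + 3 := rfl
      have e3 : m + 1 + 1 + 1 + 1 = m + 4 := rfl
      have e4 : m + 1 + 1 + 1 = m + 3 := rfl
      rw [e1, e2] at hr
      rw [e3, e4]
      linear_combination hr + (-1) ^ m * hc

end SC15.FG
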