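import Mathlib
import Pool.Agent.SC15.B.FGDefs

/-!
Module SC15-B-FGD (0.5 h): the invariant differential is additive on points of the formal curve.

For a point `P = (u, v)` put `f = 1 + u + 2 b v` (a unit), `dl = dlt P`, so `D u = dl f`, and
differentiating the equation, `D v f = D u (3 u^2 - v) = dl f (3u^2 - v)`, so `D v = dl (3u^2 - v)`.
(1) `dlt (neg P) = - dlt P`: with `S = 1 + u + b v`, `u' = -u/S`, `v' = -v/S`:
 `1 + u' + 2 b v' = (1 - b v)/S`, `D u' = -(D u (1 + b v) - u b D v)/S^2` and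
 `(1 + b v)(1+u+2bv) - u b (3u^2 - v) = (1 - b v) S` (use the equation).
(2) `third P1 P2 = P3`, slope `l` (`lam_spec`, `lam_chord`), `u3 = l + b l^2 - u1 - u2`. Claim
 `D l = dl1 (u1 - u3) + dl2 (u2 - u3)`: multiply by the unit `M = 1 + u1 + b (v1 + v2)`, using
 `l M = N`, `N = u1^2+u1u2+u2^2 - v2`, `M D l = D N - l D M`; the coefficient of `dl1`:
 `(2u1+u2-l)(1+u1+2bv1) - l b (3u1^2 - v1) - M (2u1+u2-l-b l^2)
   = b l [ (2u1+u2-l)(u1-u2) - 3u1^2 + v1 + u1^2+u1u2+u2^2 - v2 ] = b l [ (v1-v2) - l (u1-u2) ] = 0`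
 (used `v1 - v2 = l (u1 - u2)` and `l M = N`); the coefficient of `dl2` is similar
 (or use that `lam` is symmetric).
(3) `D u3 = (1 + 2 b l) D l - D u1 - D u2 = - (dl1 + dl2)(1 + u3 + 2 b v3)`, because
 `v3 - v_i = l (u3 - u_i)`, i.e. `(1+2bl)(u_i - u3) - (1+u_i+2bv_i) = -(1+u3+2bv3)`.
 So `dlt (third P1 P2) = - dlt P1 - dlt P2`, and `dlt (add P1 P2) = dlt P1 + dlt P2`.
Units: `mul_inv1`; cancel units with `IsUnit.mul_left_cancel` or multiply by `inv1`.
(4) multiples by induction.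
-/

namespace SC15.FG

open PowerSeries

variable {A : Type*} [CommRing A]

private theorem FGD_cancel {f x y : A⟦X⟧} (hf : constantCoeff f = 1) (h : x * f = y * f) :
    x = y := by
  have h1 := mul_inv1 hf
  calc x = x * f * inv1 f := by rw [mul_assoc, h1, mul_one]
    _ = y * f * inv1 f := by rw [h]
    _ = y := by rw [mul_assoc, h1, mul_one]

private theorem FGD_cc {b : A} (P : Gp b) : constantCoeff (1 + P.u + 2 * C b * P.v) = 1 := by
  simp [P.hu, P.hv]

private theorem FGD_du {b : A} (P : Gp b) :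
    d⁄dX A P.u = dlt P * (1 + P.u + 2 * C b * P.v) := by
  unfold dlt
  have h := mul_inv1 (FGD_cc P)
  linear_combination (-(d⁄dX A P.u)) * h

private theorem FGD_dC (b : A) : d⁄dX A (C b : A⟦X⟧) = 0 := derivative_C

private theorem FGD_dv {b : A} (P : Gp b) :
    d⁄dX A P.v = dlt P * (3 * P.u ^ 2 - P.v) := by
  apply FGD_cancel (FGD_cc P)
  have h := congrArg (d⁄dX A) P.eq
  simp only [map_add, Derivation.leibniz, Derivation.leibniz_pow, smul_eq_mul, FGD_dC,
    nsmul_eq_mul] at h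
  push_cast at h
  have h1 := FGD_du P
  rw [h1] at h
  linear_combination h

theorem dlt_neg {b : A} (P : Gp b) : dlt (neg P) = - dlt P := by
  apply FGD_cancel (FGD_cc (neg P))
  rw [← FGD_du]
  have h : (1 + P.u + C b * P.v) * inv1 (1 + P.u + C b * P.v) = 1 :=
    mul_inv1 (by simp [P.hu, P.hv])
  have hd := congrArg (d⁄dX A) h
  have h1 : d⁄dX A (1 : A⟦X⟧) = 0 := Derivation.map_one_eq_zero _
  simp only [map_add, Derivation.leibniz, smul_eq_mul, FGD_dC, h1] at hd
  have e1 := FGD_du P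
  have e2 := FGD_dv P
  have e3 := P.eq
  rw [e1, e2] at hd
  show d⁄dX A (- P.u * inv1 (1 + P.u + C b * P.v)) = - dlt P *
    (1 + - P.u * inv1 (1 + P.u + C b * P.v) + 2 * C b * (- P.v * inv1 (1 + P.u + C b * P.v)))
  simp only [Derivation.leibniz, smul_eq_mul, map_neg]
  rw [e1]
  set i := inv1 (1 + P.u + C b * P.v)
  set Di := d⁄dX A i
  set dl := dlt P
  have hDi : Di = - i ^ 2 * (dl * (1 + P.u + 2 * C b * P.v) + C b * (dl * (3 * P.u ^ 2 - P.v))) := by
    linear_combination i * hd - Di * h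
  rw [hDi]
  linear_combination (-(3 * C b * i ^ 2 * dl)) * e3 -
    dl * (-(1 + P.u + 2 * C b * P.v) * i + 1 + (1 + P.u + C b * P.v) * i - (P.u + 2 * C b * P.v) * i) * h

private theorem FGD_dlam {b : A} (P Q : Gp b) :
    d⁄dX A (lam P Q) = dlt P * (P.u - (third P Q).u) + dlt Q * (Q.u - (third P Q).u) := by
  have hM : constantCoeff (1 + P.u + C b * (P.v + Q.v)) = 1 := by simp [P.hu, P.hv, Q.hv]
  apply FGD_cancel hM
  have h := congrArg (d⁄dX A) (lam_spec P Q)
  have h1 : d⁄dX A (1 : A⟦X⟧) = 0 := Derivation.map_one_eq_zero _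
  simp only [map_add, map_sub, Derivation.leibniz, Derivation.leibniz_pow, smul_eq_mul, FGD_dC,
    nsmul_eq_mul, h1] at h
  push_cast at h
  rw [FGD_du P, FGD_du Q, FGD_dv P, FGD_dv Q] at h
  have hs := lam_spec P Q
  have hc := lam_chord P Q
  show d⁄dX A (lam P Q) * (1 + P.u + C b * (P.v + Q.v)) =
    (dlt P * (P.u - (lam P Q + C b * lam P Q ^ 2 - P.u - Q.u)) +
      dlt Q * (Q.u - (lam P Q + C b * lam P Q ^ 2 - P.u - Q.u))) * (1 + P.u + C b * (P.v + Q.v))
  set l := lam P Q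
  set u1 := P.u
  set u2 := Q.u
  set v1 := P.v
  set v2 := Q.v
  set d1 := dlt P
  set d2 := dlt Q
  linear_combination h + d1 * C b * ((2 * u1 + u2 - l) + l) * hc + d1 * C b * l * hs +
    d2 * (1 + C b * l) * hs - d2 * (u1 + 2 * u2) * C b * hc

private theorem FGD_third {b : A} (P Q : Gp b) : dlt (third P Q) = - dlt P - dlt Q := by
  apply FGD_cancel (FGD_cc (third P Q))
  rw [← FGD_du]
  have hu : (third P Q).u = lam P Q + C b * lam P Q ^ 2 - P.u - Q.u := rfl
  have hv : (third P Q).v = lam P Q * ((third P Q).u - P.u) + P.v := rfl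
  have hl := FGD_dlam P Q
  have hc := lam_chord P Q
  have h := congrArg (d⁄dX A) hu
  simp only [map_add, map_sub, Derivation.leibniz, Derivation.leibniz_pow, smul_eq_mul, FGD_dC,
    nsmul_eq_mul] at h
  push_cast at h
  rw [FGD_du P, FGD_du Q, hl] at h
  rw [h, hv]
  linear_combination (2 * C b * dlt Q) * hc

theorem dlt_add {b : A} (P Q : Gp b) : dlt (add P Q) = dlt P + dlt Q := by
  unfold add
  rw [dlt_neg, FGD_third]
  ring

private theorem FGD_zero (b : A) : dlt (zero b) = 0 := by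
  unfold dlt zero
  simp

private theorem FGD_nsm {b : A} (n : ℕ) (P : Gp b) : dlt (nsm n P) = (n : A⟦X⟧) * dlt P := by
  induction n with
  | zero =>
    show dlt (zero b) = _
    rw [FGD_zero]; simp
  | succ n ih =>
    show dlt (add (nsm n P) P) = _
    rw [dlt_add, ih]
    push_cast
    ring

theorem dlt_zsm {b : A} (n : ℤ) (P : Gp b) : dlt (zsm n P) = (n : A⟦X⟧) * dlt P := by
  unfold zsm
  split_ifs with h
  · rw [FGD_nsm]
    congr 1
    have h1 : ((n.toNat : ℤ) : A⟦X⟧) = (n : A⟦X⟧) := by rw [Int.toNat_of_nonneg h]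
    rw [← h1]
    push_cast
    rfl
  · rw [dlt_neg, FGD_nsm]
    have h1 : (((-n).toNat : ℤ) : A⟦X⟧) = ((-n : ℤ) : A⟦X⟧) := by
      rw [Int.toNat_of_nonneg (by omega)]
    have h2 : (((-n).toNat : ℕ) : A⟦X⟧) = - (n : A⟦X⟧) := by
      rw [← Int.cast_natCast, h1]
      push_cast
      rfl
    rw [h2]
    ring

end SC15.FG
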