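import Mathlib
import Pool.Agent.SC15.B.FGSer
import Pool.Agent.SC15.B.Core

/-!
Module SC15-B-FGP (1 h): the homomorphism from the formal points to `E_b(k((t)))`.

`Phi (u, v) = (u/v, 1/v)` for `v <> 0` and `0` for `v = 0` (then `u^3 = 0`, `u = 0`).
Plan.
 * equation: `v + u v + b v^2 = u^3` divided by `v^3`.
 * `phi_neg`: `(x, -y - x - b)` with `x = u/v`, `y = 1/v`: `-y-x-b = -(1 + u + b v)/v`.
 * `phi_add`: let `P_i = (u_i, v_i)`, `l = lam P1 P2`, `n = v1 - l u1`, `P3 = third P1 P2`; the three points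
 satisfy `v_i = l u_i + n`, and the cubic `u^3 - (l u + n) - u (l u + n) - b (l u + n)^2` is
 `(u - u1)(u - u2)(u - u3)` (see `third` in FGDefs: Newton form). Show
 `Phi P1 + Phi P2 + Phi P3 = 0`, i.e. `Phi P1 + Phi P2 = - Phi P3 = Phi (neg P3)`.
 Cases. `v1 = 0` or `v2 = 0`: then `P_i = zero`, `add P zero = P` (check: `lam P zero`: for `P2 = 0`,
 `l (1 + u1 + b v1) = u1^2`, and `v1 (1 + u1 + b v1) = u1^3`, so `v1 = l u1`, `n = 0`, the cubic is
 `u (u - u1)(u - u3)`, where `third P zero = neg P`; or verify `add P zero = P` by computation).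
 Now `v1, v2 <> 0`, `x_i = u_i/v_i`, `y_i = 1/v_i`; the line `v = l u + n` is `1 = l x + n y`.
 If `x1 <> x2`: if `n = 0`: `l x_i = 1` for `i = 1, 2` contradicts `x1 <> x2`. So `n <> 0`, the slope in
 the `(x,y)`-plane is `-l/n`, the third intersection has `(x3, y3)` with `1 = l x3 + n y3`; `v3 <> 0`
 because otherwise `P3 = 0` would lie on the line, `n = 0`. Compare `x3` with
 `addX = (l/n)^2 - l/n - x1 - x2` (`field_simp`, use the symmetric functions of `u1,u2,u3`).
 If `x1 = x2`, `y1 = negY x2 y2`: the sum is `0`; `Phi P2 = - Phi P1`, so `P2 = neg P1` (injectivity) and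
 `add P (neg P) = zero` (computation: `v3 = u3 = 0`).
 If `x1 = x2`, `y1 = y2`: `P1 = P2`, doubling: `l = (3u1^2 - v1)/(1+u1+2bv1)`, slope
 `(3x^2 - y)/(2y + x + b)`; same comparison. `n = 0` iff `2 P1 = 0`-type degenerate case iff
 `2 y + x + b = 0`: note `2y + x + b = (2 + u1 + b v1)/v1` is not `0` in odd characteristic, and `n <> 0`:
 if `n = 0` then `v1 = l u1` and the cubic `u (..)` has the root 0, `third P1 P1 = 0`...
 `P1 = neg P1` gives `u1 (2 + u1 + b v1) = 0`, `u1 = 0`.
 * `phi_inj`: clear.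
The Laurent series field is `LaurentSeries k` with `algebraMap k⟦X⟧ (LaurentSeries k)` injective;
work in a general field `K` with an injective ring hom `k⟦X⟧ → K` if convenient.
-/

open scoped Classical

namespace SC15.EC

open PowerSeries SC15.FG

variable {k : Type} [Field k]

private noncomputable abbrev io (k : Type) [Field k] : k⟦X⟧ →+* LaurentSeries k :=
  algebraMap k⟦X⟧ (LaurentSeries k)

private lemma io_inj : Function.Injective (io k) :=
  FaithfulSMul.algebraMap_injective k⟦X⟧ (LaurentSeries k)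

private lemma io_ne {f : k⟦X⟧} (h : f ≠ 0) : io k f ≠ 0 := fun e => h (io_inj (by rw [e, map_zero]))

private lemma io_unit {f : k⟦X⟧} (h : constantCoeff f ≠ 0) : io k f ≠ 0 :=
  io_ne (fun e => h (by rw [e, map_zero]))

private lemma io_C (b : k) : io k (C b) = algebraMap k (LaurentSeries k) b := by
  simp [io, HahnSeries.algebraMap_apply']

private lemma io_eqn {b : k} (P : Gp b) :
    io k P.v + io k P.u * io k P.v + algebraMap k (LaurentSeries k) b * io k P.v ^ 2 =
      io k P.u ^ 3 := by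
  have := congrArg (io k) P.eq
  simpa only [_root_.map_add, map_mul, map_pow, io_C] using this

theorem phi_eqn {b : k} (P : Gp b) (hv : P.v ≠ 0) :
    (1 / algebraMap k⟦X⟧ (LaurentSeries k) P.v) ^ 2
      + (algebraMap k⟦X⟧ (LaurentSeries k) P.u / algebraMap k⟦X⟧ (LaurentSeries k) P.v)
        * (1 / algebraMap k⟦X⟧ (LaurentSeries k) P.v)
      + algebraMap k (LaurentSeries k) b * (1 / algebraMap k⟦X⟧ (LaurentSeries k) P.v)
      = (algebraMap k⟦X⟧ (LaurentSeries k) P.u / algebraMap k⟦X⟧ (LaurentSeries k) P.v) ^ 3 := by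
  have h0 : algebraMap k⟦X⟧ (LaurentSeries k) P.v ≠ 0 := io_ne hv
  have h1 := io_eqn P
  have h2 : (algebraMap k⟦X⟧ (LaurentSeries k) P.v) +
      (algebraMap k⟦X⟧ (LaurentSeries k) P.u) * (algebraMap k⟦X⟧ (LaurentSeries k) P.v) +
      algebraMap k (LaurentSeries k) b * (algebraMap k⟦X⟧ (LaurentSeries k) P.v) ^ 2 =
      (algebraMap k⟦X⟧ (LaurentSeries k) P.u) ^ 3 := h1
  generalize algebraMap k⟦X⟧ (LaurentSeries k) P.v = v at *
  generalize algebraMap k⟦X⟧ (LaurentSeries k) P.u = u at *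
  generalize algebraMap k (LaurentSeries k) b = B at *
  field_simp
  linear_combination h2

/-- the point of `E_b(k((t)))` attached to a formal point -/
noncomputable def Phi {b : k} (hb : Ell b) (P : Gp b) : Pt b (LaurentSeries k) :=
  if hv : P.v = 0 then 0
  else pt hb (algebraMap k⟦X⟧ (LaurentSeries k) P.u / algebraMap k⟦X⟧ (LaurentSeries k) P.v)
    (1 / algebraMap k⟦X⟧ (LaurentSeries k) P.v) (phi_eqn P hv)

private lemma phi_of_v {b : k} (hb : Ell b) {P : Gp b} (hv : P.v = 0) : Phi hb P = 0 := by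
  unfold Phi
  rw [dif_pos hv]

private lemma phi_of_ne {b : k} (hb : Ell b) {P : Gp b} (hv : P.v ≠ 0) :
    Phi hb P = pt hb (io k P.u / io k P.v) (1 / io k P.v) (phi_eqn P hv) := by
  unfold Phi
  rw [dif_neg hv]

private lemma u_of_v {b : k} {P : Gp b} (hv : P.v = 0) : P.u = 0 := by
  have h := P.eq
  rw [hv] at h
  have h1 : P.u ^ 3 = 0 := by rw [← h]; ring
  exact pow_eq_zero_iff (by norm_num) |>.1 h1

private lemma pt_congr {b : k} (hb : Ell b) {x y x' y' : LaurentSeries k}
    (h : y ^ 2 + x * y + algebraMap k (LaurentSeries k) b * y = x ^ 3)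
    (h' : y' ^ 2 + x' * y' + algebraMap k (LaurentSeries k) b * y' = x' ^ 3)
    (hx : x = x') (hy : y = y') : pt hb x y h = pt hb x' y' h' := by
  subst hx hy
  rfl

private lemma negY_eq (b : k) (x y : LaurentSeries k) :
    ((Eb b).baseChange (LaurentSeries k)).toAffine.negY x y =
      -y - x - algebraMap k (LaurentSeries k) b := by
  simp [WeierstrassCurve.Affine.negY, Eb, WeierstrassCurve.baseChange]

private lemma neg_eqn {b : k} {x y : LaurentSeries k}
    (h : y ^ 2 + x * y + algebraMap k (LaurentSeries k) b * y = x ^ 3) :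
    (-y - x - algebraMap k (LaurentSeries k) b) ^ 2 +
      x * (-y - x - algebraMap k (LaurentSeries k) b) +
      algebraMap k (LaurentSeries k) b * (-y - x - algebraMap k (LaurentSeries k) b) = x ^ 3 := by
  linear_combination h

private lemma neg_pt {b : k} (hb : Ell b) {x y : LaurentSeries k}
    (h : y ^ 2 + x * y + algebraMap k (LaurentSeries k) b * y = x ^ 3) :
    - pt hb x y h = pt hb x (-y - x - algebraMap k (LaurentSeries k) b) (neg_eqn h) := by
  unfold pt
  rw [WeierstrassCurve.Affine.Point.neg_some]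
  simp only [negY_eq]

theorem phi_neg {b : k} (hb : Ell b) (P : Gp b) : Phi hb (neg P) = - Phi hb P := by
  have hu1 : (1 + P.u + C b * P.v) * inv1 (1 + P.u + C b * P.v) = 1 :=
    mul_inv1 (by simp [P.hu, P.hv])
  have hi := congrArg (io k) hu1
  simp only [map_mul, _root_.map_add, map_one, io_C] at hi
  have hin : inv1 (1 + P.u + C b * P.v) ≠ 0 := fun e => by
    rw [e, mul_zero] at hu1
    exact zero_ne_one hu1
  by_cases hv : P.v = 0
  · rw [phi_of_v hb hv, neg_zero]
    apply phi_of_v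
    simp [neg, hv]
  · have hv' : (neg P).v ≠ 0 := by
      simp only [neg]
      exact mul_ne_zero (neg_ne_zero.2 hv) hin
    rw [phi_of_ne hb hv, phi_of_ne hb hv', neg_pt]
    have h0 := io_ne hv
    have h1 := io_ne hin
    apply pt_congr
    · simp only [neg, map_mul, _root_.map_neg]
      field_simp
    · simp only [neg, map_mul, _root_.map_neg]
      field_simp
      linear_combination hi

private lemma slope_eq {b : k} {x1 y1 x2 y2 L : LaurentSeries k}
    (hc : y1 - y2 = L * (x1 - x2))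
    (hn : ¬ (x1 = x2 ∧ y1 = ((Eb b).baseChange (LaurentSeries k)).toAffine.negY x2 y2))
    (hd : x1 = x2 → L * (2 * y1 + x1 + algebraMap k (LaurentSeries k) b) = 3 * x1 ^ 2 - y1) :
    ((Eb b).baseChange (LaurentSeries k)).toAffine.slope x1 x2 y1 y2 = L := by
  unfold WeierstrassCurve.Affine.slope
  by_cases hx : x1 = x2
  · subst hx
    have hy : y1 = y2 := by
      rw [sub_self, mul_zero, sub_eq_zero] at hc
      exact hc
    subst hy
    have hny : ¬ (y1 = ((Eb b).baseChange (LaurentSeries k)).toAffine.negY x1 y1) :=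
      fun h => hn ⟨rfl, h⟩
    rw [if_pos rfl, if_neg hny]
    have hd' := hd rfl
    rw [negY_eq] at hny ⊢
    have h0 : y1 - (-y1 - x1 - algebraMap k (LaurentSeries k) b) ≠ 0 := sub_ne_zero.2 hny
    rw [div_eq_iff h0]
    simp only [Eb, WeierstrassCurve.baseChange, WeierstrassCurve.map, map_one, map_zero]
    linear_combination -hd'
  · rw [if_neg hx, div_eq_iff (sub_ne_zero.2 hx)]
    exact hc

/-- the field identities behind the addition law, over a general field -/
private structure CoreData {K : Type} [Field K] (B u1 v1 u2 v2 l u3 v3 n : K) : Prop where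
  hv1 : v1 ≠ 0
  hv2 : v2 ≠ 0
  e1 : v1 + u1 * v1 + B * v1 ^ 2 = u1 ^ 3
  hl : l * (1 + u1 + B * (v1 + v2)) = u1 ^ 2 + u1 * u2 + u2 ^ 2 - v2
  hv1n : v1 = l * u1 + n
  hv2n : v2 = l * u2 + n
  hv3n : v3 = l * u3 + n
  h3u : u3 = l + B * l ^ 2 - u1 - u2

private lemma cd_hs2 {K : Type} [Field K] {B u1 v1 u2 v2 l u3 v3 n : K}
    (D : CoreData B u1 v1 u2 v2 l u3 v3 n) :
    u1 ^ 2 + u1 * u2 + u2 ^ 2 = (u1 + u2) * (l + B * l ^ 2) + l + n + 2 * B * l * n := by
  have hl := D.hl
  rw [D.hv1n, D.hv2n] at hl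
  linear_combination -hl

private lemma cd_hs3 {K : Type} [Field K] {B u1 v1 u2 v2 l u3 v3 n : K}
    (D : CoreData B u1 v1 u2 v2 l u3 v3 n) : u1 * u2 * u3 = n + B * n ^ 2 := by
  have e1 := D.e1
  have hs2 := cd_hs2 D
  rw [D.hv1n] at e1
  rw [D.h3u]
  linear_combination -e1 - u1 * hs2

private lemma cd_deg {K : Type} [Field K] {B u1 v1 u2 v2 l u3 v3 n : K}
    (D : CoreData B u1 v1 u2 v2 l u3 v3 n) (h0 : n = 0) :
    u1 / v1 = u2 / v2 ∧ 1 / v1 = -(1 / v2) - u2 / v2 - B ∧ v3 = 0 := by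
  have hv1n := D.hv1n
  have hv2n := D.hv2n
  have hv3n := D.hv3n
  have hv1 := D.hv1
  have hv2 := D.hv2
  have h3u := D.h3u
  have hs3 := cd_hs3 D
  have hs2 := cd_hs2 D
  rw [h0, add_zero] at hv1n hv2n hv3n
  have hl0 : l ≠ 0 := fun h => hv1 (by rw [hv1n, h, zero_mul])
  have hu10 : u1 ≠ 0 := fun h => hv1 (by rw [hv1n, h, mul_zero])
  have hu20 : u2 ≠ 0 := fun h => hv2 (by rw [hv2n, h, mul_zero])
  have h3 : u3 = 0 := by
    have : u1 * u2 * u3 = 0 := by rw [hs3, h0]; ring
    rcases mul_eq_zero.1 this with h | h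
    · rcases mul_eq_zero.1 h with h | h
      · exact absurd h hu10
      · exact absurd h hu20
    · exact h
  have hsum : u1 + u2 = l + B * l ^ 2 := by linear_combination -h3 + h3u
  have hprod : u1 * u2 = -l := by
    rw [h0] at hs2
    linear_combination (-1 : K) * hs2 + (u1 + u2) * hsum
  refine ⟨?_, ?_, ?_⟩
  · rw [hv1n, hv2n]
    field_simp
  · rw [hv1n, hv2n]
    field_simp
    have : l * (u2 + u1 + u1 * u2 + B * l * u1 * u2) = 0 := by
      linear_combination l * hsum + (l + B * l ^ 2) * hprod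
    have h4 : u2 + u1 + u1 * u2 + B * l * u1 * u2 = 0 := by
      rcases mul_eq_zero.1 this with h | h
      · exact absurd h hl0
      · exact h
    linear_combination h4
  · rw [hv3n, h3, mul_zero]

private lemma cd_u {K : Type} [Field K] {B u1 v1 u2 v2 l u3 v3 n : K}
    (D : CoreData B u1 v1 u2 v2 l u3 v3 n) (hx : u1 / v1 = u2 / v2) : n = 0 ∨ (u1 = u2 ∧ v1 = v2) := by
  have hv1n := D.hv1n
  have hv2n := D.hv2n
  rw [div_eq_div_iff D.hv1 D.hv2] at hx
  have hnu : n * (u1 - u2) = 0 := by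
    rw [hv1n, hv2n] at hx
    linear_combination hx
  rcases mul_eq_zero.1 hnu with h | h
  · exact Or.inl h
  · have hu : u1 = u2 := sub_eq_zero.1 h
    exact Or.inr ⟨hu, by rw [hv1n, hv2n, hu]⟩

private lemma cd_opp {K : Type} [Field K] {B u1 v1 u2 v2 l u3 v3 n : K}
    (D : CoreData B u1 v1 u2 v2 l u3 v3 n) (hunit : 2 + u1 + B * v1 ≠ 0)
    (hx : u1 / v1 = u2 / v2) (hy : 1 / v1 = -(1 / v2) - u2 / v2 - B) : n = 0 := by
  rcases cd_u D hx with h | ⟨hu, hvv⟩
  · exact h
  · exfalso
    rw [← hu, ← hvv] at hy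
    apply hunit
    have hv1 := D.hv1
    field_simp at hy
    linear_combination hy

private lemma cd_slope1 {K : Type} [Field K] {B u1 v1 u2 v2 l u3 v3 n : K}
    (D : CoreData B u1 v1 u2 v2 l u3 v3 n) (hn0 : n ≠ 0) :
    1 / v1 - 1 / v2 = -l / n * (u1 / v1 - u2 / v2) := by
  have hv1 := D.hv1
  have hv2 := D.hv2
  have key : n * (v2 - v1) = -l * (u1 * v2 - v1 * u2) := by
    rw [D.hv1n, D.hv2n]
    ring
  field_simp
  linear_combination key

private lemma cd_slope2 {K : Type} [Field K] {B u1 v1 u2 v2 l u3 v3 n : K}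
    (D : CoreData B u1 v1 u2 v2 l u3 v3 n) (hn0 : n ≠ 0) (hx : u1 / v1 = u2 / v2) :
    -l / n * (2 * (1 / v1) + u1 / v1 + B) = 3 * (u1 / v1) ^ 2 - 1 / v1 := by
  rcases cd_u D hx with h | ⟨hu, hvv⟩
  · exact absurd h hn0
  · have hl := D.hl
    have hv1 := D.hv1
    rw [← hu, ← hvv] at hl
    have key : -l * (2 * v1 + u1 * v1 + B * v1 ^ 2) = n * (3 * u1 ^ 2 - v1) := by
      have hn : n = v1 - l * u1 := by linear_combination -D.hv1n
      rw [hn]
      linear_combination (-3 * l) * D.e1 + v1 * hl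
    field_simp
    linear_combination key

private lemma cd_X {K : Type} [Field K] {B u1 v1 u2 v2 l u3 v3 n : K}
    (D : CoreData B u1 v1 u2 v2 l u3 v3 n) (hn0 : n ≠ 0) (hv3 : v3 ≠ 0) :
    (-l / n) ^ 2 + 1 * (-l / n) - 0 - u1 / v1 - u2 / v2 = u3 / v3 := by
  have hv1 := D.hv1
  have hv2 := D.hv2
  have hs3 := cd_hs3 D
  have hs2 := cd_hs2 D
  have hs1 : u1 + u2 + u3 = l + B * l ^ 2 := by rw [D.h3u]; ring
  have hs2' : u1 * u2 + (u1 + u2) * u3 = -(l + n + 2 * B * l * n) := by
    rw [D.h3u]; linear_combination -hs2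
  have hprod : v1 * v2 * v3 = n ^ 3 := by
    rw [D.hv1n, D.hv2n, D.hv3n]
    linear_combination l ^ 3 * hs3 + l ^ 2 * n * hs2' + l * n ^ 2 * hs1
  have hsum : u1 * v2 * v3 + u2 * v1 * v3 + u3 * v1 * v2 = l ^ 2 * n - l * n ^ 2 := by
    rw [D.hv1n, D.hv2n, D.hv3n]
    linear_combination 3 * l ^ 2 * hs3 + 2 * l * n * hs2' + n ^ 2 * hs1
  have key : u1 / v1 + u2 / v2 + u3 / v3 = (l ^ 2 - l * n) / n ^ 2 := by
    have h1 : u1 / v1 + u2 / v2 + u3 / v3 =
        (u1 * v2 * v3 + u2 * v1 * v3 + u3 * v1 * v2) / (v1 * v2 * v3) := by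
      field_simp
    rw [h1, hprod, hsum]
    field_simp
  have h5 : (-l / n) ^ 2 + 1 * (-l / n) - 0 = (l ^ 2 - l * n) / n ^ 2 := by
    field_simp
    ring
  rw [h5, ← key]
  ring

private lemma cd_negY {K : Type} [Field K] {B u1 v1 u2 v2 l u3 v3 n : K}
    (D : CoreData B u1 v1 u2 v2 l u3 v3 n) (hn0 : n ≠ 0) (hv3 : v3 ≠ 0) :
    -l / n * (u3 / v3 - u1 / v1) + 1 / v1 = 1 / v3 := by
  have hv1 := D.hv1
  have key : -l * (u3 * v1 - v3 * u1) + n * v3 = n * v1 := by
    rw [D.hv1n, D.hv3n]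
    ring
  field_simp
  linear_combination key

private lemma cd_of (b : k) (P Q : Gp b) (hP : P.v ≠ 0) (hQ : Q.v ≠ 0) :
    CoreData (algebraMap k (LaurentSeries k) b) (io k P.u) (io k P.v) (io k Q.u) (io k Q.v)
      (io k (lam P Q)) (io k (third P Q).u) (io k (third P Q).v)
      (io k (P.v - lam P Q * P.u)) where
  hv1 := io_ne hP
  hv2 := io_ne hQ
  e1 := io_eqn P
  hl := by
    have h := congrArg (io k) (lam_spec P Q)
    simpa only [map_sub, _root_.map_add, map_mul, map_pow, map_one, io_C] using h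
  hv1n := by
    rw [← map_mul, ← _root_.map_add]
    exact congrArg (io k) (by ring)
  hv2n := by
    rw [← map_mul, ← _root_.map_add]
    exact congrArg (io k) (by linear_combination -lam_chord P Q)
  hv3n := by
    rw [← map_mul, ← _root_.map_add]
    refine congrArg (io k) ?_
    simp only [third]
    ring
  h3u := by
    simp only [third, map_sub, _root_.map_add, map_mul, map_pow, io_C]

private lemma addX_eq (b : k) (x1 x2 L : LaurentSeries k) :
    ((Eb b).baseChange (LaurentSeries k)).toAffine.addX x1 x2 L = L ^ 2 + 1 * L - 0 - x1 - x2 := by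
  simp only [WeierstrassCurve.Affine.addX, Eb, WeierstrassCurve.baseChange,
        WeierstrassCurve.map, map_one, map_zero]

private lemma core_add (h2 : (2 : k) ≠ 0) {b : k} (hb : Ell b) (P Q : Gp b) (hP : P.v ≠ 0)
    (hQ : Q.v ≠ 0) : Phi hb P + Phi hb Q = - Phi hb (third P Q) := by
  have D := cd_of b P Q hP hQ
  have hunit : io k (2 + P.u + C b * P.v) ≠ 0 := by
    apply io_unit
    simp only [_root_.map_add, map_mul, P.hu, P.hv, map_ofNat]
    simpa using h2
  simp only [_root_.map_add, map_mul, map_ofNat, io_C] at hunit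
  rw [phi_of_ne hb hP, phi_of_ne hb hQ]
  by_cases hcase : io k P.u / io k P.v = io k Q.u / io k Q.v ∧
      1 / io k P.v = ((Eb b).baseChange (LaurentSeries k)).toAffine.negY (io k Q.u / io k Q.v)
        (1 / io k Q.v)
  · -- opposite points
    have hsum : pt hb (io k P.u / io k P.v) (1 / io k P.v) (phi_eqn P hP) +
        pt hb (io k Q.u / io k Q.v) (1 / io k Q.v) (phi_eqn Q hQ) = 0 :=
      WeierstrassCurve.Affine.Point.add_of_Y_eq hcase.1 hcase.2
    rw [hsum]
    have hy := hcase.2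
    rw [negY_eq] at hy
    have hn0 := cd_opp D hunit hcase.1 hy
    have h3 := (cd_deg D hn0).2.2
    have hv3 : (third P Q).v = 0 := io_inj (by rw [map_zero]; exact h3)
    rw [phi_of_v hb hv3, neg_zero]
  · have hn0 : io k (P.v - lam P Q * P.u) ≠ 0 := by
      intro h
      apply hcase
      rw [negY_eq]
      exact ⟨(cd_deg D h).1, (cd_deg D h).2.1⟩
    have hv30 : (third P Q).v ≠ 0 := by
      intro h
      have hu : (third P Q).u = 0 := u_of_v h
      apply hn0
      have h3 := D.hv3n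
      rw [h, hu, map_zero, mul_zero, zero_add] at h3
      exact h3.symm
    have hv3 := io_ne hv30
    have hL := slope_eq (b := b) (cd_slope1 D hn0) hcase (cd_slope2 D hn0)
    have hadd := WeierstrassCurve.Affine.Point.add_some hcase
      (h₁ := nonsing hb (phi_eqn P hP)) (h₂ := nonsing hb (phi_eqn Q hQ))
    have hX := (addX_eq b (io k P.u / io k P.v) (io k Q.u / io k Q.v)
      (-io k (lam P Q) / io k (P.v - lam P Q * P.u))).trans (cd_X D hn0 hv3)
    have hnY : ((Eb b).baseChange (LaurentSeries k)).toAffine.negAddY (io k P.u / io k P.v)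
        (io k Q.u / io k Q.v) (1 / io k P.v) (-io k (lam P Q) / io k (P.v - lam P Q * P.u)) =
        1 / io k (third P Q).v := by
      rw [WeierstrassCurve.Affine.negAddY, hX]
      exact cd_negY D hn0 hv3
    have hY : ((Eb b).baseChange (LaurentSeries k)).toAffine.addY (io k P.u / io k P.v)
        (io k Q.u / io k Q.v) (1 / io k P.v) (-io k (lam P Q) / io k (P.v - lam P Q * P.u)) =
        -(1 / io k (third P Q).v) - io k (third P Q).u / io k (third P Q).v -
          algebraMap k (LaurentSeries k) b := by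
      rw [WeierstrassCurve.Affine.addY, hnY, hX, negY_eq]
    rw [phi_of_ne hb hv30, neg_pt]
    change WeierstrassCurve.Affine.Point.some _ _ _ + WeierstrassCurve.Affine.Point.some _ _ _ = _
    rw [hadd]
    unfold pt
    congr 1
    · rw [hL]; exact hX
    · rw [hL]; exact hY

private lemma add_zero_right {b : k} (P Q : Gp b) (hQ : Q.v = 0) : third P Q = neg P := by
  have hu := u_of_v hQ
  have hl := lam_spec P Q
  rw [hQ, hu] at hl
  have h1 : (1 + P.u + C b * P.v) * inv1 (1 + P.u + C b * P.v) = 1 :=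
    mul_inv1 (by simp [P.hu, P.hv])
  have hl' : lam P Q * (1 + P.u + C b * P.v) = P.u ^ 2 := by linear_combination hl
  have hc := lam_chord P Q
  rw [hQ, hu, sub_zero, sub_zero] at hc
  have hne : (1 + P.u + C b * P.v) ≠ 0 := fun e => by
    rw [e, zero_mul] at h1
    exact zero_ne_one h1
  have hk : (lam P Q + C b * lam P Q ^ 2 - P.u) * (1 + P.u + C b * P.v) = - P.u := by
    have hx : lam P Q * (1 + C b * lam P Q) * (1 + P.u + C b * P.v) =
        P.u ^ 2 + C b * P.v * P.u := by
      linear_combination (1 + C b * lam P Q) * hl' - C b * P.u * hc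
    linear_combination hx
  ext1
  · change lam P Q + C b * lam P Q ^ 2 - P.u - Q.u = - P.u * inv1 (1 + P.u + C b * P.v)
    rw [hu, sub_zero]
    linear_combination inv1 (1 + P.u + C b * P.v) * hk -
      (lam P Q + C b * lam P Q ^ 2 - P.u) * h1
  · change lam P Q * (lam P Q + C b * lam P Q ^ 2 - P.u - Q.u - P.u) + P.v =
      - P.v * inv1 (1 + P.u + C b * P.v)
    rw [hu, sub_zero]
    linear_combination lam P Q * (inv1 (1 + P.u + C b * P.v) * hk -
      (lam P Q + C b * lam P Q ^ 2 - P.u) * h1) + (1 + inv1 (1 + P.u + C b * P.v)) * hc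

theorem phi_add (h2 : (2 : k) ≠ 0) {b : k} (hb : Ell b) (P Q : Gp b) :
    Phi hb (add P Q) = Phi hb P + Phi hb Q := by
  unfold add
  rw [phi_neg]
  by_cases hQ : Q.v = 0
  · rw [add_zero_right P Q hQ, phi_neg, neg_neg, phi_of_v hb hQ, add_zero]
  by_cases hP : P.v = 0
  · have h3 : third P Q = neg Q := by
      have hu := u_of_v hP
      have hl := lam_spec P Q
      rw [hP, hu] at hl
      have h1 : (1 + Q.u + C b * Q.v) * inv1 (1 + Q.u + C b * Q.v) = 1 :=
        mul_inv1 (by simp [Q.hu, Q.hv])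
      have hc := lam_chord P Q
      rw [hP, hu, zero_sub, zero_sub] at hc
      have hc' : Q.v = lam P Q * Q.u := by linear_combination -hc
      have hk : (lam P Q + C b * lam P Q ^ 2 - Q.u) * (1 + Q.u + C b * Q.v) = - Q.u := by
        have hx : lam P Q * (1 + Q.u + C b * Q.v) = Q.u ^ 2 := by
          linear_combination hl - hc'
        linear_combination (1 + C b * lam P Q) * hx - C b * Q.u * hc'
      ext1
      · change lam P Q + C b * lam P Q ^ 2 - P.u - Q.u = - Q.u * inv1 (1 + Q.u + C b * Q.v)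
        rw [hu, sub_zero]
        linear_combination inv1 (1 + Q.u + C b * Q.v) * hk -
          (lam P Q + C b * lam P Q ^ 2 - Q.u) * h1
      · change lam P Q * (lam P Q + C b * lam P Q ^ 2 - P.u - Q.u - P.u) + P.v =
          - Q.v * inv1 (1 + Q.u + C b * Q.v)
        rw [hu, hP, sub_zero, sub_zero]
        linear_combination lam P Q * (inv1 (1 + Q.u + C b * Q.v) * hk -
          (lam P Q + C b * lam P Q ^ 2 - Q.u) * h1) + inv1 (1 + Q.u + C b * Q.v) * hc'
    rw [h3, phi_neg, neg_neg, phi_of_v hb hP, zero_add]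
  · rw [core_add h2 hb P Q hP hQ]

private lemma phi_zero' {b : k} (hb : Ell b) : Phi hb (zero b) = 0 := phi_of_v hb rfl

private lemma phi_nsm (h2 : (2 : k) ≠ 0) {b : k} (hb : Ell b) (n : ℕ) (P : Gp b) :
    Phi hb (nsm n P) = n • Phi hb P := by
  induction n with
  | zero => rw [zero_nsmul]; exact phi_zero' hb
  | succ n ih =>
    change Phi hb (add (nsm n P) P) = _
    rw [phi_add h2, ih, succ_nsmul]

theorem phi_zsm (h2 : (2 : k) ≠ 0) {b : k} (hb : Ell b) (n : ℤ) (P : Gp b) :
    Phi hb (zsm n P) = n • Phi hb P := by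
  unfold zsm
  split_ifs with h
  · rw [phi_nsm h2, ← natCast_zsmul, Int.toNat_of_nonneg h]
  · rw [phi_neg, phi_nsm h2, ← natCast_zsmul, Int.toNat_of_nonneg (by omega), neg_zsmul, neg_neg]

theorem phi_zero {b : k} (hb : Ell b) {P : Gp b} (h : Phi hb P = 0) : P.u = 0 := by
  by_cases hv : P.v = 0
  · exact u_of_v hv
  · rw [phi_of_ne hb hv] at h
    exact absurd h (WeierstrassCurve.Affine.Point.some_ne_zero _)

end SC15.EC
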