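import Mathlib
import Pool.Agent.SC15.B.Core

/-!
Module SC15-B-HT: heights (degrees) of rational functions in one variable.
-/

open Polynomial
open scoped Classical

namespace SC15.EC

variable {k : Type} [Field k]

/-- the height (degree) of a rational function -/
noncomputable def ht (r : RatFunc k) : ℕ := max r.num.natDegree r.denom.natDegree

theorem ht_C (c : k) : ht (RatFunc.C c) = 0 := by
  simp [ht]

theorem ht_X : ht (RatFunc.X : RatFunc k) = 1 := by
  simp [ht]

theorem ht_eq_zero {r : RatFunc k} (h : ht r = 0) : ∃ c, r = RatFunc.C c := by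
  have h1 : r.num.natDegree = 0 := by
    have := le_max_left r.num.natDegree r.denom.natDegree
    unfold ht at h; omega
  have h2 : r.denom.natDegree = 0 := by
    have := le_max_right r.num.natDegree r.denom.natDegree
    unfold ht at h; omega
  obtain ⟨a, ha⟩ := Polynomial.natDegree_eq_zero.mp h1
  obtain ⟨b, hb⟩ := Polynomial.natDegree_eq_zero.mp h2
  refine ⟨a / b, ?_⟩
  rw [← RatFunc.num_div_denom r, ← ha, ← hb]
  simp only [RatFunc.algebraMap_C, map_div₀]

theorem ht_frac (A B : k[X]) (hAB : IsCoprime A B) (hB : B ≠ 0) :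
    ht (algebraMap k[X] (RatFunc k) A / algebraMap k[X] (RatFunc k) B) =
      max A.natDegree B.natDegree := by
  set r : RatFunc k := algebraMap k[X] (RatFunc k) A / algebraMap k[X] (RatFunc k) B with hr
  have hB' : algebraMap k[X] (RatFunc k) B ≠ 0 := by
    simpa using hB
  have hd' : algebraMap k[X] (RatFunc k) r.denom ≠ 0 := by
    simpa using r.denom_ne_zero
  have h1 : r.num * B = A * r.denom := by
    have h := RatFunc.num_div_denom r
    rw [div_eq_iff hd'] at h
    have h2 : algebraMap k[X] (RatFunc k) (r.num * B) =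
        algebraMap k[X] (RatFunc k) (A * r.denom) := by
      rw [map_mul, map_mul, h, hr]
      field_simp
    exact RatFunc.algebraMap_injective k h2
  have hc := RatFunc.isCoprime_num_denom r
  have hBd : B ∣ r.denom := by
    have : B ∣ A * r.denom := ⟨r.num, by rw [← h1]; ring⟩
    exact hAB.symm.dvd_of_dvd_mul_left this
  have hdB : r.denom ∣ B := by
    have : r.denom ∣ r.num * B := ⟨A, by rw [h1]; ring⟩
    exact hc.symm.dvd_of_dvd_mul_left this
  have e1 : B.natDegree = r.denom.natDegree :=
    le_antisymm (natDegree_le_of_dvd hBd r.denom_ne_zero) (natDegree_le_of_dvd hdB hB)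
  have e2 : A.natDegree = r.num.natDegree := by
    by_cases hA : A = 0
    · have : r = 0 := by rw [hr, hA]; simp
      rw [this, hA]; simp
    · have hn : r.num ≠ 0 := by
        intro hn
        rw [hn, zero_mul] at h1
        exact (mul_ne_zero hA r.denom_ne_zero) h1.symm
      have := congrArg natDegree h1
      rw [natDegree_mul hn hB, natDegree_mul hA r.denom_ne_zero] at this
      omega
  unfold ht
  rw [← e1, ← e2]

/-- homogenised evaluation -/
private noncomputable def HT_H {R : Type*} [CommRing R] [Algebra k R] (n : ℕ) (A : k[X])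
    (u v : R) : R := MvPolynomial.aeval ![u, v] (A.homogenize n)

private theorem HT_H_sum {R : Type*} [CommRing R] [Algebra k R] (n : ℕ) (A : k[X])
    (u v : R) : HT_H n A u v =
      ∑ kl ∈ Finset.HasAntidiagonal.antidiagonal n, algebraMap k R (A.coeff kl.1) * (u ^ kl.1 * v ^ kl.2) := by
  unfold HT_H Polynomial.homogenize
  rw [_root_.map_sum]
  refine Finset.sum_congr rfl fun kl _ => ?_
  rw [MvPolynomial.aeval_monomial]
  congr 1
  rw [Finsupp.prod_fintype _ _ (by simp)]
  simp

private theorem HT_H_mul {R : Type*} [CommRing R] [Algebra k R] {m n : ℕ} {P A : k[X]}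
    (hP : P.natDegree ≤ m) (hA : A.natDegree ≤ n) (u v : R) :
    HT_H (m + n) (P * A) u v = HT_H m P u v * HT_H n A u v := by
  unfold HT_H
  rw [homogenize_mul P A hP hA, map_mul]

private theorem HT_H_add {R : Type*} [CommRing R] [Algebra k R] {n : ℕ} {P A : k[X]} (u v : R) :
    HT_H n (P + A) u v = HT_H n P u v + HT_H n A u v := by
  unfold HT_H
  rw [homogenize_add, map_add]

private theorem HT_H_one {R : Type*} [CommRing R] [Algebra k R] {n : ℕ} (u v : R) :
    HT_H n (1 : k[X]) u v = v ^ n := by
  unfold HT_H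
  rw [homogenize_one]
  simp

private theorem HT_bez {R : Type*} [CommRing R] [Algebra k R] {n : ℕ} {A B : k[X]}
    (hAB : IsCoprime A B) (hA : A.natDegree ≤ n) (hB : B.natDegree ≤ n) (u v : R) :
    ∃ (p q : R) (N : ℕ), p * HT_H n A u v + q * HT_H n B u v = v ^ N := by
  obtain ⟨P, Q, h⟩ := hAB
  refine ⟨HT_H (max P.natDegree Q.natDegree) P u v, HT_H (max P.natDegree Q.natDegree) Q u v,
    max P.natDegree Q.natDegree + n, ?_⟩
  rw [← HT_H_mul (le_max_left _ _) hA, ← HT_H_mul (le_max_right _ _) hB, ← HT_H_add, h, HT_H_one]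

private theorem HT_top {R : Type*} [CommRing R] [Algebra k R] (n : ℕ) (A : k[X]) (u v : R) :
    ∃ w : R, HT_H n A u v = algebraMap k R (A.coeff n) * u ^ n + v * w := by
  rw [HT_H_sum]
  rw [← Finset.add_sum_erase _ _ (show (n, 0) ∈ Finset.HasAntidiagonal.antidiagonal n by simp)]
  have : v ∣ ∑ kl ∈ (Finset.HasAntidiagonal.antidiagonal n).erase (n, 0),
      algebraMap k R (A.coeff kl.1) * (u ^ kl.1 * v ^ kl.2) := by
    refine Finset.dvd_sum fun kl hkl => ?_
    rw [Finset.mem_erase, Finset.HasAntidiagonal.mem_antidiagonal] at hkl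
    have h2 : kl.2 ≠ 0 := by
      intro h0
      apply hkl.1
      ext
      · simp; omega
      · simpa using h0
    exact Dvd.dvd.mul_left (Dvd.dvd.mul_left (dvd_pow_self v h2) _) _
  obtain ⟨w, hw⟩ := this
  exact ⟨w, by rw [hw]; simp⟩

private theorem HT_deg {d : ℕ} {U V : k[X]} (hU : U.natDegree ≤ d) (hV : V.natDegree ≤ d)
    (n : ℕ) (A : k[X]) : (HT_H n A U V).natDegree ≤ n * d ∧
      (HT_H n A U V).coeff (n * d) = HT_H n A (U.coeff d) (V.coeff d) := by
  have key : ∀ kl ∈ Finset.HasAntidiagonal.antidiagonal n, (U ^ kl.1 * V ^ kl.2).natDegree ≤ n * d ∧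
      (U ^ kl.1 * V ^ kl.2).coeff (n * d) = (U.coeff d) ^ kl.1 * (V.coeff d) ^ kl.2 := by
    intro kl hkl
    rw [Finset.HasAntidiagonal.mem_antidiagonal] at hkl
    have h1 : (U ^ kl.1).natDegree ≤ kl.1 * d := natDegree_pow_le_of_le _ hU
    have h2 : (V ^ kl.2).natDegree ≤ kl.2 * d := natDegree_pow_le_of_le _ hV
    have e : n * d = kl.1 * d + kl.2 * d := by rw [← hkl]; ring
    refine ⟨?_, ?_⟩
    · rw [e]
      exact natDegree_mul_le_of_le h1 h2
    · rw [e, coeff_mul_add_eq_of_natDegree_le h1 h2, coeff_pow_of_natDegree_le hU,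
        coeff_pow_of_natDegree_le hV]
  rw [HT_H_sum, HT_H_sum]
  refine ⟨?_, ?_⟩
  · refine natDegree_sum_le_of_forall_le _ _ fun kl hkl => ?_
    rw [Polynomial.algebraMap_eq]
    exact (natDegree_C_mul_le _ _).trans (key kl hkl).1
  · rw [finset_sum_coeff]
    refine Finset.sum_congr rfl fun kl hkl => ?_
    rw [Polynomial.algebraMap_eq, coeff_C_mul, (key kl hkl).2]
    simp

private theorem HT_field {L : Type*} [Field L] [Algebra k L] {n : ℕ} {A : k[X]}
    (hA : A.natDegree ≤ n) (u v : L) (hv : v ≠ 0) :
    HT_H n A u v = v ^ n * aeval (u / v) A := by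
  rw [HT_H_sum, aeval_eq_sum_range' (Nat.lt_succ_of_le hA)]
  rw [Finset.Nat.sum_antidiagonal_eq_sum_range_succ_mk, Finset.mul_sum]
  refine Finset.sum_congr rfl fun i hi => ?_
  rw [Finset.mem_range] at hi
  have hi' : i ≤ n := by omega
  rw [Algebra.smul_def, div_pow]
  have : v ^ n = v ^ (n - i) * v ^ i := by rw [← pow_add]; congr 1; omega
  rw [this]
  field_simp

private theorem HT_map {R S : Type*} [CommRing R] [Algebra k R] [CommRing S] [Algebra k S]
    (f : R →ₐ[k] S) (n : ℕ) (A : k[X]) (u v : R) : f (HT_H n A u v) = HT_H n A (f u) (f v) := by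
  rw [HT_H_sum, HT_H_sum, _root_.map_sum]
  refine Finset.sum_congr rfl fun kl _ => ?_
  simp

theorem ht_comp (s : RatFunc k) (hs : ∀ c, s ≠ RatFunc.C c) (A B : k[X]) (hAB : IsCoprime A B)
    (hB : B ≠ 0) : aeval s B ≠ 0 ∧
      ht (aeval s A / aeval s B) = max A.natDegree B.natDegree * ht s := by
  set n := max A.natDegree B.natDegree with hn
  set d := ht s with hd
  set U := s.num with hU
  set V := s.denom with hV
  have hA' : A.natDegree ≤ n := le_max_left _ _
  have hB' : B.natDegree ≤ n := le_max_right _ _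
  have hUd : U.natDegree ≤ d := le_max_left _ _
  have hVd : V.natDegree ≤ d := le_max_right _ _
  have hUV : IsCoprime U V := RatFunc.isCoprime_num_denom s
  have hV0 : V ≠ 0 := s.denom_ne_zero
  have hd0 : 0 < d := by
    rcases Nat.eq_zero_or_pos d with h | h
    · obtain ⟨c, hc⟩ := ht_eq_zero h
      exact absurd hc (hs c)
    · exact h
  have hlead : A.coeff n ≠ 0 ∨ B.coeff n ≠ 0 := by
    rcases le_total A.natDegree B.natDegree with h | h
    · right
      have : n = B.natDegree := by rw [hn]; exact max_eq_right h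
      rw [this]
      exact leadingCoeff_ne_zero.mpr hB
    · have e : n = A.natDegree := by rw [hn]; exact max_eq_left h
      by_cases hA0 : A = 0
      · right
        have : n = B.natDegree := by
          rw [e, hA0, natDegree_zero]
          rw [hA0, natDegree_zero] at h
          omega
        rw [this]
        exact leadingCoeff_ne_zero.mpr hB
      · left
        rw [e]
        exact leadingCoeff_ne_zero.mpr hA0
  set A' : k[X] := HT_H n A U V with hA'def
  set B' : k[X] := HT_H n B U V with hB'def
  -- coprime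
  have hcop : IsCoprime A' B' := by
    refine isCoprime_of_irreducible_dvd ?_ ?_
    · rintro ⟨h1, h2⟩
      obtain ⟨p, q, N, h⟩ := HT_bez hAB hA' hB' U V
      rw [← hA'def, ← hB'def, h1, h2] at h
      simp only [mul_zero, add_zero] at h
      exact pow_ne_zero N hV0 h.symm
    · intro π hπ hπA hπB
      have hp : Prime π := hπ.prime
      obtain ⟨p, q, N, h⟩ := HT_bez hAB hA' hB' U V
      rw [← hA'def, ← hB'def] at h
      have hπV : π ∣ V := by
        apply hp.dvd_of_dvd_pow (n := N)
        rw [← h]
        exact dvd_add (Dvd.dvd.mul_left hπA _) (Dvd.dvd.mul_left hπB _)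
      have hπU : π ∣ U := by
        have aux : ∀ E : k[X], E.coeff n ≠ 0 → π ∣ HT_H n E U V → π ∣ U := by
          intro E hE hdvd
          obtain ⟨w, hw⟩ := HT_top n E U V
          rw [hw] at hdvd
          have h3 : π ∣ algebraMap k k[X] (E.coeff n) * U ^ n :=
            (dvd_add_left (Dvd.dvd.mul_right hπV w)).mp hdvd
          rcases hp.dvd_or_dvd h3 with h4 | h4
          · exfalso
            rw [Polynomial.algebraMap_eq] at h4
            exact hπ.not_isUnit (isUnit_of_dvd_unit h4 (isUnit_C.mpr (isUnit_iff_ne_zero.mpr hE)))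
          · exact hp.dvd_of_dvd_pow h4
        rcases hlead with h5 | h5
        · exact aux A h5 hπA
        · exact aux B h5 hπB
      exact hπ.not_isUnit (hUV.isUnit_of_dvd' hπU hπV)
  -- degree
  obtain ⟨dA, cA⟩ := HT_deg hUd hVd n A
  obtain ⟨dB, cB⟩ := HT_deg hUd hVd n B
  rw [← hA'def] at dA cA
  rw [← hB'def] at dB cB
  have hnz : A'.coeff (n * d) ≠ 0 ∨ B'.coeff (n * d) ≠ 0 := by
    by_contra hcon
    push Not at hcon
    rw [cA, cB] at hcon
    obtain ⟨p, q, N, h⟩ := HT_bez hAB hA' hB' (U.coeff d) (V.coeff d)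
    rw [hcon.1, hcon.2, mul_zero, mul_zero, add_zero] at h
    have hv : V.coeff d = 0 := by
      by_contra hv
      exact pow_ne_zero N hv h.symm
    have hu : U.coeff d ≠ 0 := by
      intro hu
      rcases le_total U.natDegree V.natDegree with h1 | h1
      · have e : d = V.natDegree := max_eq_right h1
        rw [e] at hv
        exact hV0 (leadingCoeff_eq_zero.mp hv)
      · have e : d = U.natDegree := max_eq_left h1
        rw [e] at hu
        have := leadingCoeff_eq_zero.mp hu
        rw [this, natDegree_zero] at e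
        omega
    have aux : ∀ E : k[X], E.coeff n ≠ 0 → HT_H n E (U.coeff d) (V.coeff d) ≠ 0 := by
      intro E hE h0
      obtain ⟨w, hw⟩ := HT_top n E (U.coeff d) (V.coeff d)
      rw [h0, hv, zero_mul, add_zero] at hw
      exact mul_ne_zero (by simpa using hE) (pow_ne_zero n hu) hw.symm
    rcases hlead with h5 | h5
    · exact aux A h5 hcon.1
    · exact aux B h5 hcon.2
  have hmax : max A'.natDegree B'.natDegree = n * d := by
    apply le_antisymm (max_le dA dB)
    rcases hnz with h5 | h5
    · exact (le_natDegree_of_ne_zero h5).trans (le_max_left _ _)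
    · exact (le_natDegree_of_ne_zero h5).trans (le_max_right _ _)
  have hB0 : B' ≠ 0 := by
    intro h0
    rw [h0, isCoprime_zero_right] at hcop
    have hdeg : A'.natDegree = 0 := natDegree_eq_zero_of_isUnit hcop
    rw [hdeg, h0, natDegree_zero, max_self] at hmax
    have hn0 : n = 0 := by
      rcases Nat.mul_eq_zero.mp hmax.symm with h1 | h1
      · exact h1
      · omega
    have : HT_H n B U V = B := by
      obtain ⟨b, hb⟩ := natDegree_eq_zero.mp (show B.natDegree = 0 by omega)
      rw [hn0, ← hb]
      unfold HT_H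
      rw [homogenize_C]
      simp
    rw [← hB'def, h0] at this
    exact hB this.symm
  -- conclusion
  have hVs : algebraMap k[X] (RatFunc k) V ≠ 0 := by simpa using hV0
  have hsUV : s = algebraMap k[X] (RatFunc k) U / algebraMap k[X] (RatFunc k) V :=
    (RatFunc.num_div_denom s).symm
  have key : ∀ E : k[X], E.natDegree ≤ n → algebraMap k[X] (RatFunc k) (HT_H n E U V) =
      (algebraMap k[X] (RatFunc k) V) ^ n * aeval s E := by
    intro E hE
    have h1 := HT_field (L := RatFunc k) hE (algebraMap k[X] (RatFunc k) U)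
      (algebraMap k[X] (RatFunc k) V) hVs
    rw [← hsUV] at h1
    rw [← h1]
    exact HT_map (IsScalarTower.toAlgHom k k[X] (RatFunc k)) n E U V
  have kA := key A hA'
  have kB := key B hB'
  rw [← hA'def] at kA
  rw [← hB'def] at kB
  have hB's : algebraMap k[X] (RatFunc k) B' ≠ 0 := by simpa using hB0
  refine ⟨?_, ?_⟩
  · intro h0
    rw [h0, mul_zero] at kB
    exact hB's kB
  · have : aeval s A / aeval s B =
        algebraMap k[X] (RatFunc k) A' / algebraMap k[X] (RatFunc k) B' := by
      rw [kA, kB, mul_div_mul_left _ _ (pow_ne_zero n hVs)]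
    rw [this, ht_frac A' B' hcop hB0, hmax]

end SC15.EC
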