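import Mathlib

/-!
Module SC15-B-ISO1 (1 h): the classical 2-isogeny `C_{A,B} → C_{-2A, A^2-4B}` is a homomorphism.

`C = C_{A,B} : y^2 = x (x^2 + A x + B)`, `C' = C_{-2A, A^2-4B}`, `T = (0,0)`,
`f(x, y) = (y^2/x^2, y (x^2 - B)/x^2)` for `x <> 0`, `f(0) = f(T) = 0`.
Both curves are elliptic, so every solution of the equation is nonsingular (or check directly with
`nonsingular_iff'`). Plan:
 (1) the image satisfies the equation. `X = y^2/x^2 = (x^2 + A x + B)/x`.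
 (2) `f(-P) = - f(P)`.
 (3) `f(P + T) = f(P)`: for `P = (x, y)`, `x <> 0`: `P + T = (B/x, - B y/x^2)`.
 (4) chord case: `P1, P2` with `x1, x2 <> 0`, `x1 <> x2`, line `y = l x + n` through them, third point
 `(x3, l x3 + n)`, `P1 + P2 = (x3, -(l x3 + n))`. If `n = 0` the line contains `T`, so
 `x3 = 0` (product of the roots `x1 x2 x3 = n^2`), `P1 + P2 = T`, i.e. `P2 = T - P1` and
 `f(P2) = f(-P1) = - f(P1)` by (2), (3). If `n <> 0`: the image points satisfy `Y = l' X + n'` with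
 `l' = (n l - B)/n`, `n' = (n^2 - A n l + B l^2)/n`, and `X1 + X2 + X3 = l'^2 + 2 A` with
 `X_i = (l + n/x_i)^2` (elementary symmetric functions of `x1,x2,x3`: `l^2 - A`, `B - 2 l n`,
 `n^2`). So if `X1 <> X2` the chord through `f(P1), f(P2)` has slope `l'` and third point
 `(X3, Y3)`: done with `slope_of_X_ne`. If `X1 = X2` then `f(P2) = ± f(P1)`; `X(P)` has exactly the fibre
 `{x, B/x}`, so `x2 = B/x1` (as `x1 <> x2`), `P2 = ± P1 + T`; the case `P2 = - P1 + T` is (3); in the case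
 `P2 = P1 + T` we have `f(P1 + P2) = f(2 P1 + T) = f(2 P1)` by (3) and `f(P2) = f(P1)`, so it is the
 doubling case (5).
 (5) doubling: `P = (x, y)`, `x <> 0`, `y <> 0` (if `y = 0`, `2P = 0`, `f(P) = (0, 0) = T'`,
 `2 T' = 0`). `2P = T` iff `x^2 = B`; then `f(P) = (X, 0)` has `2 f(P) = 0 = f(T)`. Otherwise
 `Y = y (x^2-B)/x^2 <> 0`, doubling formulas on both sides (`slope_of_Y_ne`), with tangent
 `l = (3x^2+2Ax+B)/(2y)`; the image tangent slope is again `l' = (n l - B)/n`, `n = y - l x` (`n <> 0`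
 because `2 P <> T`...), or verify directly by `field_simp` and the curve equation
 (eliminate `y^2 = x^3 + A x^2 + B x`).
 (6) `P` or `Q` equal to `0` or `T`: (3). `Q = - P`: (2).
-/

open scoped Classical

namespace SC15.EC

open WeierstrassCurve WeierstrassCurve.Affine

/-- `y^2 = x^3 + A x^2 + B x` -/
def CAB {F : Type} [Field F] (A B : F) : WeierstrassCurve.Affine F := ⟨0, A, 0, B, 0⟩

section Iso1

variable {F : Type} [Field F]

private theorem iso1_eqn {a b x y : F} (h : (CAB a b).Nonsingular x y) :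
    y ^ 2 = x ^ 3 + a * x ^ 2 + b * x := by
  have h1 := (equation_iff (W := CAB a b) x y).1 h.1
  simp only [CAB] at h1
  linear_combination h1

private theorem iso1_disc (a b : F) : (CAB a b).Δ = 16 * b ^ 2 * (a ^ 2 - 4 * b) := by
  simp only [CAB, WeierstrassCurve.Δ, WeierstrassCurve.b₂, WeierstrassCurve.b₄,
    WeierstrassCurve.b₆, WeierstrassCurve.b₈]
  ring

private theorem iso1_ns {a b x y : F} (h2 : (2 : F) ≠ 0) (hb : b ≠ 0) (hD : a ^ 2 - 4 * b ≠ 0)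
    (h : y ^ 2 = x ^ 3 + a * x ^ 2 + b * x) : (CAB a b).Nonsingular x y := by
  have hΔ : (CAB a b).Δ ≠ 0 := by
    rw [iso1_disc]
    have h16 : (16 : F) ≠ 0 := by
      have : (16 : F) = 2 ^ 4 := by norm_num
      rw [this]
      exact pow_ne_zero _ h2
    exact mul_ne_zero (mul_ne_zero h16 (pow_ne_zero _ hb)) hD
  rw [← equation_iff_nonsingular_of_Δ_ne_zero hΔ, equation_iff]
  simp only [CAB]
  linear_combination h

private theorem iso1_some_eq {W : WeierstrassCurve.Affine F} {x y x' y' : F}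
    (h : W.Nonsingular x y) (h' : W.Nonsingular x' y') (hx : x = x') (hy : y = y') :
    Point.some x y h = Point.some x' y' h' := by
  subst hx
  subst hy
  rfl

private theorem iso1_negY (a b x y : F) : (CAB a b).negY x y = -y := by
  simp [CAB, negY]

private theorem iso1_collinear {a b : F} (h2 : (2 : F) ≠ 0) {x₁ x₂ x₃ y₁ y₂ y₃ l n : F}
    (h₁ : (CAB a b).Nonsingular x₁ y₁) (h₂ : (CAB a b).Nonsingular x₂ y₂)
    (h₃ : (CAB a b).Nonsingular x₃ y₃)
    (e₁ : y₁ = l * x₁ + n) (e₂ : y₂ = l * x₂ + n) (e₃ : y₃ = l * x₃ + n)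
    (s1 : x₁ + x₂ + x₃ = l ^ 2 - a) (s2 : x₁ * x₂ + x₁ * x₃ + x₂ * x₃ = b - 2 * l * n) :
    Point.some x₁ y₁ h₁ + Point.some x₂ y₂ h₂ + Point.some x₃ y₃ h₃ = 0 := by
  have hkey : x₁ = x₂ → 3 * x₁ ^ 2 + 2 * a * x₁ + b = 2 * y₁ * l := by
    intro hx
    subst hx
    rw [e₁]
    linear_combination (-1 : F) * s2 + 2 * x₁ * s1
  have hne : ¬ (x₁ = x₂ ∧ y₁ = (CAB a b).negY x₂ y₂) := by
    rintro ⟨hx, hy⟩
    rw [iso1_negY] at hy
    have hk := hkey hx
    have hyy : y₂ = y₁ := by rw [e₂, e₁, hx]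
    rw [hyy] at hy
    have hy0 : y₁ = 0 := by
      have : 2 * y₁ = 0 := by linear_combination hy
      exact (mul_eq_zero.1 this).resolve_left h2
    rw [hy0] at hk
    have hns := ((nonsingular_iff' (W := CAB a b) x₁ y₁).1 h₁).2
    simp only [CAB] at hns
    rw [hy0] at hns
    rcases hns with hh | hh
    · apply hh
      linear_combination (-1 : F) * hk
    · apply hh
      ring
  have hsl : (CAB a b).slope x₁ x₂ y₁ y₂ = l := by
    by_cases hx : x₁ = x₂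
    · have hy : y₁ ≠ (CAB a b).negY x₂ y₂ := fun h => hne ⟨hx, h⟩
      have hyy : y₂ = y₁ := by rw [e₂, e₁, hx]
      rw [slope_of_Y_ne hx hy, iso1_negY]
      rw [iso1_negY, hyy] at hy
      have hy2 : y₁ - -y₁ ≠ 0 := fun h => hy (by linear_combination h)
      rw [div_eq_iff hy2]
      have hk := hkey hx
      simp only [CAB]
      linear_combination hk
    · rw [slope_of_X_ne hx, div_eq_iff (sub_ne_zero.2 hx), e₁, e₂]
      ring
  rw [Point.add_some hne]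
  have hX : (CAB a b).addX x₁ x₂ ((CAB a b).slope x₁ x₂ y₁ y₂) = x₃ := by
    rw [hsl]
    simp only [addX, CAB]
    linear_combination (-1 : F) * s1
  refine Point.add_of_Y_eq hX ?_
  rw [iso1_negY, addY, iso1_negY, negAddY, hX, hsl, e₃, e₁]
  ring

private theorem iso1_line {a b : F} {x₁ x₂ y₁ y₂ : F}
    (h₁ : (CAB a b).Nonsingular x₁ y₁) (h₂ : (CAB a b).Nonsingular x₂ y₂)
    (hne : ¬ (x₁ = x₂ ∧ y₁ = (CAB a b).negY x₂ y₂)) :
    ∃ (l n x₃ : F) (h₃ : (CAB a b).Nonsingular x₃ (l * x₃ + n)),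
      y₁ = l * x₁ + n ∧ y₂ = l * x₂ + n ∧
      x₁ + x₂ + x₃ = l ^ 2 - a ∧ x₁ * x₂ + x₁ * x₃ + x₂ * x₃ = b - 2 * l * n ∧
      x₁ * x₂ * x₃ = n ^ 2 ∧
      Point.some x₁ y₁ h₁ + Point.some x₂ y₂ h₂ = - Point.some x₃ (l * x₃ + n) h₃ := by
  set l := (CAB a b).slope x₁ x₂ y₁ y₂ with hl
  have E1 := iso1_eqn h₁
  have E2 := iso1_eqn h₂
  have hns := nonsingular_negAdd h₁ h₂ hne
  have hX : (CAB a b).addX x₁ x₂ l = l ^ 2 - a - x₁ - x₂ := by
    simp only [addX, CAB]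
    ring
  have hY : (CAB a b).negAddY x₁ x₂ y₁ l = l * (l ^ 2 - a - x₁ - x₂) + (y₁ - l * x₁) := by
    rw [negAddY, hX]
    ring
  rw [← hl, hX, hY] at hns
  have hline : y₂ = l * x₂ + (y₁ - l * x₁) ∧
      x₁ ^ 2 + x₁ * x₂ + x₂ ^ 2 + (a - l ^ 2) * (x₁ + x₂) + (b - 2 * l * (y₁ - l * x₁)) = 0 := by
    by_cases hx : x₁ = x₂
    · have hy : y₁ ≠ (CAB a b).negY x₂ y₂ := fun h => hne ⟨hx, h⟩
      have hyy : y₁ = y₂ := Y_eq_of_Y_ne h₁.1 h₂.1 hx hy
      have hl' := hl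
      rw [slope_of_Y_ne hx hy, iso1_negY] at hl'
      rw [iso1_negY, ← hyy] at hy
      have hy2 : y₁ - -y₁ ≠ 0 := fun h => hy (by linear_combination h)
      rw [eq_div_iff hy2] at hl'
      simp only [CAB] at hl'
      refine ⟨by rw [← hyy, hx]; ring, ?_⟩
      rw [← hx]
      linear_combination (-1 : F) * hl'
    · have hl' := hl
      have hx' : x₁ - x₂ ≠ 0 := sub_ne_zero.2 hx
      rw [slope_of_X_ne hx, eq_div_iff hx'] at hl'
      have h2' : y₂ = l * x₂ + (y₁ - l * x₁) := by linear_combination hl'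
      refine ⟨h2', ?_⟩
      have h3 : (x₁ - x₂) * (x₁ ^ 2 + x₁ * x₂ + x₂ ^ 2 + (a - l ^ 2) * (x₁ + x₂) +
          (b - 2 * l * (y₁ - l * x₁))) = 0 := by
        rw [h2'] at E2
        linear_combination E2 - E1
      exact (mul_eq_zero.1 h3).resolve_left hx'
  obtain ⟨hy2, hq⟩ := hline
  refine ⟨l, y₁ - l * x₁, l ^ 2 - a - x₁ - x₂, hns, by ring, hy2, by ring, ?_, ?_, ?_⟩
  · linear_combination (-1 : F) * hq
  · linear_combination (-x₁) * hq - E1
  · rw [Point.add_some hne, Point.neg_some]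
    refine iso1_some_eq _ _ ?_ ?_
    · rw [← hl, hX]
    · rw [addY, ← hl, hX, hY]

private theorem iso1_vr {A B x y : F} (hE : y ^ 2 = x ^ 3 + A * x ^ 2 + B * x) (hx : x ≠ 0) :
    y ^ 2 / x ^ 2 = (y / x) ^ 2 ∧ y * (x ^ 2 - B) / x ^ 2 = (y / x) * (x - B / x) ∧
      x * (B / x) = B ∧ (y / x) ^ 2 = x + A + B / x := by
  refine ⟨by rw [div_pow], by field_simp, by field_simp, ?_⟩
  field_simp
  linear_combination hE

private theorem iso1_im {A B x y : F} (h2 : (2 : F) ≠ 0) (hB : B ≠ 0)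
    (hD : A ^ 2 - 4 * B ≠ 0) (hE : y ^ 2 = x ^ 3 + A * x ^ 2 + B * x) (hx : x ≠ 0) :
    (CAB (-2 * A) (A ^ 2 - 4 * B)).Nonsingular (y ^ 2 / x ^ 2) (y * (x ^ 2 - B) / x ^ 2) := by
  refine iso1_ns h2 hD ?_ ?_
  · intro h0
    have h16 : (16 : F) ≠ 0 := by
      have : (16 : F) = 2 ^ 4 := by norm_num
      rw [this]
      exact pow_ne_zero _ h2
    exact mul_ne_zero h16 hB (by linear_combination h0)
  · obtain ⟨e1, e2, e3, e4⟩ := iso1_vr hE hx
    rw [e1, e2]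
    generalize y / x = v at *
    generalize B / x = r at *
    have e5 : v ^ 2 * (x - r) ^ 2 = v ^ 2 * ((v ^ 2 - A) ^ 2 - 4 * B) := by
      rw [e4, ← e3]
      ring
    linear_combination e5

/-- the isogeny as a function -/
private noncomputable def iso1F (h2 : (2 : F) ≠ 0) {A B : F} (hB : B ≠ 0)
    (hD : A ^ 2 - 4 * B ≠ 0) : (CAB A B).Point → (CAB (-2 * A) (A ^ 2 - 4 * B)).Point
  | .zero => 0
  | .some x y h => if hx : x = 0 then 0 else .some (y ^ 2 / x ^ 2) (y * (x ^ 2 - B) / x ^ 2)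
      (iso1_im h2 hB hD (iso1_eqn h) hx)

private theorem iso1F_zero (h2 : (2 : F) ≠ 0) {A B : F} (hB : B ≠ 0) (hD : A ^ 2 - 4 * B ≠ 0) :
    iso1F h2 hB hD 0 = 0 := rfl

private theorem iso1F_T (h2 : (2 : F) ≠ 0) {A B : F} (hB : B ≠ 0) (hD : A ^ 2 - 4 * B ≠ 0)
    {x y : F} (h : (CAB A B).Nonsingular x y) (hx : x = 0) :
    iso1F h2 hB hD (.some x y h) = 0 := by
  simp only [iso1F, dif_pos hx]

private theorem iso1F_some (h2 : (2 : F) ≠ 0) {A B : F} (hB : B ≠ 0) (hD : A ^ 2 - 4 * B ≠ 0)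
    {x y : F} (h : (CAB A B).Nonsingular x y) (hx : x ≠ 0) :
    iso1F h2 hB hD (.some x y h) = .some (y ^ 2 / x ^ 2) (y * (x ^ 2 - B) / x ^ 2)
      (iso1_im h2 hB hD (iso1_eqn h) hx) := by
  simp only [iso1F, dif_neg hx]

private theorem iso1F_neg (h2 : (2 : F) ≠ 0) {A B : F} (hB : B ≠ 0) (hD : A ^ 2 - 4 * B ≠ 0)
    (P : (CAB A B).Point) : iso1F h2 hB hD (-P) = - iso1F h2 hB hD P := by
  rcases P with _ | ⟨x, y, h⟩
  · rfl
  · rw [Point.neg_some]
    by_cases hx : x = 0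
    · rw [iso1F_T h2 hB hD _ hx, iso1F_T h2 hB hD _ hx]
      rfl
    · rw [iso1F_some h2 hB hD _ hx, iso1F_some h2 hB hD _ hx, Point.neg_some]
      refine iso1_some_eq _ _ ?_ ?_
      · rw [iso1_negY]
        ring
      · rw [iso1_negY, iso1_negY]
        ring

/-- line through `T` and two other points -/
private theorem iso1_lineT (h2 : (2 : F) ≠ 0) {A B : F} (hB : B ≠ 0) (hD : A ^ 2 - 4 * B ≠ 0)
    {x₂ x₃ y₂ y₃ l : F}
    (h₂ : (CAB A B).Nonsingular x₂ y₂) (h₃ : (CAB A B).Nonsingular x₃ y₃)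
    (e₂ : y₂ = l * x₂) (e₃ : y₃ = l * x₃) (hp : x₂ * x₃ = B) :
    iso1F h2 hB hD (.some x₂ y₂ h₂) + iso1F h2 hB hD (.some x₃ y₃ h₃) = 0 := by
  have hx2 : x₂ ≠ 0 := fun h => hB (by rw [← hp, h, zero_mul])
  have hx3 : x₃ ≠ 0 := fun h => hB (by rw [← hp, h, mul_zero])
  rw [iso1F_some h2 hB hD _ hx2, iso1F_some h2 hB hD _ hx3]
  subst e₂ e₃ hp
  refine Point.add_of_Y_eq ?_ ?_
  · field_simp
  · rw [iso1_negY]
    field_simp
    ring

private theorem iso1_tri (h2 : (2 : F) ≠ 0) {A B : F} (hB : B ≠ 0) (hD : A ^ 2 - 4 * B ≠ 0)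
    {x₁ x₂ x₃ y₁ y₂ y₃ l n : F}
    (h₁ : (CAB A B).Nonsingular x₁ y₁) (h₂ : (CAB A B).Nonsingular x₂ y₂)
    (h₃ : (CAB A B).Nonsingular x₃ y₃)
    (e₁ : y₁ = l * x₁ + n) (e₂ : y₂ = l * x₂ + n) (e₃ : y₃ = l * x₃ + n)
    (s1 : x₁ + x₂ + x₃ = l ^ 2 - A) (s2 : x₁ * x₂ + x₁ * x₃ + x₂ * x₃ = B - 2 * l * n)
    (s3 : x₁ * x₂ * x₃ = n ^ 2) :
    iso1F h2 hB hD (.some x₁ y₁ h₁) + iso1F h2 hB hD (.some x₂ y₂ h₂) +
      iso1F h2 hB hD (.some x₃ y₃ h₃) = 0 := by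
  by_cases hn : n = 0
  · subst hn
    have hp : x₁ * x₂ * x₃ = 0 := by rw [s3]; ring
    simp only [add_zero] at e₁ e₂ e₃
    rcases mul_eq_zero.1 hp with h | h
    · rcases mul_eq_zero.1 h with hx | hx
      · rw [iso1F_T h2 hB hD h₁ hx, zero_add]
        exact iso1_lineT h2 hB hD h₂ h₃ e₂ e₃ (by rw [hx] at s2; linear_combination s2)
      · rw [iso1F_T h2 hB hD h₂ hx, add_zero]
        exact iso1_lineT h2 hB hD h₁ h₃ e₁ e₃ (by rw [hx] at s2; linear_combination s2)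
    · rw [iso1F_T h2 hB hD h₃ h, add_zero]
      exact iso1_lineT h2 hB hD h₁ h₂ e₁ e₂ (by rw [h] at s2; linear_combination s2)
  · have hp : x₁ * x₂ * x₃ ≠ 0 := by rw [s3]; exact pow_ne_zero _ hn
    have hx3 : x₃ ≠ 0 := fun h => hp (by rw [h, mul_zero])
    have hx2 : x₂ ≠ 0 := fun h => hp (by rw [h, mul_zero, zero_mul])
    have hx1 : x₁ ≠ 0 := fun h => hp (by rw [h, zero_mul, zero_mul])
    rw [iso1F_some h2 hB hD _ hx1, iso1F_some h2 hB hD _ hx2, iso1F_some h2 hB hD _ hx3]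
    obtain ⟨b, hb⟩ : ∃ b, B = b * n := ⟨B / n, by field_simp⟩
    -- the three points
    have key : ∀ x y : F, x ≠ 0 → y = l * x + n → (CAB A B).Nonsingular x y →
        y * (x ^ 2 - B) / x ^ 2 = (l - b) * (y ^ 2 / x ^ 2) + (l ^ 2 * b - A * l + n) := by
      intro x y hx e h
      have hE := iso1_eqn h
      have hz : y * (x ^ 2 - B) = (l - b) * y ^ 2 + (l ^ 2 * b - A * l + n) * x ^ 2 := by
        rw [e, hb] at hE
        rw [e, hb]
        linear_combination (-l) * hE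
      have hx2 : x ^ 2 ≠ 0 := pow_ne_zero _ hx
      rw [hz, add_div, mul_div_assoc, mul_div_assoc, div_self hx2, mul_one]
    have sq : ∀ x y : F, x ≠ 0 → y = l * x + n → y ^ 2 / x ^ 2 = (l + n / x) ^ 2 := by
      intro x y hx e
      rw [e]
      field_simp
    have u1 : n / x₁ + n / x₂ + n / x₃ = b - 2 * l := by
      have h : n / x₁ + n / x₂ + n / x₃ =
          n * (x₁ * x₂ + x₁ * x₃ + x₂ * x₃) / (x₁ * x₂ * x₃) := by
        field_simp
        ring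
      rw [h, s2, s3, hb]
      field_simp
    have u2 : n / x₁ * (n / x₂) + n / x₁ * (n / x₃) + n / x₂ * (n / x₃) = l ^ 2 - A := by
      have h : n / x₁ * (n / x₂) + n / x₁ * (n / x₃) + n / x₂ * (n / x₃) =
          n ^ 2 * (x₁ + x₂ + x₃) / (x₁ * x₂ * x₃) := by
        field_simp
        ring
      rw [h, s1, s3]
      field_simp
    have u3 : n / x₁ * (n / x₂) * (n / x₃) = n := by
      have h : n / x₁ * (n / x₂) * (n / x₃) = n ^ 3 / (x₁ * x₂ * x₃) := by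
        field_simp
      rw [h, s3]
      field_simp
    refine iso1_collinear h2 _ _ _ (key _ _ hx1 e₁ h₁) (key _ _ hx2 e₂ h₂) (key _ _ hx3 e₃ h₃) ?_ ?_
    · rw [sq _ _ hx1 e₁, sq _ _ hx2 e₂, sq _ _ hx3 e₃]
      generalize n / x₁ = w1 at *
      generalize n / x₂ = w2 at *
      generalize n / x₃ = w3 at *
      linear_combination (2 * l + (w1 + w2 + w3) + (b - 2 * l)) * u1 - 2 * u2
    · rw [sq _ _ hx1 e₁, sq _ _ hx2 e₂, sq _ _ hx3 e₃]
      generalize n / x₁ = w1 at *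
      generalize n / x₂ = w2 at *
      generalize n / x₃ = w3 at *
      have f1 : (l + w1) + (l + w2) + (l + w3) = l + b := by linear_combination u1
      have f2 : (l + w1) * (l + w2) + (l + w1) * (l + w3) + (l + w2) * (l + w3) =
          2 * l * b - A := by linear_combination u2 + 2 * l * u1
      have f3 : (l + w1) * (l + w2) * (l + w3) = l ^ 2 * b - A * l + n := by
        linear_combination u3 + l * u2 + l ^ 2 * u1
      linear_combination ((l + w1) * (l + w2) + (l + w1) * (l + w3) + (l + w2) * (l + w3) +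
        (2 * l * b - A)) * f2 - 2 * ((l + w1) * (l + w2) * (l + w3)) * f1 -
        2 * (l + b) * f3 + 4 * hb

end Iso1

theorem exists_iso1 {F : Type} [Field F] (h2 : (2 : F) ≠ 0) (A B : F) (hB : B ≠ 0)
    (hD : A ^ 2 - 4 * B ≠ 0) :
    ∃ f : (CAB A B).Point →+ (CAB (-2 * A) (A ^ 2 - 4 * B)).Point,
      (∀ (y : F) (h : (CAB A B).Nonsingular 0 y), f (.some 0 y h) = 0) ∧
      (∀ (x y : F) (h : (CAB A B).Nonsingular x y), x ≠ 0 →
        ∃ h', f (.some x y h) = .some (y ^ 2 / x ^ 2) (y * (x ^ 2 - B) / x ^ 2) h') := by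
  refine ⟨AddMonoidHom.mk' (iso1F h2 hB hD) ?_, ?_, ?_⟩
  · rintro (_ | ⟨x₁, y₁, h₁⟩) (_ | ⟨x₂, y₂, h₂⟩)
    · change iso1F h2 hB hD (0 + 0) = iso1F h2 hB hD 0 + iso1F h2 hB hD 0
      rw [add_zero, iso1F_zero, add_zero]
    · change iso1F h2 hB hD (0 + _) = iso1F h2 hB hD 0 + _
      rw [zero_add, iso1F_zero, zero_add]
    · change iso1F h2 hB hD (_ + 0) = _ + iso1F h2 hB hD 0
      rw [add_zero, iso1F_zero, add_zero]
    · by_cases hne : x₁ = x₂ ∧ y₁ = (CAB A B).negY x₂ y₂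
      · have h12 : Point.some x₁ y₁ h₁ = - Point.some x₂ y₂ h₂ := by
          rw [Point.neg_some]
          exact iso1_some_eq _ _ hne.1 hne.2
        rw [h12, iso1F_neg, neg_add_cancel, neg_add_cancel, iso1F_zero]
      · obtain ⟨l, n, x₃, h₃, e₁, e₂, s1, s2, s3, hs⟩ := iso1_line h₁ h₂ hne
        have ht := iso1_tri h2 hB hD h₁ h₂ h₃ e₁ e₂ rfl s1 s2 s3
        rw [hs, iso1F_neg]
        exact (eq_neg_of_add_eq_zero_left ht).symm
  · intro y h
    exact iso1F_T h2 hB hD h rfl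
  · intro x y h hx
    exact ⟨_, iso1F_some h2 hB hD h hx⟩

end SC15.EC
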