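import Mathlib

/-!
Module SC15-B-VC (0.4 h): a change of Weierstrass coordinates is additive on points.

Plan. `x = u^2 x' + r`, `y = u^3 y' + s u^2 x' + t`. Equation and nonsingularity transform
(`WeierstrassCurve.Affine.equation_iff`, `nonsingular_iff'`; the partial derivatives transform by
`u^3`, `u^4`; or use Mathlib `WeierstrassCurve.VariableChange` if convenient). Additivity: `negY`
transforms correctly, `slope` transforms as `l = u l' + s` (cases `x1 <> x2`, and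
`x1 = x2`, `y1 <> negY`), then `addX`, `addY` transform correctly (`ring` after inserting the five
relations, solved for the coefficients of `W'`: `a1' = (a1 + 2 s) / u` etc., `field_simp`).
Use `Point.add_some`, `Point.add_of_Y_eq`, `Point.neg_some`, `map_add'` by cases.
-/

open scoped Classical

namespace SC15.EC

open WeierstrassCurve WeierstrassCurve.Affine

section VCaux

variable {F : Type} [Field F] {W W' : WeierstrassCurve.Affine F} {u r s t : F}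

/-- the relations between the coefficients -/
private structure VCRel (W W' : WeierstrassCurve.Affine F) (u r s t : F) : Prop where
  u0 : u ≠ 0
  h1 : u * W'.a₁ = W.a₁ + 2 * s
  h2 : u ^ 2 * W'.a₂ = W.a₂ - s * W.a₁ + 3 * r - s ^ 2
  h3 : u ^ 3 * W'.a₃ = W.a₃ + r * W.a₁ + 2 * t
  h4 : u ^ 4 * W'.a₄ = W.a₄ - s * W.a₃ + 2 * r * W.a₂ - (t + r * s) * W.a₁ + 3 * r ^ 2
      - 2 * s * t
  h6 : u ^ 6 * W'.a₆ = W.a₆ + r * W.a₄ + r ^ 2 * W.a₂ + r ^ 3 - t * W.a₃ - t ^ 2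
      - r * t * W.a₁

private theorem vc_eq (R : VCRel W W' u r s t) {x y : F} (h : W'.Equation x y) :
    W.Equation (u ^ 2 * x + r) (u ^ 3 * y + s * u ^ 2 * x + t) := by
  rw [equation_iff] at h ⊢
  linear_combination u ^ 6 * h - u ^ 5 * x * y * R.h1 - u ^ 3 * y * R.h3 +
    u ^ 4 * x ^ 2 * R.h2 + u ^ 2 * x * R.h4 + R.h6

private theorem vc_negY (R : VCRel W W' u r s t) (x y : F) :
    W.negY (u ^ 2 * x + r) (u ^ 3 * y + s * u ^ 2 * x + t) =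
      u ^ 3 * W'.negY x y + s * u ^ 2 * x + t := by
  simp only [negY]
  linear_combination u ^ 2 * x * R.h1 + R.h3

private theorem vc_FY (R : VCRel W W' u r s t) (x y : F) :
    2 * (u ^ 3 * y + s * u ^ 2 * x + t) + W.a₁ * (u ^ 2 * x + r) + W.a₃ =
      u ^ 3 * (2 * y + W'.a₁ * x + W'.a₃) := by
  linear_combination -(u ^ 2 * x * R.h1) - R.h3

private theorem vc_FX (R : VCRel W W' u r s t) (x y : F) :
    W.a₁ * (u ^ 3 * y + s * u ^ 2 * x + t) -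
      (3 * (u ^ 2 * x + r) ^ 2 + 2 * W.a₂ * (u ^ 2 * x + r) + W.a₄) =
      u ^ 4 * (W'.a₁ * y - (3 * x ^ 2 + 2 * W'.a₂ * x + W'.a₄)) -
        s * (u ^ 3 * (2 * y + W'.a₁ * x + W'.a₃)) := by
  linear_combination -(u ^ 3 * y * R.h1) + 2 * u ^ 2 * x * R.h2 + R.h4 + s * (u ^ 2 * x * R.h1)
    + s * R.h3

private theorem vc_ns (R : VCRel W W' u r s t) {x y : F} (h : W'.Nonsingular x y) :
    W.Nonsingular (u ^ 2 * x + r) (u ^ 3 * y + s * u ^ 2 * x + t) := by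
  rw [nonsingular_iff'] at h ⊢
  refine ⟨vc_eq R h.1, ?_⟩
  by_cases hY : 2 * y + W'.a₁ * x + W'.a₃ = 0
  · left
    rw [vc_FX R x y, hY, mul_zero, mul_zero, sub_zero]
    rcases h.2 with h2 | h2
    · exact mul_ne_zero (pow_ne_zero _ R.u0) h2
    · exact absurd hY h2
  · right
    rw [vc_FY R x y]
    exact mul_ne_zero (pow_ne_zero _ R.u0) hY

private theorem vc_cond (R : VCRel W W' u r s t) (x₁ x₂ y₁ y₂ : F) :
    (u ^ 2 * x₁ + r = u ^ 2 * x₂ + r ∧ u ^ 3 * y₁ + s * u ^ 2 * x₁ + t =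
      W.negY (u ^ 2 * x₂ + r) (u ^ 3 * y₂ + s * u ^ 2 * x₂ + t)) ↔
      (x₁ = x₂ ∧ y₁ = W'.negY x₂ y₂) := by
  have hu2 : u ^ 2 ≠ 0 := pow_ne_zero _ R.u0
  have hu3 : u ^ 3 ≠ 0 := pow_ne_zero _ R.u0
  rw [vc_negY R]
  constructor
  · rintro ⟨a, b⟩
    have hx : x₁ = x₂ := mul_left_cancel₀ hu2 (by linear_combination a)
    refine ⟨hx, ?_⟩
    rw [hx] at b
    exact mul_left_cancel₀ hu3 (by linear_combination b)
  · rintro ⟨a, b⟩
    rw [a, b]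
    exact ⟨rfl, rfl⟩

private theorem vc_slope (R : VCRel W W' u r s t) {x₁ x₂ y₁ y₂ : F} (h₁ : W'.Equation x₁ y₁)
    (h₂ : W'.Equation x₂ y₂) (hxy : ¬(x₁ = x₂ ∧ y₁ = W'.negY x₂ y₂)) :
    W.slope (u ^ 2 * x₁ + r) (u ^ 2 * x₂ + r) (u ^ 3 * y₁ + s * u ^ 2 * x₁ + t)
      (u ^ 3 * y₂ + s * u ^ 2 * x₂ + t) = u * W'.slope x₁ x₂ y₁ y₂ + s := by
  have hu := R.u0
  have hu2 : u ^ 2 ≠ 0 := pow_ne_zero _ R.u0
  have hu3 : u ^ 3 ≠ 0 := pow_ne_zero _ R.u0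
  by_cases hx : x₁ = x₂
  · have hy : y₁ ≠ W'.negY x₂ y₂ := fun h => hxy ⟨hx, h⟩
    obtain ⟨rfl, rfl⟩ : x₁ = x₂ ∧ y₁ = y₂ := ⟨hx, Y_eq_of_Y_ne h₁ h₂ hx hy⟩
    have hy' : u ^ 3 * y₁ + s * u ^ 2 * x₁ + t ≠
        W.negY (u ^ 2 * x₁ + r) (u ^ 3 * y₁ + s * u ^ 2 * x₁ + t) := by
      intro h
      exact hxy ((vc_cond R x₁ x₁ y₁ y₁).1 ⟨rfl, h⟩)
    rw [slope_of_Y_ne rfl hy', slope_of_Y_ne rfl hy]
    have e1 : u ^ 3 * y₁ + s * u ^ 2 * x₁ + t -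
        W.negY (u ^ 2 * x₁ + r) (u ^ 3 * y₁ + s * u ^ 2 * x₁ + t) =
        u ^ 3 * (2 * y₁ + W'.a₁ * x₁ + W'.a₃) := by
      rw [← vc_FY R x₁ y₁]
      simp only [negY]
      ring
    have e2 : y₁ - W'.negY x₁ y₁ = 2 * y₁ + W'.a₁ * x₁ + W'.a₃ := by
      simp only [negY]
      ring
    have e3 : 3 * (u ^ 2 * x₁ + r) ^ 2 + 2 * W.a₂ * (u ^ 2 * x₁ + r) + W.a₄ -
        W.a₁ * (u ^ 3 * y₁ + s * u ^ 2 * x₁ + t) =
        u ^ 4 * (3 * x₁ ^ 2 + 2 * W'.a₂ * x₁ + W'.a₄ - W'.a₁ * y₁) +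
        s * (u ^ 3 * (2 * y₁ + W'.a₁ * x₁ + W'.a₃)) := by
      linear_combination -(vc_FX R x₁ y₁)
    have hne : 2 * y₁ + W'.a₁ * x₁ + W'.a₃ ≠ 0 := by
      rw [← e2]
      exact sub_ne_zero.2 hy
    rw [e1, e2, e3]
    generalize 2 * y₁ + W'.a₁ * x₁ + W'.a₃ = q at hne ⊢
    generalize 3 * x₁ ^ 2 + 2 * W'.a₂ * x₁ + W'.a₄ - W'.a₁ * y₁ = n
    field_simp
  · have hX : u ^ 2 * x₁ + r ≠ u ^ 2 * x₂ + r := by
      intro h
      exact hx (mul_left_cancel₀ hu2 (by linear_combination h))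
    rw [slope_of_X_ne hX, slope_of_X_ne hx]
    have hne : x₁ - x₂ ≠ 0 := sub_ne_zero.2 hx
    have e1 : u ^ 2 * x₁ + r - (u ^ 2 * x₂ + r) = u ^ 2 * (x₁ - x₂) := by ring
    rw [e1]
    field_simp
    ring

private theorem vc_addX (R : VCRel W W' u r s t) (x₁ x₂ l : F) :
    W.addX (u ^ 2 * x₁ + r) (u ^ 2 * x₂ + r) (u * l + s) = u ^ 2 * W'.addX x₁ x₂ l + r := by
  simp only [addX]
  linear_combination -(u * l * R.h1) + R.h2

private theorem vc_addY (R : VCRel W W' u r s t) (x₁ x₂ y₁ l : F) :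
    W.addY (u ^ 2 * x₁ + r) (u ^ 2 * x₂ + r) (u ^ 3 * y₁ + s * u ^ 2 * x₁ + t) (u * l + s) =
      u ^ 3 * W'.addY x₁ x₂ y₁ l + s * u ^ 2 * W'.addX x₁ x₂ l + t := by
  have h := vc_negY R (W'.addX x₁ x₂ l) (W'.negAddY x₁ x₂ y₁ l)
  have e1 : W.negAddY (u ^ 2 * x₁ + r) (u ^ 2 * x₂ + r) (u ^ 3 * y₁ + s * u ^ 2 * x₁ + t)
      (u * l + s) = u ^ 3 * W'.negAddY x₁ x₂ y₁ l + s * u ^ 2 * W'.addX x₁ x₂ l + t := by
    rw [negAddY, vc_addX R, negAddY]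
    ring
  rw [addY, addY, vc_addX R, e1, h]

end VCaux

theorem exists_vc {F : Type} [Field F] (W W' : WeierstrassCurve.Affine F) (u r s t : F)
    (hu : u ≠ 0) (h1 : u * W'.a₁ = W.a₁ + 2 * s)
    (h2 : u ^ 2 * W'.a₂ = W.a₂ - s * W.a₁ + 3 * r - s ^ 2)
    (h3 : u ^ 3 * W'.a₃ = W.a₃ + r * W.a₁ + 2 * t)
    (h4 : u ^ 4 * W'.a₄ = W.a₄ - s * W.a₃ + 2 * r * W.a₂ - (t + r * s) * W.a₁ + 3 * r ^ 2
      - 2 * s * t)
    (h6 : u ^ 6 * W'.a₆ = W.a₆ + r * W.a₄ + r ^ 2 * W.a₂ + r ^ 3 - t * W.a₃ - t ^ 2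
      - r * t * W.a₁) :
    ∃ f : W'.Point →+ W.Point, ∀ (x y : F) (h : W'.Nonsingular x y),
      ∃ h', f (.some x y h) = .some (u ^ 2 * x + r) (u ^ 3 * y + s * u ^ 2 * x + t) h' := by
  have R : VCRel W W' u r s t := ⟨hu, h1, h2, h3, h4, h6⟩
  refine ⟨{ toFun := fun P => match P with
              | .zero => .zero
              | .some _ _ h => .some _ _ (vc_ns R h)
            map_zero' := rfl
            map_add' := ?_ }, fun x y h => ⟨vc_ns R h, rfl⟩⟩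
  rintro (_ | ⟨x₁, y₁, h₁⟩) (_ | ⟨x₂, y₂, h₂⟩)
  · rfl
  · rfl
  · rfl
  · by_cases hxy : x₁ = x₂ ∧ y₁ = W'.negY x₂ y₂
    · have hXY := (vc_cond R x₁ x₂ y₁ y₂).2 hxy
      have e1 : (Point.some x₁ y₁ h₁ : W'.Point) + Point.some x₂ y₂ h₂ = 0 :=
        Point.add_of_Y_eq hxy.1 hxy.2
      have e2 : (Point.some _ _ (vc_ns R h₁) : W.Point) + Point.some _ _ (vc_ns R h₂) = 0 :=
        Point.add_of_Y_eq hXY.1 hXY.2
      rw [e1]
      exact e2.symm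
    · have hXY : ¬ _ := fun h => hxy ((vc_cond R x₁ x₂ y₁ y₂).1 h)
      have e1 : (Point.some x₁ y₁ h₁ : W'.Point) + Point.some x₂ y₂ h₂ =
        Point.some _ _ (nonsingular_add h₁ h₂ hxy) := Point.add_some hxy
      have e2 : (Point.some _ _ (vc_ns R h₁) : W.Point) + Point.some _ _ (vc_ns R h₂) =
        Point.some _ _ (nonsingular_add (vc_ns R h₁) (vc_ns R h₂) hXY) := Point.add_some hXY
      rw [e1]
      refine Eq.trans ?_ e2.symm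
      change (Point.some _ _ (vc_ns R (nonsingular_add h₁ h₂ hxy)) : W.Point) = _
      rw [Point.some.injEq, vc_slope R h₁.1 h₂.1 hxy, vc_addX R, vc_addY R]
      exact ⟨rfl, rfl⟩

end SC15.EC
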