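import Mathlib
import Pool.Agent.SC15.B.Core
import Pool.Agent.SC15.B.Ht
import Pool.Agent.SC15.B.VC
import Pool.Agent.SC15.B.Iso1

/-!
Module SC15-B-ISO2 (0.9 h): the natural isogenies of degree two `E_{al s} → E_{be s}`.

`Isog b b' m d`: a natural family of homomorphisms `E_b(M) → E_{b'}(M)` for all fields `M ⊇ k`, multiplying
heights of `x`-coordinates by `d` and the invariant differential by `m`.
Parameters: `mm = -(3+s)/(6(1+s))`, `al s = mm^2 (1 + 2 mm)`; `mm' = s/6`, `be s = mm'^2 (1 + 2 mm')`;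
`c = 2/(1+s)`. `E_b` with `b = m^2(1+2m)` has the 2-torsion point with `x = -m^2`, and with
`xi = x + m^2`, `eta = y + (x + b)/2` it becomes `C_{A,B}`, `A = 1/4 - 3 m^2`, `B = m^3 (3 m + 1)`
(`A^2 - 4B = (1 - 6m)(1+2m)^3/16`). Identities (field_simp; ring):
 `-2 A(mm) = c^2 A(mm')`, `A(mm)^2 - 4 B(mm) = c^4 B(mm')`.
So `E_{al s} → C_{A,B}` (`exists_vc` with `W = CAB A B`, `W' = E`, `u = 1, r = mm^2, s = 1/2, t = al/2`;
  note `xi = x + mm^2`), then `exists_iso1`, then `C_{-2A, A^2-4B} → E_{be s}` (`exists_vc` with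
  `u = 1/c = (1+s)/2`, `r = -mm'^2`, `s = -1/2`, `t = -(be + r)/2`).
Composite: `(x, y) ↦ (x', y')` with `x' = c^(-2) eta^2/xi^2 - mm'^2 = c^(-2) (xi^2 + A xi + B)/xi - mm'^2`,
 `2 y' + x' + be = 2 c^(-3) eta (xi^2 - B)/xi^2` if `xi <> 0`, and `0` if `xi = 0`.
 * `nat`: by these explicit formulas (`map_div₀`, `Point.map_some`), case `xi = 0` included: the family is
 chosen by `Classical.choose`, so first prove the formulas, then naturality.
 * `deg`: for `x = algebraMap r`, `r` not constant: `xi <> 0`, and `x' = aeval r N / aeval r D` with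
 `D = X + C (mm^2)`, `N = C (c^(-2)) (D^2 + C A D + C B) - C (mm'^2) D`, coprime since `B <> 0`,
 degrees 2 and 1: `ht_comp`. The new `r'` is not constant since `ht r' = 2 ht r > 0` (`ht_C`,
 `ht_eq_zero`).
 * `del`: with `dl_unique` / `dl_spec` of `Helper54/InvDiff.lean` (or `dlHom`): for `D` a `k`-derivation,
 `D x' = c^(-2) (1 - B/xi^2) D x` and `2 y' + x' + be = c^(-3) (1 - B/xi^2) (2 y + x + al)`, so
 `delta' = c delta`; if `2 y + x + al = 0` (a 2-torsion point) or `1 = B/xi^2` or `xi = 0` use that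
 the coordinates satisfy a separable equation over `k`, or simply: in these cases `P + P = 0` or
 `f P + f P = 0`, and `dlHom` is additive with `2 <> 0`, so the deltas vanish (if `1 = B/xi^2`, then `xi` is
 a constant, `D xi = 0`, and `2 y + x + al <> 0`, delta vanishes).
-/

set_option linter.unusedSimpArgs false

open Polynomial
open scoped Classical

namespace SC15.EC

open Pool.Agent.Helper54.InvDiff

variable {k : Type} [Field k]

/-- a natural family of homomorphisms `E_b(M) → E_{b'}(M)` with multiplier `m` and degree `d` -/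
structure Isog (b b' m : k) (d : ℕ) where
  f : ∀ (M : Type) [Field M] [Algebra k M], Pt b M →+ Pt b' M
  nat : ∀ (M M' : Type) [Field M] [Algebra k M] [Field M'] [Algebra k M'] (ρ : M →ₐ[k] M')
    (P : Pt b M), f M' (pmap b ρ P) = pmap b' ρ (f M P)
  deg : ∀ (M : Type) [Field M] [Algebra k M] [Algebra (RatFunc k) M]
    [IsScalarTower k (RatFunc k) M] (r : RatFunc k) (_ : ∀ c, r ≠ RatFunc.C c) (y : M)
    (h : ((Eb b).baseChange M).toAffine.Nonsingular (algebraMap (RatFunc k) M r) y),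
    ∃ r' : RatFunc k, (∀ c, r' ≠ RatFunc.C c) ∧ ht r' = d * ht r ∧
      ∃ (y' : M) (h' : ((Eb b').baseChange M).toAffine.Nonsingular
        (algebraMap (RatFunc k) M r') y'),
        f M (.some (algebraMap (RatFunc k) M r) y h) = .some (algebraMap (RatFunc k) M r') y' h'
  del : ∀ (M : Type) [Field M] [Algebra k M] (D : Derivation k M M) (P : Pt b M),
    dl (D.restrictScalars ℤ) ((Eb b').baseChange M).toAffine (f M P) =
      algebraMap k M m * dl (D.restrictScalars ℤ) ((Eb b).baseChange M).toAffine P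

/-- composition -/
noncomputable def Isog.comp {b b' b'' m m' : k} {d d' : ℕ} (g : Isog b' b'' m' d') (f : Isog b b' m d) :
    Isog b b'' (m' * m) (d' * d) where
  f M _ _ := (g.f M).comp (f.f M)
  nat M M' _ _ _ _ ρ P := by
    simp [f.nat, g.nat]
  deg M _ _ _ _ r hr y h := by
    obtain ⟨r', hr', e', y', h', E'⟩ := f.deg M r hr y h
    obtain ⟨r'', hr'', e'', y'', h'', E''⟩ := g.deg M r' hr' y' h'
    refine ⟨r'', hr'', by rw [e'', e', mul_assoc], y'', h'', ?_⟩
    simp [E', E'']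
  del M _ _ D P := by
    simp [f.del, g.del, mul_assoc]

/-- the source parameter -/
def al (s : k) : k := s * (3 + s) ^ 2 / (54 * (1 + s) ^ 3)

/-- the target parameter -/
def be (s : k) : k := s ^ 2 * (3 + s) / 108

private theorem iso2_fam {F : Type} [Field F] (h2 : (2 : F) ≠ 0) (m m' u a e A B : F)
    (ha : a = m ^ 2 * (1 + 2 * m)) (he : e = m' ^ 2 * (1 + 2 * m')) (hu : u ≠ 0)
    (hA : A = 1 / 4 - 3 * m ^ 2) (hBd : B = m ^ 3 * (3 * m + 1)) (hB : B ≠ 0)
    (hD : A ^ 2 - 4 * B ≠ 0) (hA' : u ^ 2 * (-2 * A) = 1 / 4 - 3 * m' ^ 2)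
    (hB' : u ^ 4 * (A ^ 2 - 4 * B) = m' ^ 3 * (3 * m' + 1))
    (W W' : WeierstrassCurve.Affine F) (hW : W = ⟨1, 0, a, 0, 0⟩) (hW' : W' = ⟨1, 0, e, 0, 0⟩) :
    ∃ f : W.Point →+ W'.Point,
      (∀ (x y : F) (h : W.Nonsingular x y), x + m ^ 2 = 0 → f (.some x y h) = 0) ∧
      (∀ (x y : F) (h : W.Nonsingular x y), x + m ^ 2 ≠ 0 → ∃ h', f (.some x y h) =
        .some (u ^ 2 * ((y + (x + a) / 2) ^ 2 / (x + m ^ 2) ^ 2) - m' ^ 2)
          (u ^ 3 * ((y + (x + a) / 2) * ((x + m ^ 2) ^ 2 - B) / (x + m ^ 2) ^ 2) -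
            (u ^ 2 * ((y + (x + a) / 2) ^ 2 / (x + m ^ 2) ^ 2) - m' ^ 2 + e) / 2) h') := by
  have h4 : (4 : F) ≠ 0 := by
    have : (4 : F) = 2 * 2 := by norm_num
    rw [this]; exact mul_ne_zero h2 h2
  obtain ⟨g1, hg1⟩ := exists_vc (CAB A B) W 1 (m ^ 2) (1 / 2) (a / 2) one_ne_zero
    (by rw [hW]; simp only [CAB]; field_simp; ring)
    (by rw [hW]; simp only [CAB]; rw [hA]; field_simp; ring)
    (by rw [hW]; simp only [CAB]; field_simp; ring)
    (by rw [hW]; simp only [CAB]; rw [hA, hBd, ha]; field_simp; ring)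
    (by rw [hW]; simp only [CAB]; rw [hA, hBd, ha]; field_simp; ring)
  obtain ⟨g2, hg2, hg2'⟩ := exists_iso1 h2 A B hB hD
  obtain ⟨g3, hg3⟩ := exists_vc W' (CAB (-2 * A) (A ^ 2 - 4 * B)) u (-m' ^ 2) (-(1 / 2)) (-(e - m' ^ 2) / 2) hu
    (by rw [hW']; simp only [CAB]; field_simp; ring)
    (by rw [hW']; simp only [CAB]; rw [hA']; field_simp; ring)
    (by rw [hW']; simp only [CAB]; field_simp; ring)
    (by rw [hW']; simp only [CAB]; rw [hB', he]; field_simp; ring)
    (by rw [hW']; simp only [CAB]; rw [he]; field_simp; ring)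
  refine ⟨g3.comp (g2.comp g1), fun x y h hx => ?_, fun x y h hx => ?_⟩
  · obtain ⟨h1, e1⟩ := hg1 x y h
    have key : ∀ (x' y' : F) (h' : (CAB A B).Nonsingular x' y'), x' = 0 → g2 (.some x' y' h') = 0 := by
      rintro x' y' h' rfl
      exact hg2 y' h'
    rw [AddMonoidHom.comp_apply, AddMonoidHom.comp_apply, e1, key _ _ h1 (by linear_combination hx), map_zero]
  · obtain ⟨h1, e1⟩ := hg1 x y h
    have hx' : (1 : F) ^ 2 * x + m ^ 2 ≠ 0 := by
      rw [one_pow, one_mul]; exact hx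
    obtain ⟨h2', e2⟩ := hg2' _ _ h1 hx'
    obtain ⟨h3, e3⟩ := hg3 _ _ h2'
    rw [AddMonoidHom.comp_apply, AddMonoidHom.comp_apply, e1, e2, e3]
    have eX : u ^ 2 * ((1 ^ 3 * y + 1 / 2 * 1 ^ 2 * x + a / 2) ^ 2 / (1 ^ 2 * x + m ^ 2) ^ 2) + -m' ^ 2 =
        u ^ 2 * ((y + (x + a) / 2) ^ 2 / (x + m ^ 2) ^ 2) - m' ^ 2 := by
      have t1 : (1 : F) ^ 3 * y + 1 / 2 * 1 ^ 2 * x + a / 2 = y + (x + a) / 2 := by ring
      have t2 : (1 : F) ^ 2 * x + m ^ 2 = x + m ^ 2 := by ring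
      rw [t1, t2]
      ring
    have eY : u ^ 3 * ((1 ^ 3 * y + 1 / 2 * 1 ^ 2 * x + a / 2) * ((1 ^ 2 * x + m ^ 2) ^ 2 - B) /
          (1 ^ 2 * x + m ^ 2) ^ 2) + -(1 / 2) * u ^ 2 * ((1 ^ 3 * y + 1 / 2 * 1 ^ 2 * x + a / 2) ^ 2 /
          (1 ^ 2 * x + m ^ 2) ^ 2) + -(e - m' ^ 2) / 2 =
        u ^ 3 * ((y + (x + a) / 2) * ((x + m ^ 2) ^ 2 - B) / (x + m ^ 2) ^ 2) -
            (u ^ 2 * ((y + (x + a) / 2) ^ 2 / (x + m ^ 2) ^ 2) - m' ^ 2 + e) / 2 := by
      have t1 : (1 : F) ^ 3 * y + 1 / 2 * 1 ^ 2 * x + a / 2 = y + (x + a) / 2 := by ring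
      have t2 : (1 : F) ^ 2 * x + m ^ 2 = x + m ^ 2 := by ring
      rw [t1, t2]
      ring
    have key : ∀ (x1 y1 x2 y2 : F) (h1 : W'.Nonsingular x1 y1), x1 = x2 → y1 = y2 →
        ∃ h2, (WeierstrassCurve.Affine.Point.some x1 y1 h1 : W'.Point) = .some x2 y2 h2 := by
      rintro x1 y1 x2 y2 h1 rfl rfl
      exact ⟨h1, rfl⟩
    exact key _ _ _ _ h3 eX eY

private theorem iso2_der {M : Type} [Field M] (D : Derivation ℤ M M) {A B ξ η δ : M}
    (hB : D B = 0) (hξ : ξ ≠ 0) (hc : η ^ 2 = ξ ^ 3 + A * ξ ^ 2 + B * ξ) (h1 : D ξ = 2 * δ * η)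
    (h2 : D η = δ * (3 * ξ ^ 2 + 2 * A * ξ + B)) :
    D (η ^ 2 / ξ ^ 2) = 2 * δ * (η * (ξ ^ 2 - B) / ξ ^ 2) ∧
    D (η * (ξ ^ 2 - B) / ξ ^ 2) =
      δ * (3 * (η ^ 2 / ξ ^ 2) ^ 2 - 4 * A * (η ^ 2 / ξ ^ 2) + (A ^ 2 - 4 * B)) := by
  obtain ⟨X, hX⟩ : ∃ X, X = η ^ 2 / ξ ^ 2 := ⟨_, rfl⟩
  obtain ⟨Y, hY⟩ : ∃ Y, Y = η * (ξ ^ 2 - B) / ξ ^ 2 := ⟨_, rfl⟩
  have hX' : X * ξ ^ 2 = η ^ 2 := by rw [hX]; field_simp
  have hY' : Y * ξ ^ 2 = η * (ξ ^ 2 - B) := by rw [hY]; field_simp
  have hx4 : ξ ^ 4 ≠ 0 := pow_ne_zero 4 hξ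
  rw [← hX, ← hY]
  have d1 := congrArg D hX'
  have d2 := congrArg D hY'
  simp only [map_sub, Derivation.leibniz, Derivation.leibniz_pow, hB, smul_eq_mul, nsmul_eq_mul] at d1 d2
  push_cast at d1 d2
  rw [h1, h2] at d1 d2
  constructor
  · apply mul_left_cancel₀ hx4
    linear_combination ξ ^ 2 * d1 - 4 * δ * η * ξ * hX' - 2 * δ * ξ ^ 2 * hY' - 4 * δ * η * ξ * hc
  · apply mul_left_cancel₀ hx4
    have e : ξ ^ 4 * (δ * (3 * X ^ 2 - 4 * A * X + (A ^ 2 - 4 * B))) =
        δ * (3 * (X * ξ ^ 2) ^ 2 - 4 * A * (X * ξ ^ 2) * ξ ^ 2 + (A ^ 2 - 4 * B) * ξ ^ 4) := by ring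
    rw [e, hX']
    linear_combination ξ ^ 2 * d2 - 4 * δ * η * ξ * hY' +
      δ * (4 * B * ξ + 4 * A * ξ ^ 2 - 3 * (η ^ 2 + ξ ^ 3 + A * ξ ^ 2 + B * ξ)) * hc

private theorem iso2_ht (r : RatFunc k) (hr : ∀ c, r ≠ RatFunc.C c) (μ A B v ρ : k) (hB : B ≠ 0)
    (hv : v ≠ 0) :
    ∃ r' : RatFunc k, (∀ c, r' ≠ RatFunc.C c) ∧ ht r' = 2 * ht r ∧ r + RatFunc.C μ ≠ 0 ∧
      r' = RatFunc.C v * (((r + RatFunc.C μ) ^ 2 + RatFunc.C A * (r + RatFunc.C μ) + RatFunc.C B) /
        (r + RatFunc.C μ)) - RatFunc.C ρ := by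
  obtain ⟨Q, hQ⟩ : ∃ Q : k[X], Q = X + C μ := ⟨_, rfl⟩
  obtain ⟨N, hN⟩ : ∃ N : k[X], N = C v * ((X + C μ) ^ 2 + C A * (X + C μ) + C B) - C ρ * (X + C μ) := ⟨_, rfl⟩
  have hQd : Q.natDegree = 1 := by rw [hQ]; compute_degree!
  have hNd : N.natDegree = 2 := by rw [hN]; compute_degree!
  have hQ0 : Q ≠ 0 := by
    intro h
    rw [h] at hQd
    simp at hQd
  have hcop : IsCoprime N Q := by
    have h1 : IsCoprime (C (v * B)) Q := by
      refine ⟨C (v * B)⁻¹, 0, ?_⟩
      rw [zero_mul, add_zero, ← C_mul, inv_mul_cancel₀ (mul_ne_zero hv hB), C_1]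
    have h2 := h1.add_mul_left_left (C v * (X + C μ) + C v * C A - C ρ)
    have h3 : C (v * B) + Q * (C v * (X + C μ) + C v * C A - C ρ) = N := by
      rw [hN, hQ, C_mul]; ring
    rwa [h3] at h2
  obtain ⟨h1, h2⟩ := ht_comp r hr N Q hcop hQ0
  have eQ : aeval r Q = r + RatFunc.C μ := by
    rw [hQ, map_add, aeval_X, aeval_C, RatFunc.algebraMap_eq_C]
  have eN : aeval r N = RatFunc.C v * ((r + RatFunc.C μ) ^ 2 + RatFunc.C A * (r + RatFunc.C μ) + RatFunc.C B) -
      RatFunc.C ρ * (r + RatFunc.C μ) := by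
    rw [hN]
    simp only [map_sub, map_add, map_mul, map_pow, aeval_X, aeval_C, RatFunc.algebraMap_eq_C]
  rw [hNd, hQd] at h2
  rw [eQ] at h1
  refine ⟨aeval r N / aeval r Q, fun c hc => ?_, h2, h1, ?_⟩
  · rw [hc, ht_C] at h2
    have h3 : 2 * ht r = 0 := h2.symm
    obtain ⟨c', hc'⟩ := ht_eq_zero (r := r) (by omega)
    exact hr c' hc'
  · rw [eN, eQ]
    field_simp

private def i2X {F : Type} [Field F] (m m' u a x y : F) : F :=
  u ^ 2 * ((y + (x + a) / 2) ^ 2 / (x + m ^ 2) ^ 2) - m' ^ 2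

private def i2Y {F : Type} [Field F] (m m' u a e B x y : F) : F :=
  u ^ 3 * ((y + (x + a) / 2) * ((x + m ^ 2) ^ 2 - B) / (x + m ^ 2) ^ 2) -
    (i2X m m' u a x y + e) / 2

private theorem iso2_curve {F : Type} [Field F] (h2 : (2 : F) ≠ 0) {m a A B x y : F}
    (ha : a = m ^ 2 * (1 + 2 * m)) (hA : A = 1 / 4 - 3 * m ^ 2) (hB : B = m ^ 3 * (3 * m + 1))
    (h : y ^ 2 + x * y + a * y = x ^ 3) :
    (y + (x + a) / 2) ^ 2 = (x + m ^ 2) ^ 3 + A * (x + m ^ 2) ^ 2 + B * (x + m ^ 2) := by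
  obtain ⟨t, ht⟩ : ∃ t : F, t = 2⁻¹ := ⟨_, rfl⟩
  have ht2 : 2 * t = 1 := by rw [ht]; exact mul_inv_cancel₀ h2
  have h14 : (1 / 4 : F) = t ^ 2 := by
    rw [ht, inv_pow, one_div]; norm_num
  rw [ha] at h
  rw [hA, hB, ha, div_eq_mul_inv _ (2 : F), ← ht, h14]
  linear_combination h + (y * (x + m ^ 2 * (1 + 2 * m)) +
    (2 * t + 1) * (m ^ 3 * (x + m ^ 2) + m ^ 6)) * ht2

private theorem iso2_der2 {M : Type} [Field M] (h2 : (2 : M) ≠ 0) (D : Derivation ℤ M M)
    {m m' u c a e A B x y δ : M} (hm : D m = 0) (hm' : D m' = 0) (hu : D u = 0) (ha0 : D a = 0)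
    (he0 : D e = 0) (hB0 : D B = 0)
    (ha : a = m ^ 2 * (1 + 2 * m)) (he : e = m' ^ 2 * (1 + 2 * m'))
    (hA : A = 1 / 4 - 3 * m ^ 2) (hB : B = m ^ 3 * (3 * m + 1))
    (hA' : u ^ 2 * (-2 * A) = 1 / 4 - 3 * m' ^ 2)
    (hB' : u ^ 4 * (A ^ 2 - 4 * B) = m' ^ 3 * (3 * m' + 1)) (hcu : c * u = 1)
    (hx : x + m ^ 2 ≠ 0) (h : y ^ 2 + x * y + a * y = x ^ 3)
    (d1 : D x = δ * (2 * y + x + a)) (d2 : D y = δ * (3 * x ^ 2 - y)) :
    D (i2X m m' u a x y) = c * δ * (2 * i2Y m m' u a e B x y + i2X m m' u a x y + e) ∧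
    D (i2Y m m' u a e B x y) = c * δ * (3 * i2X m m' u a x y ^ 2 - i2Y m m' u a e B x y) := by
  obtain ⟨t, ht⟩ : ∃ t : M, t = 2⁻¹ := ⟨_, rfl⟩
  have ht2 : 2 * t = 1 := by rw [ht]; exact mul_inv_cancel₀ h2
  have h14 : (1 / 4 : M) = t ^ 2 := by
    rw [ht, inv_pow, one_div]; norm_num
  have hD2 : D (2 : M) = 0 := D_two D
  have ht0 : D t = 0 := by
    have := congrArg D ht2
    rw [Derivation.leibniz, hD2, smul_zero, add_zero, smul_eq_mul, Derivation.map_one_eq_zero] at this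
    exact (mul_eq_zero.1 this).resolve_left h2
  have hcurve := iso2_curve h2 ha hA hB h
  have dξ : D (x + m ^ 2) = 2 * δ * (y + (x + a) / 2) := by
    rw [map_add, Derivation.leibniz_pow, hm, smul_zero, smul_zero, add_zero, d1, div_eq_mul_inv, ← ht]
    linear_combination (-δ * (x + a)) * ht2
  have dη : D (y + (x + a) / 2) = δ * (3 * (x + m ^ 2) ^ 2 + 2 * A * (x + m ^ 2) + B) := by
    rw [div_eq_mul_inv, ← ht, map_add, Derivation.leibniz, ht0, smul_zero, zero_add, smul_eq_mul, map_add,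
      ha0, add_zero, d1, d2, hA, hB, h14, ha]
    linear_combination δ * (y - t * (x + m ^ 2) + m ^ 3) * ht2
  obtain ⟨r1, r2⟩ := iso2_der D hB0 hx hcurve dξ dη
  obtain ⟨X, hX⟩ : ∃ X, X = (y + (x + a) / 2) ^ 2 / (x + m ^ 2) ^ 2 := ⟨_, rfl⟩
  obtain ⟨Y, hY⟩ : ∃ Y, Y = (y + (x + a) / 2) * ((x + m ^ 2) ^ 2 - B) / (x + m ^ 2) ^ 2 := ⟨_, rfl⟩
  rw [← hX, ← hY] at r1
  rw [← hX, ← hY] at r2
  rw [i2Y, i2X, ← hX, ← hY, div_eq_mul_inv _ (2 : M), ← ht]
  rw [h14] at hA'
  constructor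
  · simp only [map_sub, Derivation.leibniz, Derivation.leibniz_pow, hu, hm', smul_zero, add_zero, sub_zero,
      smul_eq_mul, r1]
    linear_combination (-2 * δ * u ^ 2 * Y) * hcu + c * δ * (u ^ 2 * X - m' ^ 2 + e) * ht2
  · simp only [map_sub, map_add, Derivation.leibniz, Derivation.leibniz_pow, hu, hm', ht0, he0, smul_zero, add_zero,
      zero_add, sub_zero, smul_eq_mul, r1, r2]
    rw [he]
    linear_combination (-u ^ 3 * δ * (3 * X ^ 2 - 4 * A * X + (A ^ 2 - 4 * B)) + δ * u ^ 2 * Y) * hcu +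
      (-δ * u ^ 2 * Y - c * δ * (m' ^ 3 - t * u ^ 2 * X)) * ht2 + 2 * c * δ * u ^ 2 * X * hA' + c * δ * hB'

/-- the family of homomorphisms, over one field -/
private theorem iso2_key (h2 : (2 : k) ≠ 0) (a e m m' u A B : k) (ea : a = m ^ 2 * (1 + 2 * m))
    (ee : e = m' ^ 2 * (1 + 2 * m')) (eu : u ≠ 0) (hA : A = 1 / 4 - 3 * m ^ 2)
    (hB : B = m ^ 3 * (3 * m + 1)) (eB : B ≠ 0) (eD : A ^ 2 - 4 * B ≠ 0)
    (eA' : u ^ 2 * (-2 * A) = 1 / 4 - 3 * m' ^ 2)
    (eB' : u ^ 4 * (A ^ 2 - 4 * B) = m' ^ 3 * (3 * m' + 1)) (M : Type) [Field M] [Algebra k M] :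
    ∃ f : Pt a M →+ Pt e M,
      (∀ (x y : M) (h : ((Eb a).baseChange M).toAffine.Nonsingular x y),
        x + algebraMap k M m ^ 2 = 0 → f (.some x y h) = 0) ∧
      (∀ (x y : M) (h : ((Eb a).baseChange M).toAffine.Nonsingular x y),
        x + algebraMap k M m ^ 2 ≠ 0 → ∃ h', f (.some x y h) =
        .some (i2X (algebraMap k M m) (algebraMap k M m') (algebraMap k M u) (algebraMap k M a) x y)
          (i2Y (algebraMap k M m) (algebraMap k M m') (algebraMap k M u) (algebraMap k M a)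
            (algebraMap k M e) (algebraMap k M B) x y) h') := by
  have h2M : (2 : M) ≠ 0 := by
    have : (2 : M) = algebraMap k M 2 := by rw [map_ofNat]
    rw [this]; exact (_root_.map_ne_zero _).2 h2
  refine iso2_fam h2M (algebraMap k M m) (algebraMap k M m') (algebraMap k M u) (algebraMap k M a)
    (algebraMap k M e) (algebraMap k M A) (algebraMap k M B) ?_ ?_ ((_root_.map_ne_zero _).2 eu) ?_ ?_
    ((_root_.map_ne_zero _).2 eB) ?_ ?_ ?_ ((Eb a).baseChange M).toAffine ((Eb e).baseChange M).toAffine ?_ ?_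
  · have := congrArg (algebraMap k M) ea
    simpa only [map_mul, map_add, map_pow, map_one, map_ofNat] using this
  · have := congrArg (algebraMap k M) ee
    simpa only [map_mul, map_add, map_pow, map_one, map_ofNat] using this
  · have := congrArg (algebraMap k M) hA
    simpa only [map_sub, map_div₀, map_mul, map_add, map_pow, map_one, map_ofNat] using this
  · have := congrArg (algebraMap k M) hB
    simpa only [map_mul, map_add, map_pow, map_one, map_ofNat] using this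
  · have := (_root_.map_ne_zero (algebraMap k M)).2 eD
    simpa only [map_sub, map_mul, map_add, map_pow, map_one, map_ofNat] using this
  · have := congrArg (algebraMap k M) eA'
    simpa only [map_sub, map_neg, map_div₀, map_mul, map_add, map_pow, map_one, map_ofNat] using this
  · have := congrArg (algebraMap k M) eB'
    simpa only [map_sub, map_neg, map_div₀, map_mul, map_add, map_pow, map_one, map_ofNat] using this
  · simp [Eb, WeierstrassCurve.baseChange, WeierstrassCurve.map]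
  · simp [Eb, WeierstrassCurve.baseChange, WeierstrassCurve.map]

private theorem iso2_const (b : k) {M : Type} [Field M] [Algebra k M] (D : Derivation k M M) :
    Const (D.restrictScalars ℤ) ((Eb b).baseChange M).toAffine := by
  constructor <;> simp [Eb, WeierstrassCurve.baseChange]

theorem exists_isog (h2 : (2 : k) ≠ 0) (h3 : (3 : k) ≠ 0) (s : k) (hs : s ≠ 0)
    (hs3 : 3 + s ≠ 0) (hs1 : 1 + s ≠ 0) (hs1' : 1 - s ≠ 0) (hs2 : 2 + s ≠ 0) :
    Nonempty (Isog (al s) (be s) (2 / (1 + s)) 2) := by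
  have h4 : (4 : k) ≠ 0 := by
    have : (4 : k) = 2 * 2 := by norm_num
    rw [this]; exact mul_ne_zero h2 h2
  have h6 : (6 : k) ≠ 0 := by
    have : (6 : k) = 2 * 3 := by norm_num
    rw [this]; exact mul_ne_zero h2 h3
  have h54 : (54 : k) ≠ 0 := by
    have : (54 : k) = 2 * 3 ^ 3 := by norm_num
    rw [this]; exact mul_ne_zero h2 (pow_ne_zero 3 h3)
  have h108 : (108 : k) ≠ 0 := by
    have : (108 : k) = 2 ^ 2 * 3 ^ 3 := by norm_num
    rw [this]; exact mul_ne_zero (pow_ne_zero 2 h2) (pow_ne_zero 3 h3)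
  obtain ⟨m, hm⟩ : ∃ m : k, m = -(3 + s) / (6 * (1 + s)) := ⟨_, rfl⟩
  obtain ⟨m', hm'⟩ : ∃ m' : k, m' = s / 6 := ⟨_, rfl⟩
  obtain ⟨u, hu⟩ : ∃ u : k, u = (1 + s) / 2 := ⟨_, rfl⟩
  obtain ⟨A, hA⟩ : ∃ A : k, A = 1 / 4 - 3 * m ^ 2 := ⟨_, rfl⟩
  obtain ⟨B, hB⟩ : ∃ B : k, B = m ^ 3 * (3 * m + 1) := ⟨_, rfl⟩
  have ea : al s = m ^ 2 * (1 + 2 * m) := by
    rw [hm, al]; field_simp; ring
  have ee : be s = m' ^ 2 * (1 + 2 * m') := by
    rw [hm', be]; field_simp; ring
  have eB : B ≠ 0 := by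
    have e : 3 * m + 1 = -(1 - s) / (2 * (1 + s)) := by
      rw [hm]; field_simp; ring
    have hm0 : m ≠ 0 := by
      rw [hm]; exact div_ne_zero (neg_ne_zero.2 hs3) (mul_ne_zero h6 hs1)
    rw [hB, e]
    exact mul_ne_zero (pow_ne_zero 3 hm0) (div_ne_zero (neg_ne_zero.2 hs1') (mul_ne_zero h2 hs1))
  have eA' : u ^ 2 * (-2 * A) = 1 / 4 - 3 * m' ^ 2 := by
    rw [hA, hm, hm', hu]; field_simp; ring
  have eB' : u ^ 4 * (A ^ 2 - 4 * B) = m' ^ 3 * (3 * m' + 1) := by
    rw [hA, hB, hm, hm', hu]; field_simp; ring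
  have eD : A ^ 2 - 4 * B ≠ 0 := by
    intro h
    rw [h, mul_zero] at eB'
    have e : 3 * m' + 1 = (2 + s) / 2 := by
      rw [hm']; field_simp; ring
    rw [e, hm'] at eB'
    exact (mul_ne_zero (pow_ne_zero 3 (div_ne_zero hs h6)) (div_ne_zero hs2 h2)) eB'.symm
  have eu : u ≠ 0 := by rw [hu]; exact div_ne_zero hs1 h2
  have key : ∀ (M : Type) [Field M] [Algebra k M], ∃ f : Pt (al s) M →+ Pt (be s) M,
      (∀ (x y : M) (h : ((Eb (al s)).baseChange M).toAffine.Nonsingular x y),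
        x + algebraMap k M m ^ 2 = 0 → f (.some x y h) = 0) ∧
      (∀ (x y : M) (h : ((Eb (al s)).baseChange M).toAffine.Nonsingular x y),
        x + algebraMap k M m ^ 2 ≠ 0 → ∃ h', f (.some x y h) =
        .some (i2X (algebraMap k M m) (algebraMap k M m') (algebraMap k M u) (algebraMap k M (al s)) x y)
          (i2Y (algebraMap k M m) (algebraMap k M m') (algebraMap k M u) (algebraMap k M (al s))
            (algebraMap k M (be s)) (algebraMap k M B) x y) h') :=
    fun M _ _ => iso2_key h2 (al s) (be s) m m' u A B ea ee eu hA hB eB eD eA' eB' M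
  refine ⟨{ f := fun M _ _ => Classical.choose (key M), nat := ?_, deg := ?_, del := ?_ }⟩
  · intro M M' _ _ _ _ ρ P
    obtain ⟨s1, s2⟩ := Classical.choose_spec (key M)
    obtain ⟨t1, t2⟩ := Classical.choose_spec (key M')
    rcases P with _ | ⟨x, y, h⟩
    · exact ((Classical.choose (key M')).map_zero).trans
        ((congrArg (pmap (be s) ρ) (Classical.choose (key M)).map_zero).trans (map_zero _)).symm
    · have e0 : pmap (al s) ρ (.some x y h) = .some (ρ x) (ρ y)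
          ((WeierstrassCurve.Affine.baseChange_nonsingular (Eb (al s)) ρ.injective ..).mpr h) := rfl
      have hρ : ∀ c : k, ρ (algebraMap k M c) = algebraMap k M' c := fun c => ρ.commutes c
      by_cases hx : x + algebraMap k M m ^ 2 = 0
      · have hx' : ρ x + algebraMap k M' m ^ 2 = 0 := by
          rw [← hρ, ← map_pow, ← map_add, hx, map_zero]
        rw [e0, t1 _ _ _ hx', s1 _ _ _ hx, map_zero]
      · have hx' : ρ x + algebraMap k M' m ^ 2 ≠ 0 := by
          rw [← hρ, ← map_pow, ← map_add]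
          exact (_root_.map_ne_zero ρ).2 hx
        obtain ⟨h', e'⟩ := s2 x y h hx
        obtain ⟨h'', e''⟩ := t2 (ρ x) (ρ y)
          ((WeierstrassCurve.Affine.baseChange_nonsingular (Eb (al s)) ρ.injective ..).mpr h) hx'
        rw [e0, e', e'']
        have e1 : pmap (be s) ρ (.some _ _ h') = .some _ _
          ((WeierstrassCurve.Affine.baseChange_nonsingular (Eb (be s)) ρ.injective ..).mpr h') := rfl
        rw [e1, WeierstrassCurve.Affine.Point.some.injEq]
        constructor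
        · simp only [i2X, map_sub, map_div₀, map_mul, map_add, map_pow, map_ofNat, hρ]
        · simp only [i2Y, i2X, map_sub, map_div₀, map_mul, map_add, map_pow, map_ofNat, hρ]
  · intro M _ _ _ _ r hr y h
    obtain ⟨s1, s2⟩ := Classical.choose_spec (key M)
    obtain ⟨r', hr', hht, hne, er'⟩ := iso2_ht r hr (m ^ 2) A B (u ^ 2) (m' ^ 2) eB (pow_ne_zero 2 eu)
    have hi : ∀ c : k, algebraMap (RatFunc k) M (RatFunc.C c) = algebraMap k M c := by
      intro c
      rw [IsScalarTower.algebraMap_apply k (RatFunc k) M, RatFunc.algebraMap_eq_C]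
    have h2M : (2 : M) ≠ 0 := by
      have : (2 : M) = algebraMap k M 2 := by rw [map_ofNat]
      rw [this]; exact (_root_.map_ne_zero _).2 h2
    have hξ : algebraMap (RatFunc k) M r + algebraMap k M m ^ 2 = algebraMap (RatFunc k) M (r + RatFunc.C (m ^ 2)) := by
      rw [map_add, hi, map_pow]
    have hξ0 : algebraMap (RatFunc k) M r + algebraMap k M m ^ 2 ≠ 0 := by
      rw [hξ]; exact (_root_.map_ne_zero _).2 hne
    obtain ⟨h', e'⟩ := s2 (algebraMap (RatFunc k) M r) y h hξ0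
    have ha := congrArg (algebraMap k M) ea
    simp only [map_mul, map_add, map_pow, map_one, map_ofNat] at ha
    have hAM := congrArg (algebraMap k M) hA
    simp only [map_sub, map_div₀, map_mul, map_add, map_pow, map_one, map_ofNat] at hAM
    have hBM := congrArg (algebraMap k M) hB
    simp only [map_mul, map_add, map_pow, map_one, map_ofNat] at hBM
    have hcurve := iso2_curve h2M ha hAM hBM (eqn_iff.1 h.1)
    have hX : i2X (algebraMap k M m) (algebraMap k M m') (algebraMap k M u) (algebraMap k M (al s))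
        (algebraMap (RatFunc k) M r) y = algebraMap (RatFunc k) M r' := by
      rw [i2X, hcurve, er']
      simp only [map_sub, map_div₀, map_mul, map_add, map_pow, hi]
      field_simp
    have fin : ∀ (x1 y1 x2 : M) (h1 : ((Eb (be s)).baseChange M).toAffine.Nonsingular x1 y1), x1 = x2 →
        ∃ h2, (WeierstrassCurve.Affine.Point.some x1 y1 h1 : Pt (be s) M) = .some x2 y1 h2 := by
      rintro x1 y1 x2 h1 rfl
      exact ⟨h1, rfl⟩
    rw [e']
    obtain ⟨h2', e2⟩ := fin _ _ _ h' hX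
    exact ⟨r', hr', hht, _, h2', e2⟩
  · intro M _ _ D P
    obtain ⟨s1, s2⟩ := Classical.choose_spec (key M)
    have h2M : (2 : M) ≠ 0 := by
      have : (2 : M) = algebraMap k M 2 := by rw [map_ofNat]
      rw [this]; exact (_root_.map_ne_zero _).2 h2
    have hD : ∀ c : k, (D.restrictScalars ℤ) (algebraMap k M c) = 0 := fun c => D.map_algebraMap c
    have hpsi : ∀ (b : k) (x y : M), psi ((Eb b).baseChange M).toAffine x y = 2 * y + x + algebraMap k M b := by
      intro b x y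
      simp [psi, Eb, WeierstrassCurve.baseChange]
    have hphi : ∀ (b : k) (x y : M), phi ((Eb b).baseChange M).toAffine x y = 3 * x ^ 2 - y := by
      intro b x y
      simp [phi, Eb, WeierstrassCurve.baseChange]
    have ha := congrArg (algebraMap k M) ea
    simp only [map_mul, map_add, map_pow, map_one, map_ofNat] at ha
    have he := congrArg (algebraMap k M) ee
    simp only [map_mul, map_add, map_pow, map_one, map_ofNat] at he
    have hAM := congrArg (algebraMap k M) hA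
    simp only [map_sub, map_div₀, map_mul, map_add, map_pow, map_one, map_ofNat] at hAM
    have hBM := congrArg (algebraMap k M) hB
    simp only [map_mul, map_add, map_pow, map_one, map_ofNat] at hBM
    have hA'M := congrArg (algebraMap k M) eA'
    simp only [map_sub, map_neg, map_div₀, map_mul, map_add, map_pow, map_one, map_ofNat] at hA'M
    have hB'M := congrArg (algebraMap k M) eB'
    simp only [map_sub, map_neg, map_div₀, map_mul, map_add, map_pow, map_one, map_ofNat] at hB'M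
    have hcu : algebraMap k M (2 / (1 + s)) * algebraMap k M u = 1 := by
      rw [← map_mul, hu]
      have : 2 / (1 + s) * ((1 + s) / 2) = 1 := by field_simp
      rw [this, map_one]
    rcases P with _ | ⟨x, y, h⟩
    · have e0 : (Classical.choose (key M)) (WeierstrassCurve.Affine.Point.zero) = WeierstrassCurve.Affine.Point.zero :=
        map_zero _
      rw [e0]
      change (0 : M) = _ * 0
      rw [mul_zero]
    · obtain ⟨d1, d2⟩ := dl_spec (iso2_const (al s) D) h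
      obtain ⟨δ, hδ⟩ : ∃ δ, δ = dl (D.restrictScalars ℤ) ((Eb (al s)).baseChange M).toAffine (.some x y h) := ⟨_, rfl⟩
      rw [← hδ, hpsi] at d1
      rw [← hδ, hphi] at d2
      rw [← hδ]
      have hcurve := iso2_curve h2M ha hAM hBM (eqn_iff.1 h.1)
      by_cases hx : x + algebraMap k M m ^ 2 = 0
      · rw [s1 x y h hx]
        have hδ0 : δ = 0 := by
          rw [hδ]
          have hDx : (D.restrictScalars ℤ) x = 0 := by
            have e : x = algebraMap k M (-m ^ 2) := by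
              rw [map_neg, map_pow]; linear_combination hx
            rw [e, hD]
          have hη : y + (x + algebraMap k M (al s)) / 2 = 0 := by
            rw [hx] at hcurve
            have : (y + (x + algebraMap k M (al s)) / 2) ^ 2 = 0 := by rw [hcurve]; ring
            exact pow_eq_zero_iff (two_ne_zero) |>.1 this
          have hDy : (D.restrictScalars ℤ) y = 0 := by
            have e : 2 * y = -(x + algebraMap k M (al s)) := by
              field_simp at hη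
              linear_combination hη
            have := congrArg (D.restrictScalars ℤ) e
            rw [Derivation.leibniz, D_two, smul_zero, add_zero, smul_eq_mul, map_neg, map_add, hDx, hD, add_zero,
              neg_zero] at this
            exact (mul_eq_zero.1 this).resolve_left h2M
          apply dl_unique (iso2_const (al s) D) h
          · rw [hDx, zero_mul]
          · rw [hDy, zero_mul]
        rw [hδ0, mul_zero]
        rfl
      · obtain ⟨h', e'⟩ := s2 x y h hx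
        rw [e']
        obtain ⟨r1, r2⟩ := iso2_der2 h2M (D.restrictScalars ℤ) (hD m) (hD m') (hD u) (hD (al s)) (hD (be s))
          (hD B) ha he hAM hBM hA'M hB'M hcu hx (eqn_iff.1 h.1) d1 d2
        apply dl_unique (iso2_const (be s) D) h'
        · rw [r1, hpsi]
        · rw [r2, hphi]

end SC15.EC
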