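import Mathlib

/-!
Module SC15-B-TRI: primitive triples of polynomials and the duplication forms.
-/

open Polynomial
open scoped Classical

namespace SC15.EC

private theorem TRI_prod {R : Type*} [CommRing R] (P : Ideal R) [hP : P.IsPrime] {a b c d : R}
    (h1 : IsCoprime a b) (h2 : IsCoprime c d) (h : ∀ i, ![a * c, a * d + b * c, b * d] i ∈ P) :
    False := by
  have g0 : a * c ∈ P := h 0
  have g1 : a * d + b * c ∈ P := h 1
  have g2 : b * d ∈ P := h 2
  have hab : ¬ (a ∈ P ∧ b ∈ P) := by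
    rintro ⟨ha, hb⟩
    obtain ⟨u, v, e⟩ := h1
    exact hP.ne_top ((Ideal.eq_top_iff_one P).mpr
      (e ▸ P.add_mem (P.mul_mem_left u ha) (P.mul_mem_left v hb)))
  have hcd : ¬ (c ∈ P ∧ d ∈ P) := by
    rintro ⟨ha, hb⟩
    obtain ⟨u, v, e⟩ := h2
    exact hP.ne_top ((Ideal.eq_top_iff_one P).mpr
      (e ▸ P.add_mem (P.mul_mem_left u ha) (P.mul_mem_left v hb)))
  rcases hP.mem_or_mem g0 with ha | hc
  · have hb : b ∉ P := fun hb => hab ⟨ha, hb⟩
    have hd : d ∈ P := (hP.mem_or_mem g2).resolve_left hb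
    have hbc : b * c ∈ P := (P.add_mem_iff_right (P.mul_mem_right d ha)).mp g1
    exact hcd ⟨(hP.mem_or_mem hbc).resolve_left hb, hd⟩
  · have hd : d ∉ P := fun hd => hcd ⟨hc, hd⟩
    have hb : b ∈ P := (hP.mem_or_mem g2).resolve_right hd
    have had : a * d ∈ P := (P.add_mem_iff_left (P.mul_mem_left b hc)).mp g1
    exact hab ⟨(hP.mem_or_mem had).resolve_right hd, hb⟩

private theorem TRI_span {R : Type*} [CommRing R] (v : Fin 3 → R)
    (h : ∀ P : Ideal R, P.IsPrime → ¬ ∀ i, v i ∈ P) : ∃ a : Fin 3 → R, ∑ i, a i * v i = 1 := by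
  have htop : Ideal.span (Set.range v) = ⊤ := by
    by_contra hne
    obtain ⟨M, hM, hle⟩ := Ideal.exists_le_maximal _ hne
    exact h M hM.isPrime fun i => hle (Ideal.subset_span ⟨i, rfl⟩)
  have h1 : (1 : R) ∈ Ideal.span (Set.range v) := by rw [htop]; trivial
  exact Ideal.mem_span_range_iff_exists_fun.mp h1

variable {k : Type} [Field k] (W : WeierstrassCurve k)

private theorem TRI_aeval (v : Fin 3 → k[X]) :
    (MvPolynomial.aeval v (W.addSubMap 0) =
      v 0 * v 0 - Polynomial.C W.b₄ * (v 0 * v 2) - Polynomial.C W.b₆ * (v 1 * v 2) -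
        Polynomial.C W.b₈ * (v 2 * v 2)) ∧
    (MvPolynomial.aeval v (W.addSubMap 1) =
      Polynomial.C 2 * (v 1 * v 0) + Polynomial.C W.b₂ * (v 0 * v 2) +
        Polynomial.C W.b₄ * (v 1 * v 2) + Polynomial.C W.b₆ * (v 2 * v 2)) ∧
    (MvPolynomial.aeval v (W.addSubMap 2) = v 1 * v 1 - Polynomial.C 4 * (v 0 * v 2)) := by
  refine ⟨?_, ?_, ?_⟩ <;> simp [WeierstrassCurve.addSubMap] <;> ring

private theorem TRI_evalk (v : Fin 3 → k) :
    (MvPolynomial.eval v (W.addSubMap 0) =
      v 0 * v 0 - W.b₄ * (v 0 * v 2) - W.b₆ * (v 1 * v 2) - W.b₈ * (v 2 * v 2)) ∧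
    (MvPolynomial.eval v (W.addSubMap 1) =
      2 * (v 1 * v 0) + W.b₂ * (v 0 * v 2) + W.b₄ * (v 1 * v 2) + W.b₆ * (v 2 * v 2)) ∧
    (MvPolynomial.eval v (W.addSubMap 2) = v 1 * v 1 - 4 * (v 0 * v 2)) := by
  refine ⟨?_, ?_, ?_⟩ <;> simp [WeierstrassCurve.addSubMap] <;> ring

private theorem TRI_map (v : Fin 3 → k[X]) (i : Fin 3) :
    MvPolynomial.eval v ((W.map (Polynomial.C : k →+* k[X])).addSubMap i) =
      MvPolynomial.aeval v (W.addSubMap i) := by
  obtain ⟨h0, h1, h2⟩ := TRI_aeval W v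
  fin_cases i
  · refine Eq.trans ?_ h0.symm
    simp [WeierstrassCurve.addSubMap]
    ring
  · refine Eq.trans ?_ h1.symm
    have e2 : (Polynomial.C (2 : k)) = 2 := rfl
    rw [e2]
    simp [WeierstrassCurve.addSubMap]
    ring
  · refine Eq.trans ?_ h2.symm
    have e4 : (Polynomial.C (4 : k)) = 4 := rfl
    rw [e4]
    simp [WeierstrassCurve.addSubMap]
    ring

private theorem TRI_prime [W.IsElliptic] (v : Fin 3 → k[X]) (P : Ideal k[X]) (hP : P.IsPrime)
    (h : ∀ i, MvPolynomial.aeval v (W.addSubMap i) ∈ P) (i : Fin 3) : v i ∈ P := by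
  have h1 := WeierstrassCurve.addSubMapCoeff_condition (W.map (Polynomial.C : k →+* k[X])) v i
  have h2 : v i ^ 4 ∈ P := by
    rw [← h1]
    refine P.sum_mem fun j _ => P.mul_mem_left _ ?_
    rw [TRI_map]
    exact h j
  exact hP.mem_of_pow_mem 4 h2

private theorem TRI_lead2 {A B : k[X]} (h : IsCoprime A B) :
    A.coeff (max A.natDegree B.natDegree) ≠ 0 ∨ B.coeff (max A.natDegree B.natDegree) ≠ 0 := by
  by_contra hcon
  push Not at hcon
  obtain ⟨hA, hB⟩ := hcon
  rcases le_total A.natDegree B.natDegree with h1 | h1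
  · rw [max_eq_right h1] at hA hB
    have hB0 : B = 0 := leadingCoeff_eq_zero.mp hB
    rw [hB0, natDegree_zero] at h1 hA
    have hA0 : A = 0 := by
      have : A.natDegree = 0 := by omega
      rw [← this] at hA
      exact leadingCoeff_eq_zero.mp hA
    rw [hA0, hB0] at h
    exact not_isUnit_zero (isCoprime_zero_left.mp h)
  · rw [max_eq_left h1] at hA hB
    have hA0 : A = 0 := leadingCoeff_eq_zero.mp hA
    rw [hA0, natDegree_zero] at h1 hB
    have hB0 : B = 0 := by
      have : B.natDegree = 0 := by omega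
      rw [← this] at hB
      exact leadingCoeff_eq_zero.mp hB
    rw [hA0, hB0] at h
    exact not_isUnit_zero (isCoprime_zero_left.mp h)

private theorem TRI_lead {A B C D : k[X]} (h1 : IsCoprime A B) (h2 : IsCoprime C D) :
    (∀ i, (![A * C, A * D + B * C, B * D] i).natDegree ≤
      max A.natDegree B.natDegree + max C.natDegree D.natDegree) ∧
    ∃ i, (![A * C, A * D + B * C, B * D] i).coeff
      (max A.natDegree B.natDegree + max C.natDegree D.natDegree) ≠ 0 := by
  have l1 := TRI_lead2 h1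
  have l2 := TRI_lead2 h2
  set m := max A.natDegree B.natDegree with hm
  set n := max C.natDegree D.natDegree with hn
  have hA : A.natDegree ≤ m := le_max_left _ _
  have hB : B.natDegree ≤ m := le_max_right _ _
  have hC : C.natDegree ≤ n := le_max_left _ _
  have hD : D.natDegree ≤ n := le_max_right _ _
  refine ⟨?_, ?_⟩
  · intro i
    fin_cases i
    · exact natDegree_mul_le_of_le hA hC
    · exact natDegree_add_le_of_degree_le (natDegree_mul_le_of_le hA hD)
        (natDegree_mul_le_of_le hB hC)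
    · exact natDegree_mul_le_of_le hB hD
  · by_contra hcon
    push Not at hcon
    have c0 : (A * C).coeff (m + n) = 0 := hcon 0
    have c1 : (A * D + B * C).coeff (m + n) = 0 := hcon 1
    have c2 : (B * D).coeff (m + n) = 0 := hcon 2
    rw [coeff_add] at c1
    rw [coeff_mul_add_eq_of_natDegree_le hA hC] at c0
    rw [coeff_mul_add_eq_of_natDegree_le hA hD, coeff_mul_add_eq_of_natDegree_le hB hC] at c1
    rw [coeff_mul_add_eq_of_natDegree_le hB hD] at c2
    rcases mul_eq_zero.mp c0 with ha | hc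
    · have hb : B.coeff m ≠ 0 := l1.resolve_left (fun h => h ha)
      have hd : D.coeff n = 0 := (mul_eq_zero.mp c2).resolve_left hb
      have hc : C.coeff n ≠ 0 := l2.resolve_right (fun h => h hd)
      rw [ha, zero_mul, zero_add] at c1
      exact mul_ne_zero hb hc c1
    · have hd : D.coeff n ≠ 0 := l2.resolve_left (fun h => h hc)
      have hb : B.coeff m = 0 := (mul_eq_zero.mp c2).resolve_right hd
      have ha : A.coeff m ≠ 0 := l1.resolve_right (fun h => h hb)
      rw [hb, zero_mul, add_zero] at c1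
      exact mul_ne_zero ha hd c1

private theorem TRI_F (v : Fin 3 → k[X]) (m : ℕ) (hv : ∀ i, (v i).natDegree ≤ m) (i : Fin 3) :
    (MvPolynomial.aeval v (W.addSubMap i)).natDegree ≤ m + m ∧
    (MvPolynomial.aeval v (W.addSubMap i)).coeff (m + m) =
      MvPolynomial.eval (fun j => (v j).coeff m) (W.addSubMap i) := by
  have hd : ∀ a b : Fin 3, (v a * v b).natDegree ≤ m + m := fun a b =>
    natDegree_mul_le_of_le (hv a) (hv b)
  have hdc : ∀ (c : k) (a b : Fin 3), (Polynomial.C c * (v a * v b)).natDegree ≤ m + m :=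
    fun c a b => (natDegree_C_mul_le _ _).trans (hd a b)
  have hc : ∀ a b : Fin 3, (v a * v b).coeff (m + m) = (v a).coeff m * (v b).coeff m :=
    fun a b => coeff_mul_add_eq_of_natDegree_le (hv a) (hv b)
  obtain ⟨h0, h1, h2⟩ := TRI_aeval W v
  obtain ⟨g0, g1, g2⟩ := TRI_evalk W (fun j => (v j).coeff m)
  fin_cases i
  · simp only [Fin.zero_eta]
    rw [h0, g0]
    refine ⟨?_, ?_⟩
    · refine (natDegree_sub_le_of_le (natDegree_sub_le_of_le (natDegree_sub_le_of_le (hd _ _)
        (hdc _ _ _)) (hdc _ _ _)) (hdc _ _ _)).trans ?_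
      simp
    · simp only [coeff_sub, coeff_C_mul, hc]
  · simp only [Fin.mk_one]
    rw [h1, g1]
    refine ⟨?_, ?_⟩
    · refine (natDegree_add_le_of_le (natDegree_add_le_of_le (natDegree_add_le_of_le (hdc _ _ _)
        (hdc _ _ _)) (hdc _ _ _)) (hdc _ _ _)).trans ?_
      simp
    · simp only [coeff_add, coeff_C_mul, hc]
  · simp only [Fin.reduceFinMk]
    rw [h2, g2]
    refine ⟨?_, ?_⟩
    · refine (natDegree_sub_le_of_le (hd _ _) (hdc _ _ _)).trans ?_
      simp
    · simp only [coeff_sub, coeff_C_mul, hc]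

theorem tri {k : Type} [Field k] (W : WeierstrassCurve k) [hW : W.IsElliptic] {K : Type} [Field K]
    [Algebra k[X] K] (hinj : Function.Injective (algebraMap k[X] K))
    (A B C D A' B' C' D' : k[X]) (h1 : IsCoprime A B) (h2 : IsCoprime C D) (h3 : IsCoprime A' B')
    (h4 : IsCoprime C' D') (l : K) (hl : l ≠ 0)
    (h : ∀ i, algebraMap k[X] K
      (MvPolynomial.aeval ![A * C, A * D + B * C, B * D] (W.addSubMap i)) =
      l * algebraMap k[X] K (![A' * C', A' * D' + B' * C', B' * D'] i)) :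
    max A'.natDegree B'.natDegree + max C'.natDegree D'.natDegree =
      2 * (max A.natDegree B.natDegree + max C.natDegree D.natDegree) := by
  obtain ⟨dv, i0, ci0⟩ := TRI_lead h1 h2
  obtain ⟨dv', i1, ci1⟩ := TRI_lead h3 h4
  set m := max A.natDegree B.natDegree + max C.natDegree D.natDegree with hm
  set m' := max A'.natDegree B'.natDegree + max C'.natDegree D'.natDegree with hm'
  set v : Fin 3 → k[X] := ![A * C, A * D + B * C, B * D] with hv
  set v' : Fin 3 → k[X] := ![A' * C', A' * D' + B' * C', B' * D'] with hv'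
  have pv : ∀ P : Ideal k[X], P.IsPrime → ¬ ∀ i, v i ∈ P := fun P hP hh =>
    TRI_prod P h1 h2 hh
  have pv' : ∀ P : Ideal k[X], P.IsPrime → ¬ ∀ i, v' i ∈ P := fun P hP hh =>
    TRI_prod P h3 h4 hh
  obtain ⟨a', ha'⟩ := TRI_span v' pv'
  obtain ⟨a, ha⟩ := TRI_span (fun i => MvPolynomial.aeval v (W.addSubMap i))
    (fun P hP hh => pv P hP (TRI_prime W v P hP hh))
  set L : k[X] := ∑ i, a' i * MvPolynomial.aeval v (W.addSubMap i) with hL
  set M : k[X] := ∑ i, a i * v' i with hM
  have eL : algebraMap k[X] K L = l := by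
    have e1 : algebraMap k[X] K L = l * algebraMap k[X] K (∑ i, a' i * v' i) := by
      rw [hL, _root_.map_sum, _root_.map_sum, Finset.mul_sum]
      refine Finset.sum_congr rfl fun i _ => ?_
      rw [map_mul, map_mul, h i]
      ring
    rw [e1, ha', map_one, mul_one]
  have eM : l * algebraMap k[X] K M = 1 := by
    have e1 : l * algebraMap k[X] K M =
        algebraMap k[X] K (∑ i, a i * MvPolynomial.aeval v (W.addSubMap i)) := by
      rw [hM, _root_.map_sum, _root_.map_sum, Finset.mul_sum]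
      refine Finset.sum_congr rfl fun i _ => ?_
      rw [map_mul, map_mul, h i]
      ring
    rw [e1, ha, map_one]
  have hLM : L * M = 1 := by
    apply hinj
    rw [map_mul, eL, eM, map_one]
  have hLu : IsUnit L := IsUnit.of_mul_eq_one M hLM
  obtain ⟨c, hc, hcL⟩ := Polynomial.isUnit_iff.mp hLu
  have key : ∀ i, (MvPolynomial.aeval v (W.addSubMap i) : k[X]) = Polynomial.C c * v' i := by
    intro i
    apply hinj
    rw [h i, map_mul, hcL, eL]
  have hdeg : ∀ i, (MvPolynomial.aeval v (W.addSubMap i) : k[X]).natDegree =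
      (v' i).natDegree := by
    intro i
    rw [key i, natDegree_C_mul hc.ne_zero]
  -- a nonzero leading value
  have hw : (fun j => (v j).coeff m) ≠ 0 := by
    intro h0
    exact ci0 (congrFun h0 i0)
  have hFw := WeierstrassCurve.addSubMap_ne_zero W hw
  obtain ⟨j, hj⟩ : ∃ j, MvPolynomial.eval (fun j => (v j).coeff m) (W.addSubMap j) ≠ 0 := by
    by_contra hcon
    push Not at hcon
    exact hFw (funext hcon)
  have le1 : m + m ≤ m' := by
    have : (MvPolynomial.aeval v (W.addSubMap j) : k[X]).coeff (m + m) ≠ 0 := by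
      rw [(TRI_F W v m dv j).2]
      exact hj
    have h5 := le_natDegree_of_ne_zero this
    rw [hdeg j] at h5
    exact h5.trans (dv' j)
  have le2 : m' ≤ m + m := by
    have h5 := le_natDegree_of_ne_zero ci1
    rw [← hdeg i1] at h5
    exact h5.trans (TRI_F W v m dv i1).1
  omega

end SC15.EC
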