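import Mathlib
import Pool.Agent.SC15.B.FFApi
import Pool.Agent.SC15.B.Ht
import Pool.Agent.SC15.B.AddSub
import Pool.Agent.SC15.B.Tri

/-!
Module SC15-B-PAR (0.7 h): the height `hh` on odd points of `E_b` over its function field; the
parallelogram law.

`hh 0 = 0`, `hh (x, y) = ht r` if `x` is the image of `r : RatFunc k`. Odd points: `τ P = - P`; then
`τ x = x`, so `x` is in the image of `RatFunc k` (`exists_tau`, last clause; `tau` below). Sums and
negatives of odd points are odd (`pmap` is additive).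
Plan.
 * `hh_some`: `algebraMap (RatFunc k) (FF b)` is injective (field hom), so the chosen `r` is unique.
 * Representation: for an odd `P` there are coprime `A B : k[X]` and `c <> 0` in `FF b` with
   `xRep P 0 * c = A`, `xRep P 1 * c = B` and `hh P = max deg A, deg B`
   (`P = 0`: `(1, 0)`; `P = (x, y)`: `A = r.num`, `B = r.denom`, `c = ` image of `r.denom`).
   `Algebra k[X] (FF b)`: use `((algebraMap (RatFunc k) (FF b)).comp (algebraMap k[X] (RatFunc k))).toAlgebra`
   inside the proof.
 * `hh_par`: `addSub_eq` for the curve `(Eb b).baseChange (FF b)` (elliptic, see `nonsing` in Core) gives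
   `F(sym2x P Q) = l sym2x (P+Q) (P-Q)`; multiply by `(c_P c_Q)^2` (`F` is homogeneous of degree 2:
   `isHomogeneous_addSubMap`, or by the explicit formulas) and by the constants for `P + Q`, `P - Q`;
   then apply `tri` with `W = Eb b`, `K = FF b`.
 * `hh_zero`: `hh P = 0`, `P = (x, y)` odd: `x = c` is constant (`ht_eq_zero`). Then
   `z = 2 y + c + b` satisfies `z^2 = 4 c^3 + (c+b)^2 =: d` in `k` and `τ z = - z` (`P` odd), so
   `z = w (2 Y + X + b)` with `w : RatFunc k` (write `z = r + s Y` by `ff_repr`, `τ z = - z` gives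
   `2 r = s (X + b)`), hence `w^2 (4 X^3 + (X+b)^2) = d` and `w = 0` by `not_sq` (Core), so `z = 0`,
   `y = negY x y`, `P + P = 0`.
 * `hh_generic`: `gP` is odd, `hh (gP) = ht X = 1`.
-/

open Polynomial
open scoped Classical

namespace SC15.EC

variable {k : Type} [Field k] [Odd k]

/-- the involution `(X, Y) ↦ - (X, Y)` of the function field -/
noncomputable def tau (b : k) : FF b →ₐ[k] FF b := Classical.choose (exists_tau b)

theorem tau_spec (b : k) : tau b (gX b) = gX b ∧
    tau b (gY b) = - gY b - gX b - algebraMap k (FF b) b ∧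
    (∀ r : RatFunc k, tau b (algebraMap (RatFunc k) (FF b) r) = algebraMap (RatFunc k) (FF b) r) ∧
    (∀ f : FF b, tau b f = f → ∃ r : RatFunc k, f = algebraMap (RatFunc k) (FF b) r) :=
  Classical.choose_spec (exists_tau b)

/-- the height of a point of `E_b` over the function field whose `x`-coordinate is in `k(X)` -/
noncomputable def hh {b : k} : Pt b (FF b) → ℕ
  | .zero => 0
  | .some x _ _ => if h : ∃ r : RatFunc k, algebraMap (RatFunc k) (FF b) r = x
      then ht (Classical.choose h) else 0

theorem hh_some {b : k} (r : RatFunc k) (y : FF b)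
    (h : ((Eb b).baseChange (FF b)).toAffine.Nonsingular (algebraMap (RatFunc k) (FF b) r) y) :
    hh (b := b) (.some (algebraMap (RatFunc k) (FF b) r) y h) = ht r := by
  have hex : ∃ r' : RatFunc k, algebraMap (RatFunc k) (FF b) r' =
      algebraMap (RatFunc k) (FF b) r := ⟨r, rfl⟩
  show (if h : ∃ r' : RatFunc k, algebraMap (RatFunc k) (FF b) r' =
      algebraMap (RatFunc k) (FF b) r then ht (Classical.choose h) else 0) = ht r
  rw [dif_pos hex]
  congr 1
  exact (algebraMap (RatFunc k) (FF b)).injective (Classical.choose_spec hex)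

private theorem par_hh_zero {b : k} : hh (b := b) (0 : Pt b (FF b)) = 0 := rfl

/-- odd points -/
def OddPt {b : k} (P : Pt b (FF b)) : Prop := pmap b (tau b) P = - P

private theorem par_negY {b : k} (x y : FF b) :
    ((Eb b).baseChange (FF b)).toAffine.negY x y = - y - x - algebraMap k (FF b) b := by
  unfold WeierstrassCurve.Affine.negY
  simp [Eb, WeierstrassCurve.baseChange]

private theorem par_odd_some {b : k} {x y : FF b}
    {h : ((Eb b).baseChange (FF b)).toAffine.Nonsingular x y}
    (hP : OddPt (b := b) (.some x y h)) :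
    tau b x = x ∧ tau b y = - y - x - algebraMap k (FF b) b := by
  unfold OddPt pmap at hP
  rw [WeierstrassCurve.Affine.Point.map_some, WeierstrassCurve.Affine.Point.neg_some,
    WeierstrassCurve.Affine.Point.some.injEq, par_negY] at hP
  exact hP

theorem odd_cases {b : k} {P : Pt b (FF b)} (hP : OddPt P) : P = 0 ∨
    ∃ (r : RatFunc k) (y : FF b)
      (h : ((Eb b).baseChange (FF b)).toAffine.Nonsingular (algebraMap (RatFunc k) (FF b) r) y),
      P = .some (algebraMap (RatFunc k) (FF b) r) y h := by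
  cases P with
  | zero => exact Or.inl rfl
  | some x y h =>
    right
    obtain ⟨h1, h2⟩ := par_odd_some hP
    obtain ⟨r, hr⟩ := (tau_spec b).2.2.2 x h1
    subst hr
    exact ⟨r, y, h, rfl⟩

theorem odd_gP {b : k} (hb : Ell b) : OddPt (gP hb) ∧ hh (gP hb) = 1 := by
  constructor
  · unfold OddPt pmap gP pt
    rw [WeierstrassCurve.Affine.Point.map_some, WeierstrassCurve.Affine.Point.neg_some,
      WeierstrassCurve.Affine.Point.some.injEq, par_negY]
    exact ⟨(tau_spec b).1, (tau_spec b).2.1⟩
  · have h := hh_some (b := b) RatFunc.X (gY b) (nonsing hb (g_eqn b))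
    rw [ht_X] at h
    exact h

/-- the embedding of the polynomials -/
private noncomputable def par_al (b : k) : k[X] →+* FF b :=
  (algebraMap (RatFunc k) (FF b)).comp (algebraMap k[X] (RatFunc k))

private theorem par_al_inj (b : k) : Function.Injective (par_al b) :=
  (algebraMap (RatFunc k) (FF b)).injective.comp
    (FaithfulSMul.algebraMap_injective k[X] (RatFunc k))

private theorem par_al_C (b c : k) : par_al b (C c) = algebraMap k (FF b) c := by
  unfold par_al
  rw [RingHom.comp_apply, RatFunc.algebraMap_C, IsScalarTower.algebraMap_apply k (RatFunc k) (FF b),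
    RatFunc.algebraMap_eq_C]

private theorem par_rep {b : k} {P : Pt b (FF b)} (hP : OddPt P) :
    ∃ (A B : k[X]) (c : FF b), IsCoprime A B ∧ c ≠ 0 ∧ P.xRep 0 * c = par_al b A ∧
      P.xRep 1 * c = par_al b B ∧ hh P = max A.natDegree B.natDegree := by
  rcases odd_cases hP with rfl | ⟨r, y, h, rfl⟩
  · refine ⟨1, 0, 1, isCoprime_one_left, one_ne_zero, ?_, ?_, ?_⟩
    · simp [WeierstrassCurve.Affine.Point.xRep_zero]
    · simp [WeierstrassCurve.Affine.Point.xRep_zero]
    · rw [par_hh_zero]; simp
  · have hd : r.denom ≠ 0 := r.denom_ne_zero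
    refine ⟨r.num, r.denom, par_al b r.denom, r.isCoprime_num_denom, ?_, ?_, ?_, ?_⟩
    · intro h0
      exact hd (par_al_inj b (by rw [h0, map_zero]))
    · rw [WeierstrassCurve.Affine.Point.xRep_some]
      show algebraMap (RatFunc k) (FF b) r * par_al b r.denom = _
      unfold par_al
      rw [RingHom.comp_apply, RingHom.comp_apply, ← map_mul]
      congr 1
      have h1 := r.num_div_denom
      have h2 : algebraMap k[X] (RatFunc k) r.denom ≠ 0 := by
        simpa using hd
      rw [div_eq_iff h2] at h1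
      exact h1.symm
    · rw [WeierstrassCurve.Affine.Point.xRep_some]
      show 1 * par_al b r.denom = _
      rw [one_mul]
    · rw [hh_some]
      rfl

private theorem par_eval {b : k} (v : Fin 3 → k[X]) (w : Fin 3 → FF b) (c : FF b)
    (hv : ∀ j, par_al b (v j) = c * w j) (i : Fin 3) :
    par_al b (MvPolynomial.aeval v ((Eb b).addSubMap i)) =
      c ^ 2 * MvPolynomial.eval w (((Eb b).baseChange (FF b)).toAffine.addSubMap i) := by
  have h2 : (2 : k[X]) = C 2 := (map_ofNat C 2).symm
  have h4 : (4 : k[X]) = C 4 := (map_ofNat C 4).symm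
  have hb2 : ((Eb b).baseChange (FF b)).toAffine.b₂ = algebraMap k (FF b) (Eb b).b₂ :=
    WeierstrassCurve.map_b₂ _ _
  have hb4 : ((Eb b).baseChange (FF b)).toAffine.b₄ = algebraMap k (FF b) (Eb b).b₄ :=
    WeierstrassCurve.map_b₄ _ _
  have hb6 : ((Eb b).baseChange (FF b)).toAffine.b₆ = algebraMap k (FF b) (Eb b).b₆ :=
    WeierstrassCurve.map_b₆ _ _
  have hb8 : ((Eb b).baseChange (FF b)).toAffine.b₈ = algebraMap k (FF b) (Eb b).b₈ :=
    WeierstrassCurve.map_b₈ _ _
  have e0 := hv 0
  have e1 := hv 1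
  have e2 := hv 2
  fin_cases i
  · simp only [WeierstrassCurve.addSubMap, Fin.zero_eta, Matrix.cons_val_zero, map_sub, map_mul,
      map_pow, MvPolynomial.aeval_X, MvPolynomial.aeval_C, MvPolynomial.eval_X,
      MvPolynomial.eval_C, Polynomial.algebraMap_eq, par_al_C, hb4, hb6, hb8, e0, e1, e2]
    ring
  · simp only [WeierstrassCurve.addSubMap, Fin.mk_one, Matrix.cons_val_one, Matrix.cons_val_zero,
      map_add, map_mul, map_pow, MvPolynomial.aeval_X, MvPolynomial.aeval_C, MvPolynomial.eval_X,
      MvPolynomial.eval_C, Polynomial.algebraMap_eq, par_al_C, hb2, hb4, hb6, e0, e1, e2]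
    simp only [map_ofNat]
    ring
  · simp only [WeierstrassCurve.addSubMap, Fin.reduceFinMk, Matrix.cons_val,
      map_sub, map_mul, map_pow, MvPolynomial.aeval_X, MvPolynomial.aeval_C, MvPolynomial.eval_X,
      MvPolynomial.eval_C, Polynomial.algebraMap_eq, par_al_C, e0, e1, e2]
    simp only [map_ofNat]
    ring

private theorem par_vec {b : k} {P Q : Pt b (FF b)} {A B C D : k[X]} {c d : FF b}
    (h1 : P.xRep 0 * c = par_al b A) (h2 : P.xRep 1 * c = par_al b B)
    (h3 : Q.xRep 0 * d = par_al b C) (h4 : Q.xRep 1 * d = par_al b D) (j : Fin 3) :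
    par_al b (![A * C, A * D + B * C, B * D] j) = (c * d) * P.sym2x Q j := by
  unfold WeierstrassCurve.Affine.Point.sym2x
  fin_cases j
  · simp only [Fin.zero_eta, Matrix.cons_val_zero, map_mul, ← h1, ← h3]; ring
  · simp only [Fin.mk_one, Matrix.cons_val_one, Matrix.cons_val_zero, map_mul, map_add, ← h1,
      ← h2, ← h3, ← h4]
    ring
  · simp only [Fin.reduceFinMk, Matrix.cons_val, map_mul, ← h2, ← h4]; ring

theorem hh_par {b : k} (hb : Ell b) {P Q : Pt b (FF b)} (hP : OddPt P) (hQ : OddPt Q) :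
    hh (P + Q) + hh (P - Q) = 2 * hh P + 2 * hh Q := by
  have hS : OddPt (P + Q) := by
    unfold OddPt at *
    rw [map_add, hP, hQ, neg_add]
  have hT : OddPt (P - Q) := by
    unfold OddPt at *
    rw [map_sub, hP, hQ]
    abel
  obtain ⟨A, B, cP, hAB, hcP, p0, p1, hhP⟩ := par_rep hP
  obtain ⟨C', D, cQ, hCD, hcQ, q0, q1, hhQ⟩ := par_rep hQ
  obtain ⟨A', B', cS, hAB', hcS, s0, s1, hhS⟩ := par_rep hS
  obtain ⟨C'', D', cT, hCD', hcT, t0, t1, hhT⟩ := par_rep hT
  haveI := isElliptic hb
  haveI : ((Eb b).baseChange (FF b)).toAffine.IsElliptic :=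
    inferInstanceAs ((Eb b).map (algebraMap k (FF b))).IsElliptic
  obtain ⟨l, hl, hadd⟩ := addSub_eq ((Eb b).baseChange (FF b)).toAffine P Q
  letI : Algebra k[X] (FF b) := (par_al b).toAlgebra
  have hal : ∀ f : k[X], algebraMap k[X] (FF b) f = par_al b f := fun _ => rfl
  have key := tri (Eb b) (K := FF b) (par_al_inj b) A B C' D A' B' C'' D' hAB hCD hAB' hCD'
    ((cP * cQ) ^ 2 * l / (cS * cT))
    (div_ne_zero (mul_ne_zero (pow_ne_zero _ (mul_ne_zero hcP hcQ)) hl) (mul_ne_zero hcS hcT))
    (fun i => by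
      rw [hal, hal, par_eval _ _ _ (par_vec p0 p1 q0 q1) i, hadd i,
        par_vec s0 s1 t0 t1 i]
      have hST : cS * cT ≠ 0 := mul_ne_zero hcS hcT
      field_simp)
  rw [hhP, hhQ, hhS, hhT, key]
  ring

theorem hh_zero {b : k} (hb : Ell b) {P : Pt b (FF b)} (hP : OddPt P) (h : hh P = 0) :
    P + P = 0 := by
  rcases odd_cases hP with rfl | ⟨r, y, hn, rfl⟩
  · rw [add_zero]
  rw [hh_some] at h
  obtain ⟨c, hc⟩ := ht_eq_zero h
  subst hc
  obtain ⟨-, hty⟩ := par_odd_some hP
  have hx : algebraMap (RatFunc k) (FF b) (RatFunc.C c) = algebraMap k (FF b) c := by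
    rw [IsScalarTower.algebraMap_apply k (RatFunc k) (FF b), RatFunc.algebraMap_eq_C]
  have hbC : algebraMap (RatFunc k) (FF b) (RatFunc.C b) = algebraMap k (FF b) b := by
    rw [IsScalarTower.algebraMap_apply k (RatFunc k) (FF b), RatFunc.algebraMap_eq_C]
  have heq := eqn_iff.1 hn.1
  set x : FF b := algebraMap (RatFunc k) (FF b) (RatFunc.C c) with hxdef
  set bb : FF b := algebraMap k (FF b) b with hbb
  have hY := g_eqn b
  obtain ⟨r', s', hrs⟩ := ff_repr b (2 * y + x + bb)
  have hτx : tau b x = x := (tau_spec b).2.2.1 _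
  have hτb : tau b bb = bb := AlgHom.commutes _ _
  have hτY := (tau_spec b).2.1
  have hτz : tau b (2 * y + x + bb) = -(2 * y + x + bb) := by
    rw [map_add, map_add, map_mul, map_ofNat, hτx, hτb, hty]
    ring
  have hτz2 : tau b (2 * y + x + bb) = algebraMap (RatFunc k) (FF b) r' +
      algebraMap (RatFunc k) (FF b) s' * (- gY b - gX b - bb) := by
    rw [hrs, map_add, map_mul, hτY, (tau_spec b).2.2.1, (tau_spec b).2.2.1]
  have hlin : algebraMap (RatFunc k) (FF b) (2 * r' - s' * (RatFunc.X + RatFunc.C b)) +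
      algebraMap (RatFunc k) (FF b) 0 * gY b = 0 := by
    have h3 := hτz.symm.trans hτz2
    rw [hrs] at h3
    simp only [map_sub, map_mul, map_add, map_ofNat, map_zero, zero_mul, add_zero, hbC]
    show 2 * algebraMap (RatFunc k) (FF b) r' - algebraMap (RatFunc k) (FF b) s' * (gX b + bb) = 0
    linear_combination -h3
  have hr := (ff_unique b _ _ hlin).1
  have h2 : (2 : RatFunc k) ≠ 0 := by
    have h20 : (2 : k) ≠ 0 := Odd.two
    have : (2 : RatFunc k) = RatFunc.C 2 := (map_ofNat RatFunc.C 2).symm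
    rw [this]
    simpa using h20
  have hw : (s' / 2) ^ 2 * (4 * RatFunc.X ^ 3 + (RatFunc.X + RatFunc.C b) ^ 2) =
      RatFunc.C (4 * c ^ 3 + (c + b) ^ 2) := by
    apply (algebraMap (RatFunc k) (FF b)).injective
    have hr2 : r' = s' / 2 * (RatFunc.X + RatFunc.C b) := by
      field_simp
      linear_combination hr
    have hz : 2 * y + x + bb = algebraMap (RatFunc k) (FF b) (s' / 2) * (2 * gY b + gX b + bb) := by
      rw [hrs, hr2]
      have h5 : algebraMap (RatFunc k) (FF b) s' = algebraMap (RatFunc k) (FF b) (s' / 2) * 2 := by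
        rw [← map_ofNat (algebraMap (RatFunc k) (FF b)) 2, ← map_mul, div_mul_cancel₀ _ h2]
      rw [h5, map_mul, map_add, hbC]
      show _ * (gX b + bb) + _ = _
      ring
    have hsq : (2 * y + x + bb) ^ 2 = 4 * x ^ 3 + (x + bb) ^ 2 := by
      linear_combination 4 * heq
    have hsq2 : (2 * gY b + gX b + bb) ^ 2 = 4 * gX b ^ 3 + (gX b + bb) ^ 2 := by
      linear_combination 4 * hY
    have h6 : algebraMap (RatFunc k) (FF b) (RatFunc.C (4 * c ^ 3 + (c + b) ^ 2)) =
        4 * x ^ 3 + (x + bb) ^ 2 := by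
      simp only [map_add, map_mul, map_pow, map_ofNat, hbC, hxdef]
    rw [h6, ← hsq, hz, mul_pow, hsq2]
    simp only [map_mul, map_pow, map_add, map_ofNat, hbC]
    rfl
  have hw0 := not_sq Odd.two b _ _ hw
  have hs0 : s' = 0 := by
    rw [div_eq_zero_iff] at hw0
    rcases hw0 with h0 | h0
    · exact h0
    · exact absurd h0 h2
  have hr0 : r' = 0 := by
    rw [hs0] at hr
    have : 2 * r' = 0 := by linear_combination hr
    rcases mul_eq_zero.1 this with h0 | h0
    · exact absurd h0 h2
    · exact h0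
  have hz0 : 2 * y + x + bb = 0 := by
    rw [hrs, hs0, hr0]
    simp
  have hneg : -(WeierstrassCurve.Affine.Point.some x y hn : Pt b (FF b)) = .some x y hn := by
    rw [WeierstrassCurve.Affine.Point.neg_some, WeierstrassCurve.Affine.Point.some.injEq, par_negY]
    refine ⟨rfl, ?_⟩
    linear_combination -hz0
  calc (WeierstrassCurve.Affine.Point.some x y hn : Pt b (FF b)) + .some x y hn
      = .some x y hn + -(.some x y hn) := by rw [hneg]
    _ = 0 := add_neg_cancel _

end SC15.EC
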