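import Mathlib

/-!
Module SC15-B-QF: a ring with a multiplicative quadratic form.
`B(x,y) = N(x+y) - N(x) - N(y)` is biadditive and `N` is multiplicative; hence every element
satisfies its quadratic equation up to an element of norm zero, and commuting elements satisfy the
discriminant relation.
-/

namespace SC15.EC

variable {R : Type} [Ring R]

/-- the trace form of a quadratic form on a ring -/
def trN (N : R → ℤ) (x : R) : ℤ := N (x + 1) - N x - N 1

/-- polar form -/
private def QF_B (N : R → ℤ) (x y : R) : ℤ := N (x + y) - N x - N y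

private theorem QF_zero {N : R → ℤ}
    (hp : ∀ x y, N (x + y) + N (x - y) = 2 * N x + 2 * N y) : N 0 = 0 := by
  have := hp 0 0
  simp only [add_zero, sub_zero] at this
  omega

private theorem QF_N3 {N : R → ℤ}
    (hp : ∀ x y, N (x + y) + N (x - y) = 2 * N x + 2 * N y) (x y z : R) :
    N (x + y + z) = N (x + y) + N (y + z) + N (x + z) - N x - N y - N z := by
  have h1 := hp (x + y) z
  have h2 := hp x (y - z)
  have h3 := hp (x + z) y
  have h4 := hp y z
  have e1 : x + (y - z) = x + y - z := by abel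
  have e2 : x - (y - z) = x + z - y := by abel
  have e3 : x + z + y = x + y + z := by abel
  rw [e1, e2] at h2
  rw [e3] at h3
  omega

private theorem QF_add {N : R → ℤ}
    (hp : ∀ x y, N (x + y) + N (x - y) = 2 * N x + 2 * N y) (x y z : R) :
    QF_B N (x + y) z = QF_B N x z + QF_B N y z := by
  have := QF_N3 hp x y z
  unfold QF_B
  omega

private theorem QF_symm (N : R → ℤ) (x y : R) : QF_B N x y = QF_B N y x := by
  unfold QF_B
  rw [add_comm y x]
  ring

private theorem QF_add' {N : R → ℤ}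
    (hp : ∀ x y, N (x + y) + N (x - y) = 2 * N x + 2 * N y) (x y z : R) :
    QF_B N x (y + z) = QF_B N x y + QF_B N x z := by
  rw [QF_symm, QF_add hp, QF_symm N y, QF_symm N z]

private theorem QF_smul {N : R → ℤ}
    (hp : ∀ x y, N (x + y) + N (x - y) = 2 * N x + 2 * N y) (n : ℤ) (x y : R) :
    QF_B N ((n : R) * x) y = n * QF_B N x y := by
  have := (AddMonoidHom.mk' (fun x => QF_B N x y) (fun a b => QF_add hp a b y)).map_zsmul n x
  simp only [AddMonoidHom.mk'_apply, zsmul_eq_mul, Int.cast_id] at this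
  exact this

private theorem QF_smul' {N : R → ℤ}
    (hp : ∀ x y, N (x + y) + N (x - y) = 2 * N x + 2 * N y) (n : ℤ) (x y : R) :
    QF_B N x ((n : R) * y) = n * QF_B N x y := by
  rw [QF_symm, QF_smul hp, QF_symm]

private theorem QF_self {N : R → ℤ}
    (hp : ∀ x y, N (x + y) + N (x - y) = 2 * N x + 2 * N y) (x : R) :
    QF_B N x x = 2 * N x := by
  have h := hp x x
  rw [sub_self, QF_zero hp] at h
  unfold QF_B
  omega

private theorem QF_Nsmul {N : R → ℤ}
    (hp : ∀ x y, N (x + y) + N (x - y) = 2 * N x + 2 * N y) (n : ℤ) (x : R) :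
    N ((n : R) * x) = n ^ 2 * N x := by
  have h := QF_self hp ((n : R) * x)
  rw [QF_smul hp, QF_smul' hp, QF_self hp] at h
  have : 2 * (n ^ 2 * N x) = 2 * N ((n : R) * x) := by rw [← h]; ring
  omega

private theorem QF_mul {N : R → ℤ} (hm : ∀ x y, N (x * y) = N x * N y) (y x z : R) :
    QF_B N (y * x) (y * z) = N y * QF_B N x z := by
  unfold QF_B
  rw [← mul_add, hm, hm, hm]
  ring

private theorem QF_pol {N : R → ℤ} (hm : ∀ x y, N (x * y) = N x * N y)
    (hp : ∀ x y, N (x + y) + N (x - y) = 2 * N x + 2 * N y) (y w x z : R) :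
    QF_B N (y * x) (w * z) + QF_B N (w * x) (y * z) = QF_B N y w * QF_B N x z := by
  have h := QF_mul hm (y + w) x z
  rw [add_mul, add_mul, QF_add hp, QF_add' hp, QF_add' hp, QF_mul hm, QF_mul hm] at h
  have e : N (y + w) = QF_B N y w + N y + N w := by unfold QF_B; ring
  rw [e] at h
  linarith

private theorem QF_tr {N : R → ℤ} (x : R) : trN N x = QF_B N x 1 := rfl

private theorem QF_trmul {N : R → ℤ} (hm : ∀ x y, N (x * y) = N x * N y)
    (hp : ∀ x y, N (x + y) + N (x - y) = 2 * N x + 2 * N y) (y x : R) :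
    QF_B N (y * x) 1 = QF_B N y 1 * QF_B N x 1 - QF_B N x y := by
  have h := QF_pol hm hp y 1 x 1
  rw [mul_one, mul_one, one_mul] at h
  linarith

theorem qform_quad (N : R → ℤ) (h1 : N 1 = 1) (hm : ∀ x y, N (x * y) = N x * N y)
    (hp : ∀ x y, N (x + y) + N (x - y) = 2 * N x + 2 * N y) (x : R) :
    N (x ^ 2 - ((trN N x : ℤ) : R) * x + ((N x : ℤ) : R)) = 0 := by
  rw [QF_tr]
  set t := QF_B N x 1 with ht
  set n := N x with hn
  have e : x ^ 2 - ((t : ℤ) : R) * x + ((n : ℤ) : R) =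
      x * x + (((-t : ℤ)) : R) * x + ((n : ℤ) : R) * 1 := by
    push_cast
    rw [mul_one]
    noncomm_ring
  rw [e, QF_N3 hp]
  have hB : ∀ a b, N (a + b) = QF_B N a b + N a + N b := by
    intro a b; unfold QF_B; ring
  rw [hB, hB, hB, QF_smul hp, QF_smul' hp, QF_smul' hp, QF_smul' hp, QF_Nsmul hp, QF_Nsmul hp, hm,
    h1, QF_trmul hm hp, QF_self hp]
  have h2 : QF_B N (x * x) x = n * t := by
    have := QF_mul hm x x 1
    rw [mul_one] at this
    rw [this]
  rw [h2, ← ht, ← hn]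
  ring

theorem qform_comm (N : R → ℤ) (h1 : N 1 = 1) (hm : ∀ x y, N (x * y) = N x * N y)
    (hp : ∀ x y, N (x + y) + N (x - y) = 2 * N x + 2 * N y) (x y : R) (hxy : x * y = y * x) :
    (4 * N x - trN N x ^ 2) * (4 * N y - trN N y ^ 2) =
      (2 * (N (x + y) - N x - N y) - trN N x * trN N y) ^ 2 := by
  have e0 : N (x + y) - N x - N y = QF_B N x y := rfl
  rw [QF_tr, QF_tr, e0]
  have a1 : QF_B N (x * x) 1 = QF_B N x 1 ^ 2 - 2 * N x := by
    rw [QF_trmul hm hp, QF_self hp]; ring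
  have a2 : QF_B N (y * y) 1 = QF_B N y 1 ^ 2 - 2 * N y := by
    rw [QF_trmul hm hp, QF_self hp]; ring
  have a3 : QF_B N (x * y) 1 = QF_B N x 1 * QF_B N y 1 - QF_B N x y := by
    rw [QF_trmul hm hp, QF_symm N y x]
  have a4 : QF_B N ((x * y) * (x * y)) 1 = QF_B N (x * y) 1 ^ 2 - 2 * N (x * y) := by
    rw [QF_trmul hm hp, QF_self hp]; ring
  have a5 : (x * y) * (x * y) = (x * x) * (y * y) := by
    rw [mul_assoc, ← mul_assoc y x y, ← hxy, mul_assoc x y y, ← mul_assoc]
  have a6 : QF_B N ((x * x) * (y * y)) 1 =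
      QF_B N (x * x) 1 * QF_B N (y * y) 1 - QF_B N (x * x) (y * y) := by
    rw [QF_trmul hm hp, QF_symm N (y * y) (x * x)]
  have a7 : QF_B N (x * x) (y * y) = QF_B N x y ^ 2 - 2 * N (x * y) := by
    have := QF_pol hm hp x y x y
    rw [← hxy, QF_self hp] at this
    linarith
  rw [a5, a6, a7, a1, a2, a3, hm] at a4
  linarith

theorem qform_disc (N : R → ℤ) (h1 : N 1 = 1) (hm : ∀ x y, N (x * y) = N x * N y)
    (hp : ∀ x y, N (x + y) + N (x - y) = 2 * N x + 2 * N y) (hpos : ∀ x, 0 ≤ N x) (x : R) :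
    trN N x ^ 2 ≤ 4 * N x := by
  rw [QF_tr]
  have h := hpos (((2 : ℤ) : R) * x + ((-(QF_B N x 1) : ℤ) : R) * 1)
  have hB : ∀ a b, N (a + b) = QF_B N a b + N a + N b := by
    intro a b; unfold QF_B; ring
  rw [hB, QF_smul hp, QF_smul' hp, QF_Nsmul hp, QF_Nsmul hp, h1] at h
  linarith

end SC15.EC
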