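import Mathlib
import Pool.Agent.SC15.B.Par
import Pool.Agent.SC15.B.QForm

/-!
Module SC15-B-RR: the ring `RR b` of all endomorphisms of the group `E_b(FF b)` commuting with the
maps induced by all `k`-endomorphisms of `FF b`, and the form `NN ψ = hh (ψ (gP))` on it.
-/

open Polynomial
open scoped Classical

namespace SC15.EC

variable {k : Type} [Field k] [Odd k]

/-- the ring of endomorphisms of `E_b(FF b)` commuting with all `k`-endomorphisms of `FF b` -/
noncomputable def RR (b : k) : Subring (AddMonoid.End (Pt b (FF b))) :=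
  Subring.centralizer (Set.range (fun ρ : FF b →ₐ[k] FF b =>
    (pmap b ρ : AddMonoid.End (Pt b (FF b)))))

theorem mem_RR {b : k} (ψ : AddMonoid.End (Pt b (FF b))) :
    ψ ∈ RR b ↔ ∀ (ρ : FF b →ₐ[k] FF b) (P : Pt b (FF b)), ψ (pmap b ρ P) = pmap b ρ (ψ P) := by
  unfold RR
  rw [Subring.mem_centralizer_iff]
  constructor
  · intro h ρ P
    have := h _ ⟨ρ, rfl⟩
    exact (DFunLike.congr_fun this P).symm
  · rintro h _ ⟨ρ, rfl⟩
    refine AddMonoidHom.ext fun P => ?_
    exact (h ρ P).symm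

/-- the degree form -/
noncomputable def NN {b : k} (hb : Ell b) (ψ : RR b) : ℤ :=
  (hh ((ψ : AddMonoid.End (Pt b (FF b))) (gP hb)) : ℤ)

theorem odd_of_mem {b : k} (hb : Ell b) (ψ : RR b) :
    OddPt ((ψ : AddMonoid.End (Pt b (FF b))) (gP hb)) := by
  have h1 := (mem_RR ψ.1).mp ψ.2 (tau b) (gP hb)
  have h2 : pmap b (tau b) (gP hb) = - gP hb := (odd_gP hb).1
  unfold OddPt
  rw [← h1, h2]
  exact map_neg _ _

theorem NN_one {b : k} (hb : Ell b) : NN hb 1 = 1 := by
  have h := (odd_gP hb).2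
  unfold NN
  have e : ((1 : RR b) : AddMonoid.End (Pt b (FF b))) (gP hb) = gP hb := rfl
  rw [e, h]
  rfl

theorem NN_par {b : k} (hb : Ell b) (ψ χ : RR b) :
    NN hb (ψ + χ) + NN hb (ψ - χ) = 2 * NN hb ψ + 2 * NN hb χ := by
  have h := hh_par hb (odd_of_mem hb ψ) (odd_of_mem hb χ)
  unfold NN
  have e1 : ((ψ + χ : RR b) : AddMonoid.End (Pt b (FF b))) (gP hb) =
    (ψ : AddMonoid.End (Pt b (FF b))) (gP hb) + (χ : AddMonoid.End (Pt b (FF b))) (gP hb) := rfl
  have e2 : ((ψ - χ : RR b) : AddMonoid.End (Pt b (FF b))) (gP hb) =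
    (ψ : AddMonoid.End (Pt b (FF b))) (gP hb) - (χ : AddMonoid.End (Pt b (FF b))) (gP hb) := rfl
  rw [e1, e2]
  exact_mod_cast h

private theorem RR_hh_zero {b : k} : hh (0 : Pt b (FF b)) = 0 := rfl

private theorem RR_hh_some {b : k} (r : RatFunc k) (x y : FF b)
    (h : ((Eb b).baseChange (FF b)).toAffine.Nonsingular x y)
    (hx : x = algebraMap (RatFunc k) (FF b) r) :
    hh (b := b) (.some x y h) = ht r := by
  subst hx
  exact hh_some r y h

theorem NN_mul {b : k} (hb : Ell b) (ψ χ : RR b) : NN hb (ψ * χ) = NN hb ψ * NN hb χ := by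
  have key : hh (((ψ * χ : RR b) : AddMonoid.End (Pt b (FF b))) (gP hb)) =
      hh ((ψ : AddMonoid.End (Pt b (FF b))) (gP hb)) *
        hh ((χ : AddMonoid.End (Pt b (FF b))) (gP hb)) := by
    have e0 : ((ψ * χ : RR b) : AddMonoid.End (Pt b (FF b))) (gP hb) =
      (ψ : AddMonoid.End (Pt b (FF b))) ((χ : AddMonoid.End (Pt b (FF b))) (gP hb)) := rfl
    have hodd := odd_of_mem hb (ψ * χ)
    rw [e0] at hodd ⊢
    have hQodd := odd_of_mem hb χ
    have hPodd := odd_of_mem hb ψ
    set Q := (χ : AddMonoid.End (Pt b (FF b))) (gP hb) with hQ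
    by_cases h0 : hh Q = 0
    · have h1 := hh_zero hb hQodd h0
      have h2 : (ψ : AddMonoid.End (Pt b (FF b))) Q + (ψ : AddMonoid.End (Pt b (FF b))) Q = 0 := by
        rw [← map_add, h1, map_zero]
      have h3 := hh_par hb hodd hodd
      rw [h2, sub_self, RR_hh_zero] at h3
      rw [h0, mul_zero]
      omega
    · rcases odd_cases hQodd with h1 | ⟨s, y, h, h1⟩
      · rw [h1] at h0
        exact absurd RR_hh_zero h0
      · rw [h1, hh_some] at h0
        have hs : ∀ c, s ≠ RatFunc.C c := by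
          intro c hc
          rw [hc, ht_C] at h0
          exact h0 rfl
        have htr : Transcendental k (algebraMap (RatFunc k) (FF b) s) := by
          rw [transcendental_algebraMap_iff (algebraMap (RatFunc k) (FF b)).injective]
          exact RatFunc.transcendental_of_ne_C s (by rintro ⟨c, hc⟩; exact hs c hc)
        obtain ⟨ρ, hρx, hρy⟩ := ff_lift (algebraMap (RatFunc k) (FF b) s) y htr
          (eqn_iff.mp h.1)
        have hρ : pmap b ρ (gP hb) = Q := by
          rw [h1]
          unfold gP pt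
          rw [WeierstrassCurve.Affine.Point.map_some]
          simp only [hρx, hρy]
        have e1 : (ψ : AddMonoid.End (Pt b (FF b))) Q =
            pmap b ρ ((ψ : AddMonoid.End (Pt b (FF b))) (gP hb)) := by
          rw [← hρ]
          exact (mem_RR ψ.1).mp ψ.2 ρ (gP hb)
        rw [e1]
        rcases odd_cases hPodd with h2 | ⟨r, y', h', h2⟩
        · rw [h2, map_zero, RR_hh_zero, zero_mul]
        · have h4 := ht_comp s hs r.num r.denom (RatFunc.isCoprime_num_denom r) r.denom_ne_zero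
          rw [h2, WeierstrassCurve.Affine.Point.map_some, hh_some, h1, hh_some,
            RR_hh_some (aeval s r.num / aeval s r.denom) _ _ _ ?_, h4.2]
          · rfl
          · rw [ff_rat ρ r, hρx, map_div₀, ← aeval_algebraMap_apply, ← aeval_algebraMap_apply]
  unfold NN
  rw [key]
  push_cast
  rfl

theorem NN_zero {b : k} (hb : Ell b) (ψ : RR b) (h : NN hb ψ = 0) :
    (ψ : AddMonoid.End (Pt b (FF b))) (gP hb) + (ψ : AddMonoid.End (Pt b (FF b))) (gP hb) = 0 := by
  refine hh_zero hb (odd_of_mem hb ψ) ?_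
  unfold NN at h
  exact_mod_cast h

end SC15.EC
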