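import Mathlib
import Pool.Agent.SC15.B.Ring
import Pool.Agent.SC15.B.Iso2
import Pool.Agent.SC15.B.Der

/-!
Module SC15-B-FR1: the Frobenius endomorphism and `mu` as elements of the ring `RR b`.
-/

open Polynomial
open scoped Classical

namespace SC15.EC

open Pool.Agent.Helper54.InvDiff

variable {k : Type} [Field k] [Odd k]

/-- the Frobenius on points of the function field -/
noncomputable def phiEnd [Fintype k] (b : k) : AddMonoid.End (Pt b (FF b)) :=
  pmap b (FiniteField.frobeniusAlgHom k (FF b))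

theorem phiEnd_mem [Fintype k] (b : k) : phiEnd b ∈ RR b := by
  rw [mem_RR]
  intro ρ P
  have e : (FiniteField.frobeniusAlgHom k (FF b)).comp ρ =
      ρ.comp (FiniteField.frobeniusAlgHom k (FF b)) := by
    refine AlgHom.ext fun x => ?_
    simp
  change pmap b (FiniteField.frobeniusAlgHom k (FF b)) (pmap b ρ P) =
    pmap b ρ (pmap b (FiniteField.frobeniusAlgHom k (FF b)) P)
  rw [WeierstrassCurve.Affine.Point.map_map, WeierstrassCurve.Affine.Point.map_map, e]

private theorem FR1_hh_some {b : k} (r : RatFunc k) (x y : FF b)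
    (h : ((Eb b).baseChange (FF b)).toAffine.Nonsingular x y)
    (hx : x = algebraMap (RatFunc k) (FF b) r) :
    hh (b := b) (.some x y h) = ht r := by
  subst hx
  exact hh_some r y h

omit [Odd k] in
private theorem FR1_ht_pow (n : ℕ) : ht (RatFunc.X ^ n : RatFunc k) = n := by
  have h := ht_frac (X ^ n : k[X]) 1 isCoprime_one_right one_ne_zero
  rw [map_one, div_one, map_pow, RatFunc.algebraMap_X, natDegree_X_pow, natDegree_one] at h
  rw [h]
  simp

theorem NN_phi [Fintype k] {b : k} (hb : Ell b) :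
    NN hb ⟨phiEnd b, phiEnd_mem b⟩ = Fintype.card k := by
  have key : hh (phiEnd b (gP hb)) = Fintype.card k := by
    have e : phiEnd b (gP hb) = pmap b (FiniteField.frobeniusAlgHom k (FF b)) (gP hb) := rfl
    rw [e]
    unfold gP pt
    rw [WeierstrassCurve.Affine.Point.map_some]
    rw [FR1_hh_some (RatFunc.X ^ Fintype.card k), FR1_ht_pow]
    simp [gX]
  unfold NN
  simp only [key]

theorem isogEnd_mem {b m : k} {d : ℕ} (f : Isog b b m d) :
    (f.f (FF b) : AddMonoid.End (Pt b (FF b))) ∈ RR b := by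
  refine (mem_RR (b := b) (f.f (FF b))).mpr ?_
  intro ρ P
  exact f.nat (FF b) (FF b) ρ P

theorem NN_isog {b m : k} {d : ℕ} (hb : Ell b) (f : Isog b b m d) :
    NN hb ⟨f.f (FF b), isogEnd_mem f⟩ = d := by
  have hX : ∀ c, (RatFunc.X : RatFunc k) ≠ RatFunc.C c := by
    intro c hc
    have h1 := ht_X (k := k)
    rw [hc, ht_C] at h1
    exact zero_ne_one h1
  obtain ⟨r', _, h2, y', h', h3⟩ := f.deg (FF b) RatFunc.X hX (gY b) (nonsing hb (g_eqn b))
  have key : hh (f.f (FF b) (gP hb)) = d := by
    have e : gP hb = .some (algebraMap (RatFunc k) (FF b) RatFunc.X) (gY b)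
      (nonsing hb (g_eqn b)) := rfl
    rw [e, h3, hh_some, h2, ht_X, mul_one]
  exact congrArg (Nat.cast : ℕ → ℤ) key

omit [Odd k] in
theorem const_base (b : k) (M : Type) [Field M] [Algebra k M] (D : Derivation k M M) :
    Const (D.restrictScalars ℤ) ((Eb b).baseChange M).toAffine := by
  refine ⟨?_, ?_, ?_, ?_, ?_⟩ <;>
  · simp only [WeierstrassCurve.baseChange, WeierstrassCurve.map_a₁, WeierstrassCurve.map_a₂,
      WeierstrassCurve.map_a₃, WeierstrassCurve.map_a₄, WeierstrassCurve.map_a₆]
    exact D.map_algebraMap _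

theorem dl_gP {b : k} (hb : Ell b) (D : Derivation k (FF b) (FF b)) (hD : D (gX b) = 1) :
    dl (D.restrictScalars ℤ) ((Eb b).baseChange (FF b)).toAffine (gP hb) ≠ 0 := by
  intro h
  have h1 := (dl_spec (const_base b (FF b) D) (nonsing hb (g_eqn b))).1
  have h2 : dl (D.restrictScalars ℤ) ((Eb b).baseChange (FF b)).toAffine
    (.some (gX b) (gY b) (nonsing hb (g_eqn b))) = 0 := h
  rw [h2, zero_mul] at h1
  have h3 : D (gX b) = 0 := h1
  rw [hD] at h3
  exact one_ne_zero h3

end SC15.EC
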