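import Mathlib
import Pool.Agent.SC15.B.Iso2

/-!
Module SC15-B-MU (0.5 h): the endomorphism `mu` of degree 16 and multiplier `1 - sqrt(-15)` of `E_{b0}`.

Chain `b0 → b1 → b1' → b1 → b0` with `54 b1 = 1 + r5`, `54 b1' = 1 - r5` and parameters
`s0 = -1 + r5`, `s = sg - 1`, `t = - sg - 1`, `s1 = -1 - 2/r5`, where `sg = (r5 + r3)/2`,
`x = r5 r3`, `x^2 = -15`, `sg^2 = (1 + x)/2`.
In terms of `g = 1 + s` (any `s`): `al s = (g-1)(g+2)^2/(54 g^3) = (g^3+3g^2-4)/(54 g^3)`,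
`be s = (g-1)^2(g+2)/108 = (g^3-3g+2)/108`. Verify (field_simp, linear_combination with `r5^2 = 5`,
`r3^2 = -3`): `al s0 = b0`, `be s0 = b1`, `al s = b1`, `be s = b1'`, `al t = b1'`, `be t = b1`,
`al s1 = b1`, `be s1 = b0`.
Nonvanishing conditions (each follows from an identity with right side a power of 2, 3, 5; e.g.
`s0 = 0` means `r5 = 1`, so `5 = 1`, `4 = 0`): for `g = r5`: `g <> 0, 1, -2, 2, -1`; for `g = ± sg`:
`sg^2 = (1+x)/2 <> 0, 1, 4` because `x <> -1, 1, 7` (`x^2 = -15`: `16 = 0`, `16 = 0`, `64 = 0`);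
for `g = -2/r5`: `r5 <> -2, 1, -1, 2`.
Multiplier: `(2/g0)(2/g)(2/g')(2/g1) = 16/(1 + x) = 1 - x` since `r5 * sg * (-sg) * (-2/r5) = 2 sg^2 = 1 + x`
and `(1+x)(1-x) = 16`. Use `Isog.comp` three times and rewrite the parameters
(`Isog` with `al s` replaced by `b0` etc.: `rw ... at` on `Nonempty`, or `h ▸`).
-/

open Polynomial
open scoped Classical

namespace SC15.EC

variable {k : Type} [Field k]

private lemma mu_al {g X : k} (h54 : (54 : k) ≠ 0) (hg : g ≠ 0)
    (h : g ^ 3 + 3 * g ^ 2 - 4 = 54 * X * g ^ 3) : al (g - 1) = X := by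
  unfold al
  rw [div_eq_iff (mul_ne_zero h54 (pow_ne_zero _ (by simpa using hg)))]
  linear_combination h

private lemma mu_be {g X : k} (h108 : (108 : k) ≠ 0) (h : g ^ 3 - 3 * g + 2 = 108 * X) :
    be (g - 1) = X := by
  unfold be
  rw [div_eq_iff h108]
  linear_combination h

private lemma mu_isog (h2 : (2 : k) ≠ 0) (h3 : (3 : k) ≠ 0) (g X Y : k)
    (h0 : g ≠ 0) (h1 : g ≠ 1) (hm1 : g ≠ -1) (hp2 : g ≠ 2) (hm2 : g ≠ -2)
    (hX : g ^ 3 + 3 * g ^ 2 - 4 = 54 * X * g ^ 3) (hY : g ^ 3 - 3 * g + 2 = 108 * Y) :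
    Nonempty (Isog X Y (2 / g) 2) := by
  have h54 : (54 : k) ≠ 0 := by
    have : (54 : k) = 2 * (3 * (3 * 3)) := by norm_num
    rw [this]; exact mul_ne_zero h2 (mul_ne_zero h3 (mul_ne_zero h3 h3))
  have h108 : (108 : k) ≠ 0 := by
    have : (108 : k) = 2 * 54 := by norm_num
    rw [this]; exact mul_ne_zero h2 h54
  have := exists_isog h2 h3 (g - 1) (sub_ne_zero.mpr h1)
    (fun h => hm2 (by linear_combination h)) (fun h => h0 (by linear_combination h))
    (fun h => hp2 (by linear_combination -h)) (fun h => hm1 (by linear_combination h))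
  rw [mu_al h54 h0 hX, mu_be h108 hY] at this
  have e : 1 + (g - 1) = g := by ring
  rwa [e] at this

theorem exists_mu (h2 : (2 : k) ≠ 0) (h3 : (3 : k) ≠ 0) (h5 : (5 : k) ≠ 0) (r5 r3 b0 : k)
    (hr5 : r5 ^ 2 = 5) (hr3 : r3 ^ 2 = -3) (hb : 54 * 25 * b0 = 25 + 11 * r5) :
    Nonempty (Isog b0 b0 (1 - r5 * r3) 16) := by
  have h4 : (4 : k) ≠ 0 := by
    have : (4 : k) = 2 * 2 := by norm_num
    rw [this]; exact mul_ne_zero h2 h2
  have h16 : (16 : k) ≠ 0 := by
    have : (16 : k) = 4 * 4 := by norm_num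
    rw [this]; exact mul_ne_zero h4 h4
  have h64 : (64 : k) ≠ 0 := by
    have : (64 : k) = 4 * 16 := by norm_num
    rw [this]; exact mul_ne_zero h4 h16
  have h54 : (54 : k) ≠ 0 := by
    have : (54 : k) = 2 * (3 * (3 * 3)) := by norm_num
    rw [this]; exact mul_ne_zero h2 (mul_ne_zero h3 (mul_ne_zero h3 h3))
  have hx2 : (r5 * r3) ^ 2 = -15 := by linear_combination r3 ^ 2 * hr5 + 5 * hr3
  have hr0 : r5 ≠ 0 := by
    rintro rfl
    exact h5 (by linear_combination -hr5)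
  obtain ⟨b1, hb1⟩ : ∃ b1 : k, 54 * b1 = 1 + r5 := ⟨(1 + r5) / 54, by field_simp⟩
  obtain ⟨b2, hb2⟩ : ∃ b2 : k, 54 * b2 = 1 - r5 := ⟨(1 - r5) / 54, by field_simp⟩
  obtain ⟨σ, hσ⟩ : ∃ σ : k, 2 * σ = r5 + r3 := ⟨(r5 + r3) / 2, by field_simp⟩
  obtain ⟨ρ, hρ⟩ : ∃ ρ : k, r5 * ρ = 2 := ⟨2 / r5, by field_simp⟩
  have hσ2 : 2 * σ ^ 2 = 1 + r5 * r3 := by
    refine mul_left_cancel₀ h2 ?_
    linear_combination (2 * σ + r5 + r3) * hσ + hr5 + hr3
  have hσ3 : r5 * σ ^ 3 = 3 * σ ^ 2 - 4 := by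
    refine mul_left_cancel₀ h4 ?_
    linear_combination (2 * r5 * σ - 6) * hσ2 + (r5 + r5 ^ 2 * r3) * hσ
      + (1 + r5 * r3 + r3 ^ 2) * hr5 + 5 * hr3
  have hσ4 : σ ^ 3 - 3 * σ = -2 * r5 := by
    refine mul_left_cancel₀ h4 ?_
    linear_combination (2 * σ) * hσ2 + (1 + r5 * r3 - 6) * hσ + r3 * hr5 + r5 * hr3
  have hρ2 : 5 * ρ ^ 2 = 4 := by linear_combination (r5 * ρ + 2) * hρ - ρ ^ 2 * hr5
  have hρ1 : 5 * ρ = 2 * r5 := by linear_combination r5 * hρ - ρ * hr5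
  -- nonvanishing
  have nx1 : r5 * r3 ≠ 1 := fun h => h16 (by rw [h] at hx2; linear_combination hx2)
  have nxm1 : r5 * r3 ≠ -1 := fun h => h16 (by rw [h] at hx2; linear_combination hx2)
  have nx7 : r5 * r3 ≠ 7 := fun h => h64 (by rw [h] at hx2; linear_combination hx2)
  have nσ0 : σ ≠ 0 := by
    rintro rfl
    exact nxm1 (by linear_combination -hσ2)
  have nσ1 : σ ≠ 1 := by
    rintro rfl
    exact nx1 (by linear_combination -hσ2)
  have nσm1 : σ ≠ -1 := by
    rintro rfl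
    exact nx1 (by linear_combination -hσ2)
  have nσ2 : σ ≠ 2 := by
    rintro rfl
    exact nx7 (by linear_combination -hσ2)
  have nσm2 : σ ≠ -2 := by
    rintro rfl
    exact nx7 (by linear_combination -hσ2)
  have nρ0 : ρ ≠ 0 := by
    rintro rfl
    exact h2 (by linear_combination -hρ)
  obtain ⟨f0⟩ := mu_isog h2 h3 r5 b0 b1 hr0
    (by rintro rfl; exact h4 (by linear_combination -hr5))
    (by rintro rfl; exact h4 (by linear_combination -hr5))
    (by rintro rfl; exact one_ne_zero (α := k) (by linear_combination -hr5))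
    (by rintro rfl; exact one_ne_zero (α := k) (by linear_combination -hr5))
    (by
      refine mul_left_cancel₀ h5 ?_
      linear_combination (-270 * b0 * r5 + 5 * r5 + 4) * hr5 - r5 * hb)
    (by linear_combination r5 * hr5 - 2 * hb1)
  obtain ⟨f1⟩ := mu_isog h2 h3 σ b1 b2 nσ0 nσ1 nσm1 nσ2 nσm2
    (by linear_combination -hσ3 - σ ^ 3 * hb1)
    (by linear_combination hσ4 - 2 * hb2)
  obtain ⟨f2⟩ := mu_isog h2 h3 (-σ) b2 b1 (neg_ne_zero.mpr nσ0)
    (fun h => nσm1 (by linear_combination -h)) (fun h => nσ1 (by linear_combination -h))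
    (fun h => nσm2 (by linear_combination -h)) (fun h => nσ2 (by linear_combination -h))
    (by linear_combination -hσ3 + σ ^ 3 * hb2)
    (by linear_combination -hσ4 - 2 * hb1)
  obtain ⟨f3⟩ := mu_isog h2 h3 (-ρ) b1 b0 (neg_ne_zero.mpr nρ0)
    (fun h => one_ne_zero (α := k) (by
      have : ρ = -1 := by linear_combination -h
      rw [this] at hρ2; linear_combination hρ2))
    (fun h => one_ne_zero (α := k) (by
      have : ρ = 1 := by linear_combination -h
      rw [this] at hρ2; linear_combination hρ2))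
    (fun h => h16 (by
      have : ρ = -2 := by linear_combination -h
      rw [this] at hρ2; linear_combination hρ2))
    (fun h => h16 (by
      have : ρ = 2 := by linear_combination -h
      rw [this] at hρ2; linear_combination hρ2))
    (by linear_combination hρ2 + ρ ^ 3 * hb1 + ρ ^ 2 * hρ)
    (by
      refine mul_left_cancel₀ (mul_ne_zero h5 (mul_ne_zero h5 h5)) ?_
      linear_combination (-(25 * ρ ^ 2 + 10 * ρ * r5 + 4 * r5 ^ 2) + 75) * hρ1
        - 8 * r5 * hr5 - 10 * hb)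
  have hmul : 2 / (-ρ) * (2 / (-σ) * (2 / σ * (2 / r5))) = 1 - r5 * r3 := by
    have hne : (1 + r5 * r3) ≠ 0 := fun h => nxm1 (by linear_combination h)
    have e : 2 / (-ρ) * (2 / (-σ) * (2 / σ * (2 / r5))) = 16 / (r5 * ρ * σ ^ 2) := by
      field_simp
      norm_num
    rw [e, hρ, hσ2, div_eq_iff hne]
    linear_combination hx2
  have F := f3.comp (f2.comp (f1.comp f0))
  rw [hmul] at F
  exact ⟨F⟩

end SC15.EC
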