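import Mathlib
import Pool.Agent.SC15.B.Frob1
import Pool.Agent.SC15.B.Mu

/-!
Module SC15-B-FR2 (0.7 h): the trace of Frobenius of `E_{b0}`.

Put `q = p^2`, `phi = ⟨phiEnd b0, _⟩`, `mu` from `exists_mu`, `N = NN hb`, all in the ring `RR b0`;
`N >= 0`. `T = trN N`, `a = T phi`.
Plan.
 (1) `T mu = 2`: `qform_quad` and `NN_zero` give `2 (mu^2 - T mu + 16) gP = 0`; apply
 `dlHom` (Helper54/InvDiff; `const_base`), with `f.del`: `2 (m^2 - T m + 16) delta(gP) = 0`, `m = 1 - x`,
 `x = r5 r3`, `x^2 = -15`, so `m^2 - T m + 16 = 0` in `k` (`dl_gP`, injectivity of `k → FF`), and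
 `m^2 - 2 m + 16 = 0`; `m (1 + x) = 16 <> 0`; hence `(T - 2 : k) = 0`, `p ∣ T - 2`
 (`CharP.intCast_eq_zero_iff`), `T^2 <= 64` (`qform_disc`) and `p >= 11` give `T = 2`.
 (2) `qform_comm` for `phi, mu` (they commute since `mu ∈ RR`): `(4q - a^2) 60 = (2 B - 2 a)^2`, so
 `15 (4 q - a^2) = (B - a)^2`, `15 ∣ B - a` (15 squarefree), `4 q - a^2 = 15 z^2`.
 (3) relation: `qform_quad` for `phi`: `2 (phi^2 - a phi + q) gP = 0`; for any `M` and `P = (x, y)` with
 `x` transcendental: `ρ : FF b0 →ₐ[k] M` with `pmap ρ gP = P` (`ff_lift`), and `pmap ρ` commutes with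
 Frobenius.
 (4) `3 ∣ q + 1 - a`: let `T3 = (0, 0)` in `E(FF)`; `T3 + T3 = - T3 <> T3`, so `n T3 = 0` iff `3 ∣ n`;
 `Frob T3 = T3`. The point `P = gP + T3` has `x`-coordinate `Z = - b Y / X^2` (slope `Y/X`), which is
 transcendental: otherwise `tau Z` and `Z + tau Z = b (X + b)/X^2` would be algebraic over `k`, but this is
 a nonconstant rational function (`RatFunc.transcendental_of_ne_C`). The relations (3) for `P` and for `gP`
 give `2 (1 - a + q) T3 = 0`.
-/

open Polynomial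
open scoped Classical

namespace SC15.EC

open Pool.Agent.Helper54.InvDiff

variable {k : Type} [Field k]

/-- the Frobenius relation (up to the factor two) for the point `P` -/
def FrobRel [Fintype k] (b : k) (a q : ℤ) {M : Type} [Field M] [Algebra k M] (P : Pt b M) : Prop :=
  (2 : ℤ) • (pmap b (FiniteField.frobeniusAlgHom k M) (pmap b (FiniteField.frobeniusAlgHom k M) P)
    - a • pmap b (FiniteField.frobeniusAlgHom k M) P + q • P) = 0

section FR2

variable [Odd k]

private theorem FR2_quad {b : k} (hb : Ell b) (ψ : RR b) (t n : ℤ)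
    (h : NN hb (ψ ^ 2 - ((t : ℤ) : RR b) * ψ + ((n : ℤ) : RR b)) = 0) :
    (2 : ℤ) • ((ψ : AddMonoid.End (Pt b (FF b))) ((ψ : AddMonoid.End (Pt b (FF b))) (gP hb))
      - t • (ψ : AddMonoid.End (Pt b (FF b))) (gP hb) + n • gP hb) = 0 := by
  have h1 := NN_zero hb _ h
  have e : ((ψ ^ 2 - ((t : ℤ) : RR b) * ψ + ((n : ℤ) : RR b) : RR b) :
      AddMonoid.End (Pt b (FF b))) (gP hb) =
      (ψ : AddMonoid.End (Pt b (FF b))) ((ψ : AddMonoid.End (Pt b (FF b))) (gP hb))
      - t • (ψ : AddMonoid.End (Pt b (FF b))) (gP hb) + n • gP hb := by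
    have e1 : ((ψ ^ 2 - ((t : ℤ) : RR b) * ψ + ((n : ℤ) : RR b) : RR b) :
      AddMonoid.End (Pt b (FF b))) = (ψ : AddMonoid.End (Pt b (FF b))) *
        (ψ : AddMonoid.End (Pt b (FF b))) - ((t : ℤ) : AddMonoid.End (Pt b (FF b))) *
        (ψ : AddMonoid.End (Pt b (FF b))) + ((n : ℤ) : AddMonoid.End (Pt b (FF b))) := by
      push_cast
      rw [pow_two]
    rw [e1]
    rfl
  rw [e] at h1
  rw [two_smul]
  exact h1

private theorem FR2_tr {b : k} (hb : Ell b) (ψ : RR b) :
    (2 : ℤ) • ((ψ : AddMonoid.End (Pt b (FF b))) ((ψ : AddMonoid.End (Pt b (FF b))) (gP hb))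
      - (trN (NN hb) ψ) • (ψ : AddMonoid.End (Pt b (FF b))) (gP hb) + (NN hb ψ) • gP hb) = 0 :=
  FR2_quad hb ψ _ _ (qform_quad (NN hb) (NN_one hb) (NN_mul hb) (NN_par hb) ψ)

/-- from the differential: the multiplier satisfies the quadratic equation -/
private theorem FR2_mult {b m : k} {d : ℕ} (hb : Ell b) (f : Isog b b m d) :
    m ^ 2 - ((trN (NN hb) ⟨f.f (FF b), isogEnd_mem f⟩ : ℤ) : k) * m + (d : k) = 0 := by
  obtain ⟨D, hD⟩ := exists_der b
  have hc := const_base b (FF b) D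
  have h0 := dl_gP hb D hD
  have hq := FR2_tr hb ⟨f.f (FF b), isogEnd_mem f⟩
  rw [NN_isog hb f] at hq
  set T : ℤ := trN (NN hb) ⟨f.f (FF b), isogEnd_mem f⟩ with hT
  have h1 := congrArg (dlHom (D.restrictScalars ℤ) ((Eb b).baseChange (FF b)).toAffine hc) hq
  rw [map_zero, map_zsmul, map_add, map_sub, map_zsmul, map_zsmul, dlHom_apply, dlHom_apply,
    dlHom_apply] at h1
  have e1 : ∀ P : Pt b (FF b), dl (D.restrictScalars ℤ) ((Eb b).baseChange (FF b)).toAffine
      ((((⟨f.f (FF b), isogEnd_mem f⟩ : RR b) : AddMonoid.End (Pt b (FF b)))) P) =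
      algebraMap k (FF b) m * dl (D.restrictScalars ℤ) ((Eb b).baseChange (FF b)).toAffine P :=
    fun P => f.del (FF b) D P
  rw [e1, e1] at h1
  set δ : FF b := dl (D.restrictScalars ℤ) ((Eb b).baseChange (FF b)).toAffine (gP hb) with hδ
  have h2 : (algebraMap k (FF b) 2 * algebraMap k (FF b) (m ^ 2 - (T : k) * m + (d : k))) * δ
      = 0 := by
    rw [← h1]
    simp only [map_add, map_sub, map_mul, map_pow, map_intCast, map_natCast, map_ofNat,
      zsmul_eq_mul]
    push_cast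
    ring
  have h3 := (mul_eq_zero.mp h2).resolve_right h0
  rw [← map_mul] at h3
  have h4 : (2 : k) * (m ^ 2 - (T : k) * m + (d : k)) = 0 :=
    (FaithfulSMul.algebraMap_injective k (FF b)) (by rw [h3, map_zero])
  exact (mul_eq_zero.mp h4).resolve_left Odd.two

private theorem FR2_T {b : k} (p : ℕ) [Fact p.Prime] [CharP k p] (hp : 11 ≤ p) (hb : Ell b)
    (x : k) (hx : x ^ 2 = -15) (f : Isog b b (1 - x) 16) :
    trN (NN hb) ⟨f.f (FF b), isogEnd_mem f⟩ = 2 := by
  have h1 := FR2_mult hb f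
  have h2 := qform_disc (NN hb) (NN_one hb) (NN_mul hb) (NN_par hb) (fun ψ => Int.natCast_nonneg _)
    ⟨f.f (FF b), isogEnd_mem f⟩
  rw [NN_isog hb f] at h2
  set T : ℤ := trN (NN hb) ⟨f.f (FF b), isogEnd_mem f⟩ with hT
  have hp' : p.Prime := Fact.out
  have h16 : (16 : k) ≠ 0 := by
    intro h
    have : ((16 : ℕ) : k) = 0 := by exact_mod_cast h
    rw [CharP.cast_eq_zero_iff k p] at this
    have h3 : p ∣ 2 ^ 4 := by simpa using this
    have := Nat.le_of_dvd (by norm_num) (hp'.dvd_of_dvd_pow h3)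
    omega
  have hm : (1 - x) ≠ 0 := by
    intro h
    apply h16
    linear_combination (1 + x) * h + hx
  have h3 : (((T - 2 : ℤ)) : k) * (1 - x) = 0 := by
    push_cast at h1 ⊢
    linear_combination (-1 : k) * h1 + hx
  have h4 : (((T - 2 : ℤ)) : k) = 0 := (mul_eq_zero.mp h3).resolve_right hm
  rw [CharP.intCast_eq_zero_iff k p] at h4
  obtain ⟨c, hc⟩ := h4
  have h5 : -8 ≤ T ∧ T ≤ 8 := by
    push_cast at h2
    constructor <;> nlinarith
  have hp2 : (11 : ℤ) ≤ p := by exact_mod_cast hp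
  have hc0 : c = 0 := by
    by_contra hne
    have : (11 : ℤ) ≤ |T - 2| := by
      rw [hc, abs_mul]
      have h6 : (1 : ℤ) ≤ |c| := Int.one_le_abs hne
      have h7 : (11 : ℤ) ≤ |(p : ℤ)| := by rw [abs_of_nonneg (by omega)]; exact hp2
      nlinarith
    rcases abs_cases (T - 2) with h8 | h8 <;> omega
  rw [hc0] at hc
  omega

private theorem FR2_rel [Fintype k] {b : k} (hb : Ell b) {M : Type} [Field M] [Algebra k M]
    (x y : M) (hx : Transcendental k x)
    (h : ((Eb b).baseChange M).toAffine.Nonsingular x y) :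
    FrobRel b (trN (NN hb) ⟨phiEnd b, phiEnd_mem b⟩) (Fintype.card k : ℤ) (M := M)
      (.some x y h) := by
  obtain ⟨ρ, hρx, hρy⟩ := ff_lift (b := b) x y hx (eqn_iff.mp h.1)
  have hP : pmap b ρ (gP hb) = .some x y h := by
    subst hρx hρy
    rfl
  have hF : ∀ P : Pt b (FF b), pmap b ρ (pmap b (FiniteField.frobeniusAlgHom k (FF b)) P) =
      pmap b (FiniteField.frobeniusAlgHom k M) (pmap b ρ P) := by
    intro P
    rw [WeierstrassCurve.Affine.Point.map_map, WeierstrassCurve.Affine.Point.map_map]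
    congr 1
    congr 1
    ext z
    simp [FiniteField.coe_frobeniusAlgHom]
  have hq := FR2_tr hb ⟨phiEnd b, phiEnd_mem b⟩
  rw [NN_phi hb] at hq
  set a : ℤ := trN (NN hb) ⟨phiEnd b, phiEnd_mem b⟩ with ha
  have h1 := congrArg (pmap b ρ) hq
  rw [map_zero, map_zsmul, map_add, map_sub, map_zsmul, map_zsmul] at h1
  have e1 : pmap b ρ (((⟨phiEnd b, phiEnd_mem b⟩ : RR b) : AddMonoid.End (Pt b (FF b))) (gP hb))
      = pmap b (FiniteField.frobeniusAlgHom k M) (.some x y h) := by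
    rw [← hP, ← hF]
    rfl
  have e2 : pmap b ρ (((⟨phiEnd b, phiEnd_mem b⟩ : RR b) : AddMonoid.End (Pt b (FF b)))
      (((⟨phiEnd b, phiEnd_mem b⟩ : RR b) : AddMonoid.End (Pt b (FF b))) (gP hb)))
      = pmap b (FiniteField.frobeniusAlgHom k M)
        (pmap b (FiniteField.frobeniusAlgHom k M) (.some x y h)) := by
    rw [← e1, ← hF]
    rfl
  rw [e1, e2, hP] at h1
  exact h1

/-- the point `(0,0)` of order three -/
private noncomputable def FR2_T3 {b : k} (hb : Ell b) (M : Type) [Field M] [Algebra k M] :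
    Pt b M := pt hb 0 0 (by ring)

omit [Odd k] in
private theorem FR2_T3_add {b : k} (hb : Ell b) (M : Type) [Field M] [Algebra k M] :
    FR2_T3 hb M + FR2_T3 hb M = - FR2_T3 hb M := by
  have hb' : algebraMap k M b ≠ 0 := by
    rw [Ne, map_eq_zero_iff _ (FaithfulSMul.algebraMap_injective k M)]
    exact hb.1
  have hy : (0 : M) ≠ ((Eb b).baseChange M).toAffine.negY 0 0 := by
    simp only [WeierstrassCurve.Affine.negY, Eb, WeierstrassCurve.baseChange,
      WeierstrassCurve.map]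
    intro h
    apply hb'
    linear_combination h
  have hsl : ((Eb b).baseChange M).toAffine.slope 0 0 0 0 = 0 := by
    rw [WeierstrassCurve.Affine.slope_of_Y_ne rfl hy]
    simp [Eb, WeierstrassCurve.baseChange]
  unfold FR2_T3 pt
  rw [WeierstrassCurve.Affine.Point.add_self_of_Y_ne' hy]
  congr 1
  have e1 : ((Eb b).baseChange M).toAffine.addX 0 0
      (((Eb b).baseChange M).toAffine.slope 0 0 0 0) = 0 := by
    rw [hsl]
    simp [WeierstrassCurve.Affine.addX, Eb, WeierstrassCurve.baseChange]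
  have e2 : ((Eb b).baseChange M).toAffine.negAddY 0 0 0
      (((Eb b).baseChange M).toAffine.slope 0 0 0 0) = 0 := by
    rw [hsl]
    simp [WeierstrassCurve.Affine.negAddY, WeierstrassCurve.Affine.addX]
  simp only [WeierstrassCurve.Affine.Point.some.injEq]
  exact ⟨e1, e2⟩

omit [Odd k] in
private theorem FR2_T3_ne {b : k} (hb : Ell b) (M : Type) [Field M] [Algebra k M] :
    FR2_T3 hb M ≠ 0 := by
  unfold FR2_T3 pt
  intro h
  exact WeierstrassCurve.Affine.Point.some_ne_zero _ h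

omit [Odd k] in
private theorem FR2_T3_order {b : k} (hb : Ell b) (M : Type) [Field M] [Algebra k M] (n : ℤ)
    (h : n • FR2_T3 hb M = 0) : (3 : ℤ) ∣ n := by
  have h3 : (3 : ℤ) • FR2_T3 hb M = 0 := by
    have : (3 : ℤ) • FR2_T3 hb M = (FR2_T3 hb M + FR2_T3 hb M) + FR2_T3 hb M := by
      rw [show (3 : ℤ) = 1 + 1 + 1 by norm_num, add_smul, add_smul, one_smul]
    rw [this, FR2_T3_add, neg_add_cancel]
  by_contra hn
  have h1 : IsCoprime (3 : ℤ) n := by
    rw [(Int.prime_three).coprime_iff_not_dvd]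
    exact hn
  obtain ⟨u, v, huv⟩ := h1
  apply FR2_T3_ne hb M
  rw [← one_smul ℤ (FR2_T3 hb M), ← huv, add_smul, mul_smul, mul_smul, h3, h, smul_zero, smul_zero,
    add_zero]

omit [Odd k] in
private theorem FR2_T3_frob [Fintype k] {b : k} (hb : Ell b) (M : Type) [Field M] [Algebra k M] :
    pmap b (FiniteField.frobeniusAlgHom k M) (FR2_T3 hb M) = FR2_T3 hb M := by
  unfold FR2_T3 pt
  rw [WeierstrassCurve.Affine.Point.map_some]
  simp only [map_zero]

omit [Odd k] in
private theorem FR2_ratne {b : k} (hb : Ell b) :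
    ¬ ∃ c : k, (RatFunc.C b * (RatFunc.X + RatFunc.C b) / RatFunc.X ^ 2 : RatFunc k) =
      RatFunc.C c := by
  rintro ⟨c, hc⟩
  have hX : (RatFunc.X : RatFunc k) ^ 2 ≠ 0 := pow_ne_zero _ RatFunc.X_ne_zero
  rw [div_eq_iff hX] at hc
  have h1 : algebraMap k[X] (RatFunc k) (C b * (X + C b)) =
      algebraMap k[X] (RatFunc k) (C c * X ^ 2) := by
    simp only [map_add, map_mul, map_pow, RatFunc.algebraMap_X, RatFunc.algebraMap_C]
    exact hc
  have h2 := RatFunc.algebraMap_injective k h1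
  have h3 := congrArg (fun q : k[X] => q.eval 0) h2
  simp only [eval_mul, eval_add, eval_C, eval_X, eval_pow] at h3
  exact hb.1 (by
    have : b * b = 0 := by linear_combination h3
    simpa using this)

private theorem FR2_gX_ne {b : k} : gX b ≠ 0 := by
  intro h
  exact gX_transcendental b (h ▸ isAlgebraic_zero)

private theorem FR2_transc {b : k} (hb : Ell b) :
    Transcendental k (- (algebraMap k (FF b) b * gY b) / gX b ^ 2) := by
  intro halg
  have hX0 : gX b ≠ 0 := FR2_gX_ne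
  obtain ⟨t1, t2, -, -⟩ := tau_spec b
  have h1 : IsAlgebraic k (tau b (- (algebraMap k (FF b) b * gY b) / gX b ^ 2)) :=
    IsAlgebraic.algHom (tau b) halg
  have h2 := halg.add h1
  have e : - (algebraMap k (FF b) b * gY b) / gX b ^ 2 +
      tau b (- (algebraMap k (FF b) b * gY b) / gX b ^ 2) =
      algebraMap (RatFunc k) (FF b)
        (RatFunc.C b * (RatFunc.X + RatFunc.C b) / RatFunc.X ^ 2) := by
    have e0 : algebraMap (RatFunc k) (FF b) (RatFunc.C b) = algebraMap k (FF b) b := by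
      rw [IsScalarTower.algebraMap_apply k (RatFunc k) (FF b)]
      rfl
    rw [map_div₀ (tau b), map_neg, map_mul (tau b), map_pow (tau b), t1, t2, AlgHom.commutes,
      map_div₀, map_mul, map_add, map_pow, e0]
    change _ = algebraMap k (FF b) b * (gX b + algebraMap k (FF b) b) / gX b ^ 2
    field_simp
    ring
  rw [e] at h2
  have h3 := (isAlgebraic_algebraMap_iff (FaithfulSMul.algebraMap_injective (RatFunc k) (FF b))).mp h2
  exact RatFunc.transcendental_of_ne_C _ (FR2_ratne hb) h3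

private theorem FR2_sum {b : k} (hb : Ell b) :
    ∃ (y : FF b) (h : ((Eb b).baseChange (FF b)).toAffine.Nonsingular
      (- (algebraMap k (FF b) b * gY b) / gX b ^ 2) y),
      gP hb + FR2_T3 hb (FF b) = .some (- (algebraMap k (FF b) b * gY b) / gX b ^ 2) y h := by
  have hX0 : gX b ≠ 0 := FR2_gX_ne
  have hsl : ((Eb b).baseChange (FF b)).toAffine.slope (gX b) 0 (gY b) 0 = gY b / gX b := by
    rw [WeierstrassCurve.Affine.slope_of_X_ne hX0, sub_zero, sub_zero]
  have e1 : ((Eb b).baseChange (FF b)).toAffine.addX (gX b) 0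
      (((Eb b).baseChange (FF b)).toAffine.slope (gX b) 0 (gY b) 0) =
      - (algebraMap k (FF b) b * gY b) / gX b ^ 2 := by
    rw [hsl]
    simp only [WeierstrassCurve.Affine.addX, Eb, WeierstrassCurve.baseChange,
      WeierstrassCurve.map, map_one, map_zero]
    field_simp
    linear_combination g_eqn b
  have h2 : gP hb + FR2_T3 hb (FF b) = _ :=
    WeierstrassCurve.Affine.Point.add_of_X_ne (h₁ := nonsing hb (g_eqn b))
      (h₂ := nonsing hb (x := 0) (y := 0) (by ring)) hX0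
  rw [h2]
  generalize_proofs h3
  revert h3
  rw [e1]
  intro h3
  exact ⟨_, h3, rfl⟩

end FR2

private theorem FR2_small (p : ℕ) [Fact p.Prime] [CharP k p] (hp : 11 ≤ p) (n : ℕ)
    (h : ∀ q : ℕ, q.Prime → q ∣ n → q ≤ 10) : (n : k) ≠ 0 := by
  intro h0
  rw [CharP.cast_eq_zero_iff k p] at h0
  have := h p Fact.out h0
  omega

theorem frob_main [Fintype k] (p : ℕ) [Fact p.Prime] [CharP k p] (hp : 11 ≤ p)
    (hk : Fintype.card k = p ^ 2) (r5 r3 b0 : k) (hr5 : r5 ^ 2 = 5) (hr3 : r3 ^ 2 = -3)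
    (hb0 : 54 * 25 * b0 = 25 + 11 * r5) :
    ∃ a z : ℤ, 4 * (p : ℤ) ^ 2 - a ^ 2 = 15 * z ^ 2 ∧ 3 ∣ (p : ℤ) ^ 2 + 1 - a ∧
      ∀ (M : Type) [Field M] [Algebra k M] (x y : M) (_ : Transcendental k x)
        (h : ((Eb b0).baseChange M).toAffine.Nonsingular x y),
        FrobRel b0 a ((p : ℤ) ^ 2) (M := M) (.some x y h) := by
  have h2 : (2 : k) ≠ 0 := by
    have := FR2_small (k := k) p hp 2 (fun q _ hq => by
      have := Nat.le_of_dvd (by norm_num) hq; omega)
    exact_mod_cast this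
  have h3 : (3 : k) ≠ 0 := by
    have := FR2_small (k := k) p hp 3 (fun q _ hq => by
      have := Nat.le_of_dvd (by norm_num) hq; omega)
    exact_mod_cast this
  have h5 : (5 : k) ≠ 0 := by
    have := FR2_small (k := k) p hp 5 (fun q _ hq => by
      have := Nat.le_of_dvd (by norm_num) hq; omega)
    exact_mod_cast this
  have h20 : (20 : k) ≠ 0 := by
    have : (20 : k) = 2 * 2 * 5 := by norm_num
    rw [this]
    exact mul_ne_zero (mul_ne_zero h2 h2) h5
  have : Odd k := ⟨h2⟩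
  have hb : Ell b0 := by
    constructor
    · intro h
      apply h20
      rw [h] at hb0
      linear_combination (-1 : k) * (25 - 11 * r5) * hb0 + 121 * hr5
    · intro h
      apply h20
      linear_combination (25 + 11 * r5) * hb0 - 50 * (25 + 11 * r5) * h + 121 * hr5
  obtain ⟨f⟩ := exists_mu h2 h3 h5 r5 r3 b0 hr5 hr3 hb0
  have hx : (r5 * r3) ^ 2 = -15 := by
    rw [mul_pow, hr5, hr3]
    norm_num
  have hT := FR2_T p hp hb (r5 * r3) hx f
  set φ : RR b0 := ⟨phiEnd b0, phiEnd_mem b0⟩ with hφ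
  set μ : RR b0 := ⟨f.f (FF b0), isogEnd_mem f⟩ with hμ
  have hNφ : NN hb φ = (p : ℤ) ^ 2 := by
    rw [hφ, NN_phi hb, hk]
    push_cast
    ring
  have hNμ : NN hb μ = 16 := by
    rw [hμ, NN_isog hb f]
    norm_num
  have hcomm : φ * μ = μ * φ := by
    apply Subtype.ext
    ext1 P
    have := (mem_RR _).mp (isogEnd_mem f) (FiniteField.frobeniusAlgHom k (FF b0)) P
    exact this.symm
  have hC := qform_comm (NN hb) (NN_one hb) (NN_mul hb) (NN_par hb) φ μ hcomm
  set a : ℤ := trN (NN hb) φ with ha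
  rw [hNφ, hNμ, hT] at hC
  set B : ℤ := NN hb (φ + μ) - (p : ℤ) ^ 2 - 16 with hB
  have hC' : 15 * (4 * (p : ℤ) ^ 2 - a ^ 2) = (B - a) ^ 2 := by linarith
  have h3d : (3 : ℤ) ∣ B - a :=
    Int.prime_three.dvd_of_dvd_pow (n := 2) ⟨5 * (4 * (p : ℤ) ^ 2 - a ^ 2), by
      rw [← hC']; ring⟩
  have h5p : Prime (5 : ℤ) := by
    have : Nat.Prime 5 := by norm_num
    exact_mod_cast Nat.prime_iff_prime_int.mp this
  have h5d : (5 : ℤ) ∣ B - a :=
    h5p.dvd_of_dvd_pow (n := 2) ⟨3 * (4 * (p : ℤ) ^ 2 - a ^ 2), by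
      rw [← hC']; ring⟩
  have h15 : (15 : ℤ) ∣ B - a := by omega
  obtain ⟨z, hz⟩ := h15
  have hrel : ∀ (M : Type) [Field M] [Algebra k M] (x y : M) (_ : Transcendental k x)
        (h : ((Eb b0).baseChange M).toAffine.Nonsingular x y),
        FrobRel b0 a ((p : ℤ) ^ 2) (M := M) (.some x y h) := by
    intro M _ _ x y hx h
    have := FR2_rel hb x y hx h
    rw [hk] at this
    rw [Nat.cast_pow] at this
    exact this
  refine ⟨a, z, ?_, ?_, hrel⟩
  · rw [hz] at hC'
    nlinarith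
  · obtain ⟨y, h, hs⟩ := FR2_sum hb
    have r1 := hrel (FF b0) _ _ (FR2_transc hb) h
    have r2 := hrel (FF b0) _ _ (gX_transcendental b0) (nonsing hb (g_eqn b0))
    rw [← hs] at r1
    unfold FrobRel at r1 r2
    rw [map_add, map_add, FR2_T3_frob, FR2_T3_frob] at r1
    have e : (2 * (1 - a + (p : ℤ) ^ 2)) • FR2_T3 hb (FF b0) = 0 := by
      have r3 := congrArg₂ (· - ·) r1 r2
      simp only [sub_zero] at r3
      rw [← r3, ← smul_sub, mul_smul]
      congr 1
      change _ = _ - (_ - a • _ + _ • gP hb)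
      rw [smul_add, smul_add, add_smul, sub_smul, one_smul]
      change _ = pmap b0 (FiniteField.frobeniusAlgHom k (FF b0))
          (pmap b0 (FiniteField.frobeniusAlgHom k (FF b0)) (gP hb)) + FR2_T3 hb (FF b0) -
          (a • pmap b0 (FiniteField.frobeniusAlgHom k (FF b0)) (gP hb) +
            a • FR2_T3 hb (FF b0)) +
          ((p : ℤ) ^ 2 • gP hb + (p : ℤ) ^ 2 • FR2_T3 hb (FF b0)) -
          (pmap b0 (FiniteField.frobeniusAlgHom k (FF b0))
          (pmap b0 (FiniteField.frobeniusAlgHom k (FF b0)) (gP hb)) -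
          a • pmap b0 (FiniteField.frobeniusAlgHom k (FF b0)) (gP hb) + (p : ℤ) ^ 2 • gP hb)
      abel
    have h3 := FR2_T3_order hb (FF b0) _ e
    have : (3 : ℤ) ∣ 1 - a + (p : ℤ) ^ 2 := by
      generalize 1 - a + (p : ℤ) ^ 2 = t at h3
      omega
    have e2 : (p : ℤ) ^ 2 + 1 - a = 1 - a + (p : ℤ) ^ 2 := by ring
    rw [e2]
    exact this

end SC15.EC
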