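import Mathlib
import Pool.Agent.SC15.B.FGDelta
import Pool.Agent.SC15.B.FGCoef
import Pool.Agent.SC15.B.FGCart
import Pool.Agent.SC15.B.FGPhi
import Pool.Agent.SC15.B.Frob2

/-!
Module SC15-B-FGM (0.8 h): from the Frobenius relation to the congruences (Cartier, Atkin -
Swinnerton-Dyer).

Put `b = L.π b0`, `q = p^2`, `g_m = gt b m` over `k` and `G_m = gt b0 m` over `W`; `map L.π G_m = g_m`
(`map_gt`).
Plan.
 (1) `x_transcendental`: `x = t/V` is transcendental over `k`: `V = X^3 ω` with a unit `ω` (from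
 `V (1 + X + b V) = X^3`). If `∑_{i <= n} a_i x^i = 0`, `a_n <> 0`, multiply by `V^n`:
 `∑ a_i X^i V^(n-i) = X^n (a_n + ∑_{i<n} a_i X^(2(n-i)) ω^(n-i)) = 0`, so `a_n = 0`.
 (2) `Phi g_1 = (t/V, 1/V)`, and the Frobenius map sends `Phi g_1` to `Phi g_q` and `Phi g_q` to
 `Phi g_(q^2)`: coordinates `X^q/V^q` (`gt_frob` for `n = 2` and `n = 4`; `b^q = b` by
 `FiniteField.pow_card`), `map_pow`, `frobeniusAlgHom` is `x ↦ x^q`.
 (3) `FrobRel` for `Phi g_1` gives `Phi Qk = 0` for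
 `Qk = add (add (zsm 2 g_(q^2)) (zsm (-2a) g_q)) (zsm (2q) g_1)` (`phi_add`, `phi_zsm`), so
 `Qk.u = 0` (`phi_zero`). `Qk = map L.π QW` with `QW` the same expression in `G_m`
 (`map_add`, `map_zsm`, `map_gt`), so all coefficients of `QW.u` are divisible by `p` (`L.ker`).
 (4) `dlt QW = 2 q^2 X^(q^2-1) LL(X^(q^2)) - 2 a q X^(q-1) LL(X^q) + 2 q LL` (`dlt_add`, `dlt_zsm`, `dlt_gt`).
 By `cartier` (`j = 3`, `j = 2`) and `coeff_LL`, `coeff_expand`: the coefficient at `X^(p^3-1)` is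
 `2 q (c (p^3) b0 - a c p b0)` (`p^3 - 1 - (q-1) = q (p-1)`; `q^2 - 1 > p^3 - 1`; signs `(-1)^(p^3-1) = 1`
 since `p` is odd), divisible by `p^4`; at `X^(p^2-1)` it is `2 q (c (p^2) b0 - a)`, divisible by
 `p^3` (`c 1 b = 1`). Cancel `q = p^2` (`L.tf`) and the unit `2` (`L.unit`, `p` odd).
-/

open scoped Classical

namespace SC15.EC

open PowerSeries SC15.FG

private theorem fgm_V {A : Type*} [CommRing A] (b : A) :
    genV b * (1 + X + C b * genV b) = X ^ 3 := by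
  have := (genV_spec b).2
  linear_combination this

theorem x_transcendental {k : Type} [Field k] (b : k) :
    Transcendental k (algebraMap k⟦X⟧ (LaurentSeries k) X /
      algebraMap k⟦X⟧ (LaurentSeries k) (genV b)) := by
  intro halg
  set i := algebraMap k⟦X⟧ (LaurentSeries k) with hi
  have hinj : Function.Injective i := FaithfulSMul.algebraMap_injective _ _
  have hX : i X ≠ 0 := by
    rw [Ne, map_eq_zero_iff i hinj]
    exact X_ne_zero
  set U : k⟦X⟧ := 1 + X + C b * genV b with hU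
  have hUc : constantCoeff U = 1 := by
    simp [hU, (genV_spec b).1]
  have hVU : genV b * U = X ^ 3 := fgm_V b
  have hV : i (genV b) ≠ 0 := by
    intro h
    have h1 := congrArg i hVU
    rw [map_mul, h, zero_mul, map_pow] at h1
    exact pow_ne_zero 3 hX h1.symm
  have hx : i X / i (genV b) = i U / i X ^ 2 := by
    rw [div_eq_div_iff hV (pow_ne_zero 2 hX)]
    have h1 := congrArg i hVU
    rw [map_mul, map_pow] at h1
    linear_combination -h1
  have hint : IsIntegral k (i X / i (genV b)) := isAlgebraic_iff_isIntegral.mp halg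
  have hst : @IsScalarTower k k⟦X⟧ (LaurentSeries k) Algebra.toSMul Algebra.toSMul
      Algebra.toSMul := by
    refine IsScalarTower.of_algebraMap_eq (R := k) (S := k⟦X⟧) (A := LaurentSeries k) fun c => ?_
    rfl
  have hint2 : IsIntegral k⟦X⟧ (i X / i (genV b)) := hint.tower_top
  obtain ⟨w, hw⟩ := IsIntegrallyClosed.isIntegral_iff.mp hint2
  rw [hx, eq_div_iff (pow_ne_zero 2 hX)] at hw
  have h2 : w * X ^ 2 = U := by
    apply hinj
    rw [map_mul, map_pow]
    exact hw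
  have h3 := congrArg (constantCoeff (R := k)) h2
  rw [hUc] at h3
  simp at h3

private theorem fgm_pt {k : Type} [Field k] {b : k} (hb : Ell b) {M : Type} [Field M] [Algebra k M]
    (f : M →ₐ[k] M) {x y x' y' : M} (h : y ^ 2 + x * y + algebraMap k M b * y = x ^ 3)
    (h' : y' ^ 2 + x' * y' + algebraMap k M b * y' = x' ^ 3) (hx : f x = x') (hy : f y = y') :
    pmap b f (pt hb x y h) = pt hb x' y' h' := by
  subst hx hy
  rfl

/-- Frobenius on the points -/
private theorem fgm_frob {k : Type} [Field k] [Fintype k] {b : k} (hb : Ell b) (P Q : Gp b)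
    (hu : Q.u = P.u ^ Fintype.card k) (hv : Q.v = P.v ^ Fintype.card k) :
    pmap b (FiniteField.frobeniusAlgHom k (LaurentSeries k)) (Phi hb P) = Phi hb Q := by
  have hq : Fintype.card k ≠ 0 := Fintype.card_ne_zero
  by_cases h : P.v = 0
  · have h' : Q.v = 0 := by rw [hv, h, zero_pow hq]
    unfold Phi
    rw [dif_pos h, dif_pos h', map_zero]
  · have h' : Q.v ≠ 0 := by rw [hv]; exact pow_ne_zero _ h
    unfold Phi
    rw [dif_neg h, dif_neg h']
    have e1 : FiniteField.frobeniusAlgHom k (LaurentSeries k)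
        (algebraMap k⟦X⟧ (LaurentSeries k) P.u / algebraMap k⟦X⟧ (LaurentSeries k) P.v) =
        algebraMap k⟦X⟧ (LaurentSeries k) Q.u / algebraMap k⟦X⟧ (LaurentSeries k) Q.v := by
      rw [FiniteField.coe_frobeniusAlgHom, hu, hv, map_pow, map_pow]
      exact div_pow _ _ _
    have e2 : FiniteField.frobeniusAlgHom k (LaurentSeries k)
        (1 / algebraMap k⟦X⟧ (LaurentSeries k) P.v) =
        1 / algebraMap k⟦X⟧ (LaurentSeries k) Q.v := by
      rw [FiniteField.coe_frobeniusAlgHom, hv, map_pow]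
      exact one_div_pow _ _
    exact fgm_pt hb _ _ _ e1 e2

private theorem fgm_coeff {W : Type} [CommRing W] (b : W) (m : ℕ) (hm : m ≠ 0) (N : ℕ) :
    coeff N (dlt (gt b m hm)) = if m - 1 ≤ N then
      (m : W) * coeff (N - (m - 1)) (expand m hm (LL b)) else 0 := by
  rw [dlt_gt, mul_assoc]
  have h : (m : W⟦X⟧) = C (m : W) := (map_natCast (C (R := W)) m).symm
  rw [h, coeff_C_mul, coeff_X_pow_mul']
  split_ifs with h1
  · rfl
  · rw [mul_zero]

theorem formal_main {p : ℕ} [Fact p.Prime] (hp2 : p ≠ 2) {W k : Type} [CommRing W] [IsDomain W]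
    [CharZero W] [Field k] [Fintype k] [CharP k p] (L : SC15.Lift p W k)
    (hk : Fintype.card k = p ^ 2) (b0 : W) (hb : Ell (L.π b0)) (a : ℤ)
    (hrel : ∀ (M : Type) [Field M] [Algebra k M] (x y : M) (_ : Transcendental k x)
        (h : ((Eb (L.π b0)).baseChange M).toAffine.Nonsingular x y),
        FrobRel (L.π b0) a ((p : ℤ) ^ 2) (M := M) (.some x y h)) :
    (p : W) ^ 2 ∣ SC15.c (p ^ 3) b0 - (a : W) * SC15.c p b0 ∧
      (p : W) ∣ SC15.c (p ^ 2) b0 - (a : W) := by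
  have hp : p.Prime := Fact.out
  have hp0 : p ≠ 0 := hp.ne_zero
  have h1m : (p ^ 2) ≠ 0 := pow_ne_zero _ hp0
  have h2m : (p ^ 4) ≠ 0 := pow_ne_zero _ hp0
  have hchar2 : (2 : k) ≠ 0 := by
    intro h
    have h3 : ((2 : ℕ) : k) = 0 := by exact_mod_cast h
    rw [CharP.cast_eq_zero_iff k p] at h3
    exact hp2 ((Nat.prime_dvd_prime_iff_eq hp Nat.prime_two).mp h3)
  set b : k := L.π b0 with hbdef
  have hbq : b ^ (p ^ 2) = b := by rw [← hk]; exact FiniteField.pow_card b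
  have hbq2 : b ^ (p ^ 4) = b := by
    have : p ^ 4 = p ^ 2 * p ^ 2 := by ring
    rw [this, pow_mul, hbq, hbq]
  -- the three points
  have g1u : (gt b 1 one_ne_zero).u = X := by rw [(gt_spec b 1 one_ne_zero).1, pow_one]
  have g1v : (gt b 1 one_ne_zero).v = genV b := by
    rw [(gt_spec b 1 one_ne_zero).2, expand_one_apply]
  have gqu : (gt b (p ^ 2) h1m).u = X ^ (p ^ 2) := (gt_spec b (p ^ 2) h1m).1
  have gqv : (gt b (p ^ 2) h1m).v = genV b ^ (p ^ 2) := gt_frob p 2 b hbq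
  have gqqu : (gt b (p ^ 4) h2m).u = X ^ (p ^ 4) := (gt_spec b (p ^ 4) h2m).1
  have gqqv : (gt b (p ^ 4) h2m).v = genV b ^ (p ^ 4) := gt_frob p 4 b hbq2
  have hF1 : pmap b (FiniteField.frobeniusAlgHom k (LaurentSeries k))
      (Phi hb (gt b 1 one_ne_zero)) = Phi hb (gt b (p ^ 2) h1m) := by
    refine fgm_frob hb _ _ ?_ ?_
    · rw [g1u, gqu, hk]
    · rw [g1v, gqv, hk]
  have hF2 : pmap b (FiniteField.frobeniusAlgHom k (LaurentSeries k))
      (Phi hb (gt b (p ^ 2) h1m)) = Phi hb (gt b (p ^ 4) h2m) := by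
    have e : p ^ 4 = p ^ 2 * p ^ 2 := by ring
    refine fgm_frob hb _ _ ?_ ?_
    · rw [gqu, gqqu, hk, e, pow_mul]
    · rw [gqv, gqqv, hk, e, pow_mul]
  -- the Frobenius relation for the first point
  have hV0 : genV b ≠ 0 := by
    intro h
    have h3 := fgm_V b
    rw [h, zero_mul] at h3
    exact pow_ne_zero 3 X_ne_zero h3.symm
  have hR : FrobRel b a ((p : ℤ) ^ 2) (M := LaurentSeries k) (Phi hb (gt b 1 one_ne_zero)) := by
    have hv' : (gt b 1 one_ne_zero).v ≠ 0 := by rw [g1v]; exact hV0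
    unfold Phi
    rw [dif_neg hv']
    unfold pt
    refine hrel (LaurentSeries k) _ _ ?_ _
    rw [g1u, g1v]
    exact x_transcendental b
  unfold FrobRel at hR
  rw [hF1, hF2] at hR
  -- the point `Qk`
  have hQk : Phi hb (add (add (zsm 2 (gt b (p ^ 4) h2m)) (zsm (-2 * a) (gt b (p ^ 2) h1m)))
      (zsm (2 * (p : ℤ) ^ 2) (gt b 1 one_ne_zero))) = 0 := by
    rw [phi_add hchar2, phi_add hchar2, phi_zsm hchar2, phi_zsm hchar2, phi_zsm hchar2, ← hR,
      smul_add, smul_sub, smul_smul, smul_smul, neg_mul, neg_smul]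
    abel
  have hQu := phi_zero hb hQk
  -- lift
  set QW : Gp b0 := add (add (zsm 2 (gt b0 (p ^ 4) h2m)) (zsm (-2 * a) (gt b0 (p ^ 2) h1m)))
      (zsm (2 * (p : ℤ) ^ 2) (gt b0 1 one_ne_zero)) with hQW
  have hmap : map L.π QW = add (add (zsm 2 (gt b (p ^ 4) h2m)) (zsm (-2 * a) (gt b (p ^ 2) h1m)))
      (zsm (2 * (p : ℤ) ^ 2) (gt b 1 one_ne_zero)) := by
    rw [hQW, SC15.FG.map_add, SC15.FG.map_add, map_zsm, map_zsm, map_zsm, map_gt, map_gt, map_gt]
  rw [← hmap] at hQu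
  have hdiv : ∀ n, (p : W) ∣ coeff n QW.u := by
    intro n
    rw [← L.ker]
    have h3 := congrArg (coeff n) hQu
    have h4 : (map L.π QW).u = PowerSeries.map L.π QW.u := rfl
    rw [h4, coeff_map, map_zero] at h3
    exact h3
  -- the differential
  have hd : dlt QW = 2 * dlt (gt b0 (p ^ 4) h2m) + (((-2 * a : ℤ)) : W⟦X⟧) *
      dlt (gt b0 (p ^ 2) h1m) + ((2 * (p : ℤ) ^ 2 : ℤ) : W⟦X⟧) * dlt (gt b0 1 one_ne_zero) := by
    rw [hQW, dlt_add, dlt_add, dlt_zsm, dlt_zsm, dlt_zsm]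
    norm_num
  have hp1 : 1 < p := hp.one_lt
  have hpodd : _root_.Odd p := hp.odd_of_ne_two hp2
  have hcoef : ∀ N, N < p ^ 4 - 1 → p ^ 2 - 1 ≤ N → coeff N (dlt QW) =
      -2 * (a : W) * ((p : W) ^ 2 * coeff (N - (p ^ 2 - 1)) (expand (p ^ 2) h1m (LL b0))) +
        2 * (p : W) ^ 2 * coeff N (LL b0) := by
    intro N hN hN2
    have e2 : (2 : W⟦X⟧) = C (2 : W) := (map_ofNat (C (R := W)) 2).symm
    have e3 : ((-2 * a : ℤ) : W⟦X⟧) = C ((-2 * a : ℤ) : W) := (map_intCast (C (R := W)) _).symm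
    have e4 : ((2 * (p : ℤ) ^ 2 : ℤ) : W⟦X⟧) = C ((2 * (p : ℤ) ^ 2 : ℤ) : W) := (map_intCast (C (R := W)) _).symm
    rw [hd, _root_.map_add, _root_.map_add, e2, e3, e4, coeff_C_mul, coeff_C_mul, coeff_C_mul,
      fgm_coeff, fgm_coeff, fgm_coeff, if_neg (by omega), if_pos hN2, if_pos (by omega)]
    rw [expand_one_apply]
    push_cast
    simp only [Nat.sub_zero]
    ring
  have hpW : (p : W) ≠ 0 := by exact_mod_cast hp0
  have hu2 : IsUnit (2 : W) := by
    apply L.unit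
    rw [map_ofNat]
    exact hchar2
  have hlt24 : p ^ 2 < p ^ 4 := Nat.pow_lt_pow_right hp1 (by norm_num)
  have hlt34 : p ^ 3 < p ^ 4 := Nat.pow_lt_pow_right hp1 (by norm_num)
  have hlt23 : p ^ 2 < p ^ 3 := Nat.pow_lt_pow_right hp1 (by norm_num)
  have hlt02 : 0 < p ^ 2 := pow_pos hp.pos 2
  constructor
  · have hc := cartier L QW hdiv 3
    rw [hcoef (p ^ 3 - 1) (by omega) (by omega)] at hc
    have e1 : p ^ 3 - 1 - (p ^ 2 - 1) = p ^ 2 * (p - 1) := by
      rw [Nat.mul_sub, mul_one]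
      have : p ^ 2 * p = p ^ 3 := by ring
      rw [this]
      omega
    rw [e1, coeff_expand_mul, coeff_LL, coeff_LL, Nat.sub_add_cancel hp1.le,
      Nat.sub_add_cancel (by omega : 1 ≤ p ^ 3)] at hc
    have s1 : ((-1 : W)) ^ (p - 1) = 1 := Even.neg_one_pow (by
      obtain ⟨t, ht⟩ := hpodd
      exact ⟨t, by omega⟩)
    have s2 : ((-1 : W)) ^ (p ^ 3 - 1) = 1 := Even.neg_one_pow (by
      obtain ⟨t, ht⟩ := hpodd.pow (n := 3)
      exact ⟨t, by omega⟩)
    rw [s1, s2, one_mul, one_mul] at hc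
    have e5 : -2 * (a : W) * ((p : W) ^ 2 * SC15.c p b0) + 2 * (p : W) ^ 2 * SC15.c (p ^ 3) b0 =
        (p : W) ^ 2 * (2 * (SC15.c (p ^ 3) b0 - (a : W) * SC15.c p b0)) := by ring
    have e6 : (p : W) ^ (3 + 1) = (p : W) ^ 2 * (p : W) ^ 2 := by ring
    rw [e5, e6] at hc
    have hc2 := (mul_dvd_mul_iff_left (pow_ne_zero 2 hpW)).mp hc
    exact (hu2.dvd_mul_left).mp hc2
  · have hc := cartier L QW hdiv 2
    rw [hcoef (p ^ 2 - 1) (by omega) le_rfl] at hc
    have e1 : p ^ 2 - 1 - (p ^ 2 - 1) = p ^ 2 * 0 := by omega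
    rw [e1, coeff_expand_mul, coeff_LL, coeff_LL, Nat.sub_add_cancel (by omega : 1 ≤ p ^ 2)] at hc
    have s2 : ((-1 : W)) ^ (p ^ 2 - 1) = 1 := Even.neg_one_pow (by
      obtain ⟨t, ht⟩ := hpodd.pow (n := 2)
      exact ⟨t, by omega⟩)
    have hc1 : SC15.c (0 + 1) b0 = (1 : W) := by
      simp [SC15.c, SC15.cc]
    rw [s2, hc1, one_mul, pow_zero, one_mul, mul_one] at hc
    have e5 : -2 * (a : W) * (p : W) ^ 2 + 2 * (p : W) ^ 2 * SC15.c (p ^ 2) b0 =
        (p : W) ^ 2 * (2 * (SC15.c (p ^ 2) b0 - (a : W))) := by ring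
    have e6 : (p : W) ^ (2 + 1) = (p : W) ^ 2 * (p : W) := by ring
    rw [e5, e6] at hc
    have hc2 := (mul_dvd_mul_iff_left (pow_ne_zero 2 hpW)).mp hc
    exact (hu2.dvd_mul_left).mp hc2

end SC15.EC
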