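import Mathlib
import Pool.Agent.SC15.B.FGMain

/-!
Part B of project SC15: the final statement (assembly of `Frob2` and `FGMain`).
-/

open scoped Classical

namespace SC15

theorem partB {p : ℕ} [Fact p.Prime] (hp : 11 ≤ p) {W k : Type} [CommRing W] [IsDomain W]
    [CharZero W] [Field k] [Fintype k] [CharP k p] (L : Lift p W k)
    (hk : Fintype.card k = p ^ 2) (r5 r3 b0 : W) (hr5 : r5 ^ 2 = 5) (hr3 : r3 ^ 2 = -3)
    (hb0 : 54 * 25 * b0 = 25 + 11 * r5) :
    ∃ a z : ℤ, 4 * (p : ℤ) ^ 2 - a ^ 2 = 15 * z ^ 2 ∧ 3 ∣ (p : ℤ) ^ 2 + 1 - a ∧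
      (p : W) ^ 2 ∣ c (p ^ 3) b0 - (a : W) * c p b0 ∧ (p : W) ∣ c (p ^ 2) b0 - (a : W) := by
  have hk0 : ∀ n : ℕ, (n : k) = 0 → p ∣ n := fun n h => (CharP.cast_eq_zero_iff k p n).mp h
  have e5 : (L.π r5) ^ 2 = 5 := by rw [← map_pow, hr5, map_ofNat]
  have e3 : (L.π r3) ^ 2 = -3 := by rw [← map_pow, hr3, map_neg, map_ofNat]
  have eb : 54 * 25 * L.π b0 = 25 + 11 * L.π r5 := by
    have := congrArg L.π hb0
    simpa only [map_mul, map_add, map_ofNat] using this
  obtain ⟨a, z, h1, h2, h3⟩ := EC.frob_main p hp hk _ _ _ e5 e3 eb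
  have hp2 : p ≠ 2 := by omega
  have h20 : (20 : k) ≠ 0 := by
    intro h
    have h1 : p ∣ 20 := hk0 20 (by exact_mod_cast h)
    have h2 : p ≤ 20 := Nat.le_of_dvd (by norm_num) h1
    have hpp : p.Prime := Fact.out
    interval_cases p <;> revert h1 hpp <;> decide
  have hell : EC.Ell (L.π b0) := by
    constructor
    · intro h
      rw [h] at eb
      apply h20
      linear_combination (-(25 - 11 * L.π r5)) * eb + 121 * e5
    · intro h
      apply h20
      linear_combination (25 + 11 * L.π r5) * eb + 121 * e5 - 50 * (25 + 11 * L.π r5) * h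
  obtain ⟨h4, h5⟩ := EC.formal_main hp2 L hk b0 hell a h3
  exact ⟨a, z, h1, h2, h4, h5⟩

end SC15
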